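import Pool.Agent.Q127.SM.Ineq

/-!
# Existence of the basis of the lattice
-/

open Complex Matrix.SpecialLinearGroup MatrixGroups ModularGroup

namespace Pool.Agent.Q127.SM

open Pool.Agent.TH133.SH

variable {a a' : ℕ → ℤ} {M N D : ℕ} {Ω₁ Ω₂ Ω₁' Ω₂' : ℂ}

lemma exists_min {P : ℂ → Prop} (f : ℂ → ℝ) {ρ : ℝ} (hρ : 0 < ρ)
    (h1 : ∀ z, P z → ∃ k : ℤ, f z = k * ρ) (h2 : ∃ z, P z ∧ 0 < f z) :
    ∃ z, P z ∧ 0 < f z ∧ ∀ w, P w → 0 < f w → f z ≤ f w := by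
  classical
  have h3 : ∃ n : ℕ, ∃ z, P z ∧ 0 < f z ∧ f z = n * ρ := by
    obtain ⟨z, hz, hz0⟩ := h2
    obtain ⟨k, hk⟩ := h1 z hz
    have hk0 : (0 : ℝ) < k := by
      rw [hk] at hz0
      exact pos_of_mul_pos_left hz0 hρ.le
    have hk1 : 0 < k := by exact_mod_cast hk0
    refine ⟨k.toNat, z, hz, hz0, ?_⟩
    rw [hk]
    congr 1
    have : ((k.toNat : ℕ) : ℤ) = k := Int.toNat_of_nonneg hk1.le
    exact_mod_cast this.symm
  obtain ⟨z, hz, hz0, hzn⟩ := Nat.find_spec h3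
  refine ⟨z, hz, hz0, fun w hw hw0 => ?_⟩
  obtain ⟨k, hk⟩ := h1 w hw
  have hk0 : (0 : ℝ) < k := by
    rw [hk] at hw0
    exact pos_of_mul_pos_left hw0 hρ.le
  have hk1 : 0 < k := by exact_mod_cast hk0
  have hkk : ((k.toNat : ℕ) : ℤ) = k := Int.toNat_of_nonneg hk1.le
  have hkk' : ((k.toNat : ℕ) : ℝ) = k := by exact_mod_cast hkk
  have h4 : Nat.find h3 ≤ k.toNat := Nat.find_min' h3 ⟨w, hw, hw0, by rw [hk, hkk']⟩
  rw [hzn, hk, ← hkk']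
  have h5 : ((Nat.find h3 : ℕ) : ℝ) ≤ (k.toNat : ℝ) := by exact_mod_cast h4
  exact mul_le_mul_of_nonneg_right h5 hρ.le

/-- If the lattice is discrete and spans the plane, the basis of the problem exists. -/
lemma exists_basis (ha : IsForm M a) {ρ σ : ℝ} (hρ : 0 < ρ) (hσ : 0 < σ)
    (h1 : ∀ z ∈ Lam ha, ∃ k : ℤ, z.im = k * ρ)
    (h2 : ∀ z ∈ Lam ha, z.im = 0 → ∃ k : ℤ, z.re = k * σ)
    (h3 : ∃ z ∈ Lam ha, z.im ≠ 0) (h4 : ∃ z ∈ Lam ha, z.re ≠ 0) :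
    ∃ Ω₁ Ω₂ : ℂ, IsBasis M a Ω₁ Ω₂ := by
  have hconj : ∀ z ∈ Lam ha, z + (starRingEnd ℂ) z ∈ Lam ha := by
    intro z hz
    refine (Lam ha).add_mem hz ?_
    obtain ⟨g, hg, rfl⟩ := hz
    exact ⟨flip g, inG_flip hg, Hs_flip a g⟩
  have hmem : ∀ p q r s : ℤ, p * s - q * r = 1 → (M : ℤ) ∣ r → Hval a p q r s ∈ Lam ha := by
    intro p q r s hd hr
    exact ⟨mk p q r s hd, hr, rfl⟩
  -- the first period
  obtain ⟨w₁, hw₁, hw₁0, hmin₁⟩ := exists_min (P := fun z => z ∈ Lam ha ∧ z.im = 0)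
    Complex.re hσ (fun z hz => h2 z hz.1 hz.2) (by
      obtain ⟨z, hz, hz0⟩ := h4
      rcases lt_or_gt_of_ne hz0 with h | h
      · refine ⟨-(z + (starRingEnd ℂ) z), ⟨(Lam ha).neg_mem (hconj z hz), by simp⟩, ?_⟩
        simp
        linarith
      · refine ⟨z + (starRingEnd ℂ) z, ⟨hconj z hz, by simp⟩, ?_⟩
        simp
        linarith)
  obtain ⟨w₂, hw₂, hw₂0, hmin₂⟩ := exists_min (P := fun z => z ∈ Lam ha)
    Complex.im hρ h1 (by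
      obtain ⟨z, hz, hz0⟩ := h3
      rcases lt_or_gt_of_ne hz0 with h | h
      · exact ⟨-z, (Lam ha).neg_mem hz, by rw [Complex.neg_im]; linarith⟩
      · exact ⟨z, hz, h⟩)
  set k : ℤ := ⌊w₂.re / w₁.re⌋ with hk
  have hw₃ : w₂ - k • w₁ ∈ Lam ha := (Lam ha).sub_mem hw₂ ((Lam ha).zsmul_mem hw₁.1 k)
  have hre : (w₂ - k • w₁).re = w₂.re - k * w₁.re := by simp
  have him : (w₂ - k • w₁).im = w₂.im := by simp [hw₁.2]
  refine ⟨w₁, w₂ - k • w₁, ?_⟩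
  refine ⟨hw₁.2, hw₁0, ?_, ?_, ?_, ?_, ?_, ?_, ?_⟩
  · obtain ⟨g, hg, hg'⟩ := hw₁.1
    exact ⟨g 0 0, g 0 1, g 1 0, g 1 1, det_eq g, hg, hg'.symm⟩
  · intro p q r s hd hr h5 h6
    exact hmin₁ _ ⟨hmem p q r s hd hr, h5⟩ h6
  · rw [him]
    exact hw₂0
  · rw [hre]
    have := Int.floor_le (w₂.re / w₁.re)
    rw [← hk, le_div_iff₀ hw₁0] at this
    linarith
  · rw [hre]
    have := Int.lt_floor_add_one (w₂.re / w₁.re)
    rw [← hk, div_lt_iff₀ hw₁0] at this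
    linarith
  · obtain ⟨g, hg, hg'⟩ := hw₃
    exact ⟨g 0 0, g 0 1, g 1 0, g 1 1, det_eq g, hg, hg'.symm⟩
  · intro p q r s hd hr h5
    rw [him]
    exact hmin₂ _ (hmem p q r s hd hr) h5

/-- Twice the real part of an element of the lattice is a multiple of the real period. -/
lemma re_mem (ha : IsForm N a) (hb : IsBasis N a Ω₁ Ω₂) {z : ℂ} (hz : z ∈ Lam ha) :
    ∃ k : ℤ, 2 * z.re = k * Ω₁.re := by
  have hw : z + (starRingEnd ℂ) z ∈ Lam ha := by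
    refine (Lam ha).add_mem hz ?_
    obtain ⟨g, hg, rfl⟩ := hz
    exact ⟨flip g, inG_flip hg, Hs_flip a g⟩
  obtain ⟨m, n, hmn⟩ := lattice ha hb hw
  have h1 := congrArg Complex.im hmn
  have h2 := congrArg Complex.re hmn
  simp [hb.im₁] at h1 h2
  have hn : n = 0 := by
    rcases h1 with h | h
    · exact h
    · exact absurd h hb.im₂.ne'
  rw [hn] at h2
  refine ⟨m, ?_⟩
  simp at h2
  linarith

/-- The imaginary part of an element of the lattice. -/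
lemma im_mem (ha : IsForm N a) (hb : IsBasis N a Ω₁ Ω₂) {z : ℂ} (hz : z ∈ Lam ha) :
    ∃ k : ℤ, z.im = k * Ω₂.im := by
  obtain ⟨m, n, hmn⟩ := lattice ha hb hz
  have h1 := congrArg Complex.im hmn
  simp [hb.im₁] at h1
  exact ⟨n, h1⟩

/-- Transport of the basis: `Λ'` and `Λ` contain multiples of each other by imaginary numbers. -/
lemma transport (ha : IsForm N a) (ha' : IsForm M a') (hb : IsBasis N a Ω₁ Ω₂) {g g' : ℂ}
    (hg : g.re = 0) (hg0 : g.im ≠ 0) (hg' : g'.re = 0) (hg'0 : g'.im ≠ 0)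
    (h1 : ∀ z ∈ Lam ha', g * z ∈ Lam ha) (h2 : ∀ z ∈ Lam ha, g' * z ∈ Lam ha') :
    ∃ Ω₁' Ω₂' : ℂ, IsBasis M a' Ω₁' Ω₂' := by
  have hre : ∀ z : ℂ, (g * z).re = -(g.im * z.im) := by
    intro z; rw [Complex.mul_re, hg]; ring
  have him : ∀ z : ℂ, (g * z).im = g.im * z.re := by
    intro z; rw [Complex.mul_im, hg]; ring
  have hre' : ∀ z : ℂ, (g' * z).re = -(g'.im * z.im) := by
    intro z; rw [Complex.mul_re, hg']; ring
  have him' : ∀ z : ℂ, (g' * z).im = g'.im * z.re := by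
    intro z; rw [Complex.mul_im, hg']; ring
  have hΩ₁ : Ω₁ ∈ Lam ha := by
    obtain ⟨p, q, r, s, h3, h4, h5⟩ := hb.mem₁
    exact ⟨mk p q r s h3, h4, h5.symm⟩
  have hΩ₂ : Ω₂ ∈ Lam ha := by
    obtain ⟨p, q, r, s, h3, h4, h5⟩ := hb.mem₂
    exact ⟨mk p q r s h3, h4, h5.symm⟩
  have hp : 0 < |g.im| := abs_pos.2 hg0
  refine exists_basis ha' (ρ := Ω₁.re / (2 * |g.im|)) (σ := Ω₂.im / |g.im|)
    (div_pos hb.re₁ (by positivity)) (div_pos hb.im₂ hp) ?_ ?_ ?_ ?_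
  · intro z hz
    obtain ⟨k, hk⟩ := re_mem ha hb (h1 z hz)
    rw [hre] at hk
    rcases lt_or_gt_of_ne hg0 with h | h
    · refine ⟨k, ?_⟩
      rw [abs_of_neg h]
      field_simp
      linarith
    · refine ⟨-k, ?_⟩
      rw [abs_of_pos h]
      push_cast
      field_simp
      linarith
  · intro z hz _
    obtain ⟨k, hk⟩ := im_mem ha hb (h1 z hz)
    rw [him] at hk
    rcases lt_or_gt_of_ne hg0 with h | h
    · refine ⟨-k, ?_⟩
      rw [abs_of_neg h]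
      push_cast
      field_simp
      linarith
    · refine ⟨k, ?_⟩
      rw [abs_of_pos h]
      field_simp
      linarith
  · refine ⟨g' * Ω₁, h2 _ hΩ₁, ?_⟩
    rw [him']
    exact mul_ne_zero hg'0 hb.re₁.ne'
  · refine ⟨g' * Ω₂, h2 _ hΩ₂, ?_⟩
    rw [hre']
    exact neg_ne_zero.2 (mul_ne_zero hg'0 hb.im₂.ne')

end Pool.Agent.Q127.SM
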