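import Pool.Agent.Q127.SM.Stm
import Mathlib.NumberTheory.LegendreSymbol.QuadraticChar.Basic

/-!
# The odd quadratic character modulo a prime which is `3` modulo `4`
-/

namespace Pool.Agent.Q127.SM

theorem chr : S_chr := by
  intro q hq h4
  have : Fact q.Prime := ⟨hq⟩
  have hq2 : ringChar (ZMod q) ≠ 2 := by
    rw [ZMod.ringChar_zmod_n]
    rintro rfl
    norm_num at h4
  have hqc : (quadraticChar (ZMod q)).IsQuadratic := quadraticChar_isQuadratic (ZMod q)
  set χ : DirichletCharacter ℂ q := (quadraticChar (ZMod q)).ringHomComp (Int.castRingHom ℂ) with hχ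
  have hsq : χ ^ 2 = 1 := (hqc.comp (Int.castRingHom ℂ)).sq_eq_one
  have hodd : χ (-1) = -1 := by
    rw [hχ, MulChar.ringHomComp_apply, quadraticChar_neg_one hq2, ZMod.card,
      ZMod.χ₄_nat_three_mod_four h4]
    simp
  refine ⟨χ, hsq, ?_, hodd⟩
  unfold DirichletCharacter.IsPrimitive
  have h1 := χ.conductor_dvd_level
  rcases (Nat.dvd_prime hq).1 h1 with h | h
  · exfalso
    rw [← DirichletCharacter.eq_one_iff_conductor_eq_one] at h
    rw [h] at hodd
    have h2 : (1 : DirichletCharacter ℂ q) (-1) = 1 := MulChar.one_apply isUnit_one.neg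
    rw [h2] at hodd
    norm_num at hodd
  · exact h

end Pool.Agent.Q127.SM
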