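import Pool.Agent.Q127.SM.Ineq

/-!
# Statements for the lemma jobs of the project SM (MP_bde085_nt: one coordinate is enough in Q1)

`fser a τ = ∑ a(k) e(kτ)`, `Fser a τ = ∑ a(k)/k e(kτ)`, `act g τ` is the action of `g ∈ SL(2, ℤ)`,
`InG N g` says `N ∣ g 1 0`, `Hs a g = F(g i) - F(i)`, and `diff_eq : IsForm N a → InG N g →
0 < τ.im → Fser a (act g τ) - Fser a τ = Hs a g`.  `Hs_parabolic`: `Hs a g = 0` if `InG N g` and
`(g 0 0 + g 1 1) ^ 2 = 4`.  `act_mul`, `mob_mul`, `im_mob`, `hasDerivAt_Fser`, `hasDerivAt_mob` are in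
`Pool.Agent.TH133.SH.Analysis` and `Pool.Agent.TH133.SH.Hom`.
-/

open Complex Matrix.SpecialLinearGroup MatrixGroups ModularGroup

namespace Pool.Agent.Q127.SM

open Pool.Agent.TH133.SH

/-- The Hecke relation at `q` for the sequence `a`. -/
def HeckeAt (a : ℕ → ℤ) (q : ℕ) : Prop :=
  ∀ n : ℕ, a (q * n) + (if q ∣ n then (q : ℤ) * a (n / q) else 0) = a q * a n

/-- Summability of the series in the upper half plane. -/
def Summ (a : ℕ → ℤ) : Prop :=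
  ∀ τ : ℂ, 0 < τ.im → Summable (fun k : ℕ => (a k : ℂ) *
    Complex.exp (2 * (Real.pi : ℂ) * Complex.I * (k : ℂ) * τ))

/-- The part of the sequence `a` at the integers which are not divisible by `q`. -/
def cop (a : ℕ → ℤ) (q : ℕ) (n : ℕ) : ℤ := if q ∣ n then 0 else a n

/-- The matrix `(1, 0; c, 1)`. -/
def low (c : ℤ) : SL(2, ℤ) := mk 1 0 c 1 (by ring)

/-- The matrix `(1, j; 0, 1)`. -/
def trans (j : ℤ) : SL(2, ℤ) := mk 1 j 0 1 (by ring)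

/-- Representatives of `Γ₀(Nq) \ Γ₀(N)`, for `q ∤ N` and `q ∣ 1 + N j`; the indices are `0, …, q`. -/
def rep₂ (N q j : ℕ) (v : ℕ) : SL(2, ℤ) :=
  if v < q then low ((N : ℤ) * v) else low (N : ℤ) * trans (j : ℤ)

/-- JOB DEC. Decay at every cusp. Proof: let `r, s` be the lower row of `γ` and
`g(w) = fser a (act γ w) / (r w + s)^2` for `0 < w.im`, and `g(w) = 0` otherwise. By `im_mob`
(`(act γ w).im = w.im / ‖r w + s‖^2`) we have `(act γ w).im * ‖fser a (act γ w)‖ = w.im * ‖g w‖`, and this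
is at most `B` (`IsForm.bounded`), so `g → 0` for `w.im → ∞`. `g` has period `N`: with
`δ = γ * T^N * γ⁻¹`, which lies in `Γ₀(N)` (lower left entry `-N r^2`), `act γ (w + N) = act δ (act γ w)`
and `IsForm.modular`; or: `G(w) = Fser a (act γ w)` satisfies `G(w + N) = G(w)` because `Hs a δ = 0`
(`Hs_parabolic`, `diff_eq`), and `g` is the derivative of `G` divided by `2 π i` (chain rule,
`hasDerivAt_comp`); this also shows that `g` is differentiable in the upper half plane (the derivative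
of a holomorphic function is holomorphic: `DifferentiableOn.deriv`). Now
`Function.Periodic.exp_decay_of_zero_at_inf` gives `‖g w‖ = O(exp(-2 π w.im / N))`, so
`w.im * ‖g w‖ → 0`. -/
def S_dec : Prop :=
  ∀ (N : ℕ) (a : ℕ → ℤ), 1 ≤ N → IsForm N a → ∀ γ : SL(2, ℤ), ∀ ε : ℝ, 0 < ε →
    ∃ v : ℝ, ∀ w : ℂ, v ≤ w.im → 0 < w.im → (act γ w).im * ‖fser a (act γ w)‖ ≤ ε

/-- JOB MAX (may assume `S_dec`). The maximum of `P(z) = z.im * ‖fser a z‖` is attained. Proof: `P` is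
bounded (`IsForm.bounded`) and not identically zero: if `fser a z = 0` for all `z` in the upper half
plane then `Fser a` is constant there, and the coefficient of `e(τ)` is `a 1 = 1` (for instance:
`fser a (i y) * exp (2 π y) → a 1` for `y → ∞`, or integrate `fser a (x + i y) * e(-(x + i y))` over
`x ∈ [0, 1]`). Let `S > 0` be the supremum of `P`. `P(act h z) = P(z)` for `InG N h` (`IsForm.modular` and
`im_mob`). `Γ₀(N)` has finite index (`CongruenceSubgroup.instFiniteIndexGamma0`), so there are finitely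
many `γ_i` with `SL(2, ℤ) = ⋃ Γ₀(N) γ_i`. By `S_dec` there is `v` with `P(act γ_i w) ≤ S / 2` for all `i`
and `w.im ≥ v`. If `P(z) > S / 2`, take `g` with `g • z ∈ 𝒟` (`ModularGroup.exists_smul_mem_fd`), `w = g • z`,
`g⁻¹ = h γ_i`: then `P(z) = P(act γ_i w)`, `|w.re| ≤ 1/2`, `3 ≤ 4 w.im^2`, `w.im < v`. So the supremum of `P` is
the maximum over `i` of the maxima of the continuous functions `w ↦ P(act γ_i w)` over a compact box. -/
def S_max : Prop :=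
  ∀ (N : ℕ) (a : ℕ → ℤ), 1 ≤ N → IsForm N a → a 1 = 1 →
    ∃ z₀ : ℂ, 0 < z₀.im ∧ 0 < ‖fser a z₀‖ ∧
      ∀ z : ℂ, 0 < z.im → z.im * ‖fser a z‖ ≤ z₀.im * ‖fser a z₀‖

/-- JOB HKF. The Hecke relation for the primitive. Proof: compare coefficients of `e(mτ)`:
`∑_u Fser a ((τ + u)/q) = ∑_n (a n / n) e(nτ/q) ∑_u e(nu/q) = ∑_m q (a(qm)/(qm)) e(mτ)`, and
`Fser a (qτ) = ∑_{q ∣ m} (a(m/q)/(m/q)) e(mτ) = ∑_{q ∣ m} (q a(m/q)/m) e(mτ)`.
Note `a 0 = 0` by assumption. -/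
def S_hkF : Prop :=
  ∀ (a : ℕ → ℤ) (q : ℕ), q.Prime → a 0 = 0 → Summ a → HeckeAt a q → ∀ τ : ℂ, 0 < τ.im →
    ∑ u ∈ Finset.range q, Fser a ((τ + (u : ℂ)) / (q : ℂ)) + Fser a ((q : ℂ) * τ) =
      (a q : ℂ) * Fser a τ

/-- JOB HKf. The Hecke relation for the form. Same proof as `S_hkF`, or by differentiating `S_hkF`
(which may be assumed). -/
def S_hkf : Prop :=
  ∀ (a : ℕ → ℤ) (q : ℕ), q.Prime → a 0 = 0 → Summ a → HeckeAt a q → ∀ τ : ℂ, 0 < τ.im →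
    (1 / (q : ℂ)) * ∑ u ∈ Finset.range q, fser a ((τ + (u : ℂ)) / (q : ℂ)) +
      (q : ℂ) * fser a ((q : ℂ) * τ) = (a q : ℂ) * fser a τ

/-- JOB RAM (may assume `S_dec`, `S_max`, `S_hkf`). The bound `|a(q)| ≤ q`. Proof: let `z₀` be as in
`S_max`, `P(z) = z.im * ‖fser a z‖` and `S = P(z₀) > 0`, and suppose `|a q| ≥ q + 1`. If `P(z) = S`, then
`S_hkf` at `z` multiplied by `z.im` gives `(q + 1) S ≤ |a q| P(z) ≤ ∑_u P((z + u)/q) + P(q z) ≤
q S + P(q z)` (note `z.im / q = ((z + u)/q).im` and `q z.im = (q z).im`), so `P(q z) = S`. By induction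
`P(q^k z₀) = S` for all `k`, but `(q^k z₀).im → ∞`, a contradiction to `S_dec` with `γ = 1`, `ε = S / 2`. -/
def S_ram : Prop :=
  ∀ (N : ℕ) (a : ℕ → ℤ) (q : ℕ), 1 ≤ N → IsForm N a → a 1 = 1 → q.Prime → HeckeAt a q →
    |a q| ≤ (q : ℤ)

/-- JOB ORT. Orthogonality: `∑_u Fser a (τ + u/q) = ∑_n (a n / n) e(nτ) ∑_u e(nu/q)`, and the inner sum is
`q` if `q ∣ n` and `0` otherwise. (See the proof of `twist_Fser` in `Pool.Agent.Q127.SM.Twist`.) -/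
def S_ort : Prop :=
  ∀ (a : ℕ → ℤ) (q : ℕ), q.Prime → Summ a → ∀ τ : ℂ, 0 < τ.im →
    ∑ u ∈ Finset.range q, Fser a (τ + (u : ℂ) / (q : ℂ)) =
      (q : ℂ) * (Fser a τ - Fser (cop a q) τ)

/-- JOB COP (may assume `S_hkF`, `S_ort`). Proof: apply `S_hkF` at `q τ`:
`∑_u Fser a (τ + u/q) = a_q Fser a (qτ) - Fser a (q² τ)`, and compare with `S_ort`. -/
def S_cop : Prop :=
  ∀ (a : ℕ → ℤ) (q : ℕ), q.Prime → a 0 = 0 → Summ a → HeckeAt a q → ∀ τ : ℂ, 0 < τ.im →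
    Fser (cop a q) τ = Fser a τ - ((a q : ℂ) / (q : ℂ)) * Fser a ((q : ℂ) * τ) +
      (1 / (q : ℂ)) * Fser a ((q : ℂ) ^ 2 * τ)

/-- JOB TWF. A twist of a form whose level is divisible by `D²` is a form of the same level. Proof:
`zero`: clear. `summable`: `|b n| ≤ |a n|` (`chi_val`). Let `g = gs χ ≠ 0` (`gs_ne_zero`). `twist_Fser` says
`∑_u χ(u) F_a(τ + u/D) = g F_b(τ)`; differentiate it to get `∑_u χ(u) f_a(τ + u/D) = g f_b(τ)`
(`hasDerivAt_Fser`), so `bounded` with `D B / ‖g‖` (`‖χ u‖ ≤ 1`). `modular`: for `γ` in `Γ₀(M)` the proof of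
`twist_Hs` in `Pool.Agent.Q127.SM.Shift`, with `τ` in place of `i`, shows that
`g (F_b(act γ τ) - F_b(τ)) = ∑_u χ(u) Hs a (δ u)` does not depend on `τ` (the `δ u` do not depend on `τ`);
the derivative in `τ` is zero, and it is `2 π i (f_b(γ τ)/(r τ + s)² - f_b(τ))`. -/
def S_twf : Prop :=
  ∀ (M D : ℕ) (a b : ℕ → ℤ) (χ : DirichletCharacter ℂ D), 1 ≤ M → IsForm M a → D ^ 2 ∣ M →
    OddQuadratic D χ → (∀ n : ℕ, (b n : ℂ) = χ (n : ZMod D) * (a n : ℂ)) → IsForm M b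

/-- JOB CHR. For each prime `q ≡ 3 mod 4` there is an odd primitive quadratic character modulo `q`:
`quadraticChar (ZMod q)` with values in `ℂ` (`MulChar.ringHomComp`). Primitive: the conductor divides `q`, and
it is not `1` because the character is not trivial. -/
def S_chr : Prop :=
  ∀ q : ℕ, q.Prime → q % 4 = 3 → ∃ χ : DirichletCharacter ℂ q, OddQuadratic q χ

/-- JOB PRM. `4 N - 1` has a prime factor which is `3 mod 4` (not all its prime factors are `1 mod 4`), and it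
does not divide `N`. -/
def S_prm : Prop :=
  ∀ N : ℕ, 1 ≤ N → ∃ q : ℕ, q.Prime ∧ q % 4 = 3 ∧ ¬ q ∣ N ∧ q ≤ 4 * N

/-- JOB TRF. Transfer. Proof: for `i < n` the matrix `h i * γ` lies in `Γ₀(M)`, so there is `σ i < n` with
`δ i = h i * γ * (h (σ i))⁻¹ ∈ Γ₀(M')`. `σ` is injective on `range n`: if `σ i = σ j` then
`h i * (h j)⁻¹ = δ i * (δ j)⁻¹ ∈ Γ₀(M')`, so `i = j`. So `σ` permutes `range n`, and
`Φ(act (h i) (act γ τ)) = Φ(act (δ i) (act (h (σ i)) τ)) = Φ(act (h (σ i)) τ) + K (δ i)` (`act_mul`). -/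
def S_trf : Prop :=
  ∀ (M M' n : ℕ) (h : ℕ → SL(2, ℤ)), M ∣ M' → (∀ i, i < n → InG M (h i)) →
    (∀ g : SL(2, ℤ), InG M g → ∃ i, i < n ∧ InG M' (g * (h i)⁻¹)) →
    (∀ i, i < n → ∀ j, j < n → InG M' (h i * (h j)⁻¹) → i = j) →
    ∀ (Φ : ℂ → ℂ) (K : SL(2, ℤ) → ℂ),
      (∀ δ : SL(2, ℤ), InG M' δ → ∀ τ : ℂ, 0 < τ.im → Φ (act δ τ) - Φ τ = K δ) →
      ∀ γ : SL(2, ℤ), InG M γ → ∃ σ : ℕ → ℕ,
        (∀ i, i < n → σ i < n ∧ InG M' (h i * γ * (h (σ i))⁻¹)) ∧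
        ∀ τ : ℂ, 0 < τ.im →
          ∑ i ∈ Finset.range n, Φ (act (h i) (act γ τ)) - ∑ i ∈ Finset.range n, Φ (act (h i) τ) =
            ∑ i ∈ Finset.range n, K (h i * γ * (h (σ i))⁻¹)

/-- JOB CO1. Representatives of `Γ₀(Nq²) \ Γ₀(Nq)` are `low (N q v)`, `v < q`. Proof: the lower left entry of
`g * (low (N q v))⁻¹` is `g10 - N q v g11`; here `g10 = N q c` and `g11` is prime to `q` (the determinant is
one), so there is `v < q` with `c ≡ v g11 mod q`. Uniqueness: the lower left entry of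
`low (N q v) * (low (N q w))⁻¹` is `N q (v - w)`. -/
def S_co1 : Prop :=
  ∀ N q : ℕ, 1 ≤ N → q.Prime →
    (∀ v, v < q → InG (N * q) (low ((N : ℤ) * q * v))) ∧
    (∀ g : SL(2, ℤ), InG (N * q) g → ∃ v, v < q ∧ InG (N * q ^ 2) (g * (low ((N : ℤ) * q * v))⁻¹)) ∧
    (∀ v, v < q → ∀ w, w < q →
      InG (N * q ^ 2) (low ((N : ℤ) * q * v) * (low ((N : ℤ) * q * w))⁻¹) → v = w)

/-- JOB CO2. Representatives of `Γ₀(Nq) \ Γ₀(N)`. Proof: let `g10 = N c`. If `q ∤ g11`, the lower left entry of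
`g * (low (N v))⁻¹` is `N (c - v g11)`: choose `v < q`. If `q ∣ g11`, then `g * (low N * trans j)⁻¹ =
g * trans (-j) * low (-N)` has lower left entry `N (c - (g11 - j N c)) = N (c (1 + j N) - g11)`, divisible by
`N q`. Uniqueness: `low (N v) * (low (N w))⁻¹` has lower left entry `N (v - w)`;
`low (N v) * (low N * trans j)⁻¹` has lower left entry `N (v (1 + j N) - 1)`, which is `-N` modulo `N q`, and the
other order is the inverse (`InG.inv`). -/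
def S_co2 : Prop :=
  ∀ N q j : ℕ, 1 ≤ N → q.Prime → ¬ q ∣ N → q ∣ 1 + N * j →
    (∀ v, v < q + 1 → InG N (rep₂ N q j v)) ∧
    (∀ g : SL(2, ℤ), InG N g → ∃ v, v < q + 1 ∧ InG (N * q) (g * (rep₂ N q j v)⁻¹)) ∧
    (∀ v, v < q + 1 → ∀ w, w < q + 1 → InG (N * q) (rep₂ N q j v * (rep₂ N q j w)⁻¹) → v = w)

/-- JOB ST1 (may assume `S_cop`, `S_hkF`). Proof: put `f(τ) = Fser a τ`, `α = a q`. By `S_cop` the summand is
`f(U τ) - (α/q) f(q U τ) + (1/q) f(q² U τ)` with `U = low (N q v)`. (1) `f(U τ) = f(τ)`: `diff_eq` and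
`Hs_parabolic`. (2) `q * act U τ = act (low (N v)) (q τ)`, so `f(q U τ) = f(q τ)`. (3) For `v = 0`:
`f(q² U τ) = f(q² τ)`. For `0 < v < q` let `0 < u < q` with `q ∣ 1 - u N v`; then
`q² * act U τ = act γ (τ + u/q)` with `γ = (q, -u; N v, (1 - u N v)/q) ∈ Γ₀(N)`, so
`f(q² U τ) = f(τ + u/q) + Hs a γ`. As `v` runs over `0 < v < q`, so does `u`. By `S_hkF` at `q τ`:
`∑_{u < q} f(τ + u/q) = α f(q τ) - f(q² τ)`. The sum is `q f(τ) - α f(qτ) +
(1/q) (f(q² τ) + (α f(q τ) - f(q² τ) - f(τ))) + C`. -/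
def S_st1 : Prop :=
  ∀ (N : ℕ) (a : ℕ → ℤ) (q : ℕ), 1 ≤ N → IsForm N a → q.Prime → ¬ q ∣ N → HeckeAt a q →
    ∃ C : ℂ, ∀ τ : ℂ, 0 < τ.im →
      ∑ v ∈ Finset.range q, Fser (cop a q) (act (low ((N : ℤ) * q * v)) τ) =
        (1 - 1 / (q : ℂ)) * (((q : ℂ) + 1) * Fser a τ - (a q : ℂ) * Fser a ((q : ℂ) * τ)) + C

/-- JOB ST2 (may assume `S_hkF`). Proof: put `f(τ) = Fser a τ`, `α = a q`, `h = rep₂ N q j v`. `f(h τ) = f(τ)`:
`diff_eq`, `Hs_mul`, `Hs_parabolic` (`low` and `trans` are parabolic). For `v = 0`: `f(q h τ) = f(q τ)`. For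
`0 < v < q` let `0 < u < q` with `q ∣ 1 - u N v`; then `q * act (low (N v)) τ = act γ ((τ + u)/q)` with
`γ = (q, -u; N v, (1 - u N v)/q) ∈ Γ₀(N)`, so `f(q h τ) = f((τ + u)/q) + Hs a γ`, and `u` runs over
`0 < u < q`. For `v = q`: `q * act (low N * trans j) τ = act γ (τ / q)` with
`γ = (q, j; N, (1 + N j)/q) ∈ Γ₀(N)`. So `∑_h f(q h τ) = f(qτ) + ∑_{0 ≤ u < q} f((τ + u)/q) + C =
α f(τ) + C` by `S_hkF`, and the sum in question is `(q + 1)² f(τ) - α² f(τ) + C'`. -/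
def S_st2 : Prop :=
  ∀ (N : ℕ) (a : ℕ → ℤ) (q j : ℕ), 1 ≤ N → IsForm N a → q.Prime → ¬ q ∣ N → q ∣ 1 + N * j →
    HeckeAt a q → ∃ C : ℂ, ∀ τ : ℂ, 0 < τ.im →
      ∑ v ∈ Finset.range (q + 1), (((q : ℂ) + 1) * Fser a (act (rep₂ N q j v) τ) -
        (a q : ℂ) * Fser a ((q : ℂ) * act (rep₂ N q j v) τ)) =
        (((q : ℂ) + 1) ^ 2 - (a q : ℂ) ^ 2) * Fser a τ + C

end Pool.Agent.Q127.SM
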