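import Pool.Agent.Q127.SM.Family
import Pool.Agent.Q127.SM.Stm

/-!
# Comparison of two lattices by combinations of values
-/

open Complex Matrix.SpecialLinearGroup MatrixGroups ModularGroup

namespace Pool.Agent.Q127.SM

open Pool.Agent.TH133.SH

variable {a a' : ℕ → ℤ} {M N D : ℕ} {Ω₁ Ω₂ Ω₁' Ω₂' : ℂ}

/-- `i t H_a(γ)` is a combination of values `H_{a'}(δ)` with coefficients `0`, `1`, `-1`. -/
def Comb (ι : Type) [Fintype ι] (N M : ℕ) (a a' : ℕ → ℤ) (t : ℝ) (c : ℤ) : Prop :=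
  ∀ γ : SL(2, ℤ), InG N γ → ∀ X : ℤ, Bounded X γ → ∃ (e : ι → ℤ) (δ : ι → SL(2, ℤ)),
    (∀ k, |e k| ≤ 1 ∧ InG M (δ k) ∧ |(δ k) 1 0| ≤ c * X) ∧
    ((t : ℂ) * Complex.I) * Hs a γ = ∑ k, (e k : ℂ) * Hs a' (δ k)

lemma exists_bounded (γ : SL(2, ℤ)) : ∃ X : ℤ, Bounded X γ := by
  refine ⟨|γ 0 0| + |γ 0 1| + |γ 1 0| + |γ 1 1|, ?_⟩
  have h1 := abs_nonneg (γ 0 0)
  have h2 := abs_nonneg (γ 0 1)
  have h3 := abs_nonneg (γ 1 0)
  have h4 := abs_nonneg (γ 1 1)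
  intro i j
  fin_cases i <;> fin_cases j
  · change |γ 0 0| ≤ _
    linarith
  · change |γ 0 1| ≤ _
    linarith
  · change |γ 1 0| ≤ _
    linarith
  · change |γ 1 1| ≤ _
    linarith

variable {ι : Type} [Fintype ι] {t t' : ℝ} {c c' : ℤ}

lemma comb_mem (ha : IsForm N a) (ha' : IsForm M a') (hc : Comb ι N M a a' t c) {z : ℂ}
    (hz : z ∈ Lam ha) : ((t : ℂ) * Complex.I) * z ∈ Lam ha' := by
  obtain ⟨γ, hγ, rfl⟩ := hz
  obtain ⟨X, hX⟩ := exists_bounded γ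
  obtain ⟨e, δ, h1, h2⟩ := hc γ hγ X hX
  rw [h2]
  refine (Lam ha').sum_mem (fun k _ => ?_)
  rw [← zsmul_eq_mul]
  exact (Lam ha').zsmul_mem ⟨δ k, (h1 k).2.1, rfl⟩ _

lemma tI_re (t : ℝ) : ((t : ℂ) * Complex.I).re = 0 := by simp

lemma tI_im (t : ℝ) : ((t : ℂ) * Complex.I).im = t := by simp

lemma tI_mul (t : ℝ) (z : ℂ) : (((t : ℂ) * Complex.I) * z).re = -(t * z.im) ∧
    (((t : ℂ) * Complex.I) * z).im = t * z.re := by
  rw [Complex.mul_re (((t : ℂ) * Complex.I)) z, Complex.mul_im (((t : ℂ) * Complex.I)) z, tI_re,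
    tI_im]
  constructor <;> ring

lemma mem₁ (ha : IsForm N a) (hb : IsBasis N a Ω₁ Ω₂) : Ω₁ ∈ Lam ha := by
  obtain ⟨p, q, r, s, h3, h4, h5⟩ := hb.mem₁
  exact ⟨mk p q r s h3, h4, h5.symm⟩

lemma mem₂ (ha : IsForm N a) (hb : IsBasis N a Ω₁ Ω₂) : Ω₂ ∈ Lam ha := by
  obtain ⟨p, q, r, s, h3, h4, h5⟩ := hb.mem₂
  exact ⟨mk p q r s h3, h4, h5.symm⟩

lemma comb_basis {ι' : Type} [Fintype ι'] (ha : IsForm N a) (ha' : IsForm M a')
    (hc : Comb ι N M a a' t c) (hc' : Comb ι' M N a' a t' c') (ht : t ≠ 0) (ht' : t' ≠ 0)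
    (hb : IsBasis N a Ω₁ Ω₂) : ∃ Ω₁' Ω₂' : ℂ, IsBasis M a' Ω₁' Ω₂' :=
  transport ha ha' hb (tI_re t') (by rw [tI_im]; exact ht') (tI_re t) (by rw [tI_im]; exact ht)
    (fun _ hz => comb_mem ha' ha hc' hz) (fun _ hz => comb_mem ha ha' hc hz)

lemma abs_term {e : ℤ} (he : |e| ≤ 1) (z : ℂ) :
    |((e : ℂ) * z).re| ≤ |z.re| ∧ |((e : ℂ) * z).im| ≤ |z.im| := by
  have h1 : (|(e : ℝ)|) ≤ 1 := by exact_mod_cast he
  have h2 : ((e : ℂ) * z).re = e * z.re := by simp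
  have h3 : ((e : ℂ) * z).im = e * z.im := by simp
  rw [h2, h3, abs_mul, abs_mul]
  constructor
  · nlinarith [abs_nonneg z.re]
  · nlinarith [abs_nonneg z.im]

/-- The second coordinate for `a'` bounds the real part for `a`. -/
lemma comb_re (ha : IsForm N a) (ha' : IsForm M a') (hc : Comb ι N M a a' t c) (ht : t ≠ 0)
    (hb : IsBasis N a Ω₁ Ω₂) (hb' : IsBasis M a' Ω₁' Ω₂') {Y : ℝ} {X : ℤ} (hY : 0 ≤ Y)
    (h : ∀ δ : SL(2, ℤ), InG M δ → |δ 1 0| ≤ c * X → |L₂ Ω₂' (Hs a' δ)| ≤ Y)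
    {γ : SL(2, ℤ)} (hγ : InG N γ) (hX : Bounded X γ) :
    |(Hs a γ).re| ≤ Fintype.card ι * Y * Ω₁.re := by
  obtain ⟨e, δ, h1, h2⟩ := hc γ hγ X hX
  have ht0 : 0 < |t| := abs_pos.2 ht
  have h3 : Ω₂'.im ≤ |t| * Ω₁.re := by
    have h4 := comb_mem ha ha' hc (mem₁ ha hb)
    have h5 := im_lower ha' hb' h4 (by
      rw [(tI_mul t _).2]
      exact mul_ne_zero ht hb.re₁.ne')
    rw [(tI_mul t _).2, abs_mul, abs_of_pos hb.re₁] at h5
    exact h5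
  have h4 : |t| * |(Hs a γ).re| ≤ Fintype.card ι * (Y * Ω₂'.im) := by
    rw [← abs_mul, ← (tI_mul t _).2, h2, Complex.im_sum]
    refine (Finset.abs_sum_le_sum_abs _ _).trans ?_
    have h5 : ∀ k ∈ (Finset.univ : Finset ι), |((e k : ℂ) * Hs a' (δ k)).im| ≤ Y * Ω₂'.im := by
      intro k _
      refine (abs_term (h1 k).1 _).2.trans ?_
      have h6 := h (δ k) (h1 k).2.1 (h1 k).2.2
      rw [L₂_eq, abs_div, abs_of_pos hb'.im₂, div_le_iff₀ hb'.im₂] at h6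
      exact h6
    refine (Finset.sum_le_card_nsmul _ _ _ h5).trans (le_of_eq ?_)
    rw [Finset.card_univ, nsmul_eq_mul]
  have h5 : |t| * |(Hs a γ).re| ≤ |t| * (Fintype.card ι * Y * Ω₁.re) := by
    refine h4.trans ?_
    calc (Fintype.card ι : ℝ) * (Y * Ω₂'.im) ≤ Fintype.card ι * (Y * (|t| * Ω₁.re)) := by gcongr
      _ = |t| * (Fintype.card ι * Y * Ω₁.re) := by ring
  exact le_of_mul_le_mul_left h5 ht0

/-- The real part for `a'` bounds the second coordinate for `a`. -/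
lemma comb_im (ha : IsForm N a) (ha' : IsForm M a') (hc : Comb ι N M a a' t c) (ht : t ≠ 0)
    (hb : IsBasis N a Ω₁ Ω₂) (hb' : IsBasis M a' Ω₁' Ω₂') {Y : ℝ} {X : ℤ} (hY : 0 ≤ Y)
    (h : ∀ δ : SL(2, ℤ), InG M δ → |δ 1 0| ≤ c * X → |(Hs a' δ).re| ≤ Y * Ω₁'.re)
    {γ : SL(2, ℤ)} (hγ : InG N γ) (hX : Bounded X γ) :
    |L₂ Ω₂ (Hs a γ)| ≤ 2 * Fintype.card ι * Y := by
  obtain ⟨e, δ, h1, h2⟩ := hc γ hγ X hX
  have ht0 : 0 < |t| := abs_pos.2 ht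
  have h3 : Ω₁'.re ≤ 2 * (|t| * Ω₂.im) := by
    have h4 := comb_mem ha ha' hc (mem₂ ha hb)
    have h5 := re_lower ha' hb' h4 (by
      rw [(tI_mul t _).1]
      exact neg_ne_zero.2 (mul_ne_zero ht hb.im₂.ne'))
    rw [(tI_mul t _).1, abs_neg, abs_mul, abs_of_pos hb.im₂] at h5
    exact h5
  have h4 : |t| * |(Hs a γ).im| ≤ Fintype.card ι * (Y * Ω₁'.re) := by
    rw [← abs_mul, ← abs_neg, ← (tI_mul t _).1, h2, Complex.re_sum]
    refine (Finset.abs_sum_le_sum_abs _ _).trans ?_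
    have h5 : ∀ k ∈ (Finset.univ : Finset ι), |((e k : ℂ) * Hs a' (δ k)).re| ≤ Y * Ω₁'.re := by
      intro k _
      exact (abs_term (h1 k).1 _).1.trans (h (δ k) (h1 k).2.1 (h1 k).2.2)
    refine (Finset.sum_le_card_nsmul _ _ _ h5).trans (le_of_eq ?_)
    rw [Finset.card_univ, nsmul_eq_mul]
  have h5 : |t| * |(Hs a γ).im| ≤ |t| * (2 * Fintype.card ι * Y * Ω₂.im) := by
    refine h4.trans ?_
    calc (Fintype.card ι : ℝ) * (Y * Ω₁'.re)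
        ≤ Fintype.card ι * (Y * (2 * (|t| * Ω₂.im))) := by gcongr
      _ = |t| * (2 * Fintype.card ι * Y * Ω₂.im) := by ring
  have h6 := le_of_mul_le_mul_left h5 ht0
  rw [L₂_eq, abs_div, abs_of_pos hb.im₂, div_le_iff₀ hb.im₂]
  exact h6

/-- From matrices with entries at most `M²` to all matrices. -/
lemma grow (hM : 1 ≤ M) (ha : IsForm M a) (L : ℂ →ₗ[ℝ] ℝ) {B : ℝ}
    (hB : ∀ γ : SL(2, ℤ), InG M γ → Bounded ((M : ℤ) ^ 2) γ → |L (Hs a γ)| ≤ B)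
    {K : ℝ} (hK : 1 ≤ K) {γ : SL(2, ℤ)} (hγ : InG M γ) (h : |((γ 1 0 : ℤ) : ℝ)| ≤ K) :
    |L (Hs a γ)| ≤ 2 * B * M * K := by
  have hB0 : 0 ≤ B := by
    refine (abs_nonneg _).trans (hB 1 inG_one ?_)
    have hN1 : (1 : ℤ) ≤ M := by exact_mod_cast hM
    intro i j
    fin_cases i <;> fin_cases j <;> simp <;> nlinarith
  by_cases h0 : γ 1 0 = 0
  · have h1 := (isCuspHom ha L).zero_of_lower h0
    rw [h1, abs_zero]
    positivity
  · refine (coord_bound hM ha L hB hγ h0).trans ?_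
    have h1 : (1 : ℝ) ≤ |((γ 1 0 : ℤ) : ℝ)| := by exact_mod_cast Int.one_le_abs h0
    have h2 : 1 + Real.log |((γ 1 0 : ℤ) : ℝ)| ≤ K := by
      have := Real.log_le_sub_one_of_pos (lt_of_lt_of_le one_pos h1)
      linarith
    gcongr

lemma bounded_mul {X Y : ℤ} (hX : 0 ≤ X) {g h : SL(2, ℤ)} (hg : Bounded X g)
    (hh : Bounded Y h) : Bounded (2 * X * Y) (g * h) := by
  have key : ∀ x y z w : ℤ, |x| ≤ X → |y| ≤ Y → |z| ≤ X → |w| ≤ Y → |x * y + z * w| ≤ 2 * X * Y := by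
    intro x y z w h1 h2 h3 h4
    refine (abs_add_le _ _).trans ?_
    rw [abs_mul, abs_mul]
    have h5 : |x| * |y| ≤ X * Y := mul_le_mul h1 h2 (abs_nonneg _) hX
    have h6 : |z| * |w| ≤ X * Y := mul_le_mul h3 h4 (abs_nonneg _) hX
    linarith
  intro i j
  fin_cases i <;> fin_cases j
  · change |(g * h) 0 0| ≤ _
    rw [mul00]
    exact key _ _ _ _ (hg 0 0) (hh 0 0) (hg 0 1) (hh 1 0)
  · change |(g * h) 0 1| ≤ _
    rw [mul01]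
    exact key _ _ _ _ (hg 0 0) (hh 0 1) (hg 0 1) (hh 1 1)
  · change |(g * h) 1 0| ≤ _
    rw [mul10]
    exact key _ _ _ _ (hg 1 0) (hh 0 0) (hg 1 1) (hh 1 0)
  · change |(g * h) 1 1| ≤ _
    rw [mul11]
    exact key _ _ _ _ (hg 1 0) (hh 0 1) (hg 1 1) (hh 1 1)

lemma bounded_inv {X : ℤ} {g : SL(2, ℤ)} (hg : Bounded X g) : Bounded X g⁻¹ := by
  intro i j
  fin_cases i <;> fin_cases j
  · change |g⁻¹ 0 0| ≤ _
    rw [inv00]
    exact hg 1 1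
  · change |g⁻¹ 0 1| ≤ _
    rw [inv01, abs_neg]
    exact hg 0 1
  · change |g⁻¹ 1 0| ≤ _
    rw [inv10, abs_neg]
    exact hg 1 0
  · change |g⁻¹ 1 1| ≤ _
    rw [inv11]
    exact hg 0 0

lemma bounded_flip {X : ℤ} {g : SL(2, ℤ)} (hg : Bounded X g) : Bounded X (flip g) := by
  intro i j
  fin_cases i <;> fin_cases j
  · change |g 0 0| ≤ _
    exact hg 0 0
  · change |-(g 0 1)| ≤ _
    rw [abs_neg]
    exact hg 0 1
  · change |-(g 1 0)| ≤ _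
    rw [abs_neg]
    exact hg 1 0
  · change |g 1 1| ≤ _
    exact hg 1 1

end Pool.Agent.Q127.SM
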