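import Pool.Agent.Q127.SM.Real

/-!
# Q1 for the quadratic twists of a fixed newform
-/

open Complex Matrix.SpecialLinearGroup MatrixGroups ModularGroup

namespace Pool.Agent.Q127.SR

open Pool.Agent.TH133.SH
open Pool.Agent.Q127.SM (Phi Phi_int gs exists_shift im_lower re_lower L₁_eq L₂_eq first_bound
  isForm_raise abs_term mem₁ mem₂ Lre Lre_iff re_le_coords bounded_mk)

variable {a a' : ℕ → ℤ} {N D : ℕ} {Ω₁ Ω₂ Ω₁' Ω₂' : ℂ}

/-- `a'` is the twist of `a` by the primitive character `χ` modulo `D`, where `χ ^ 2 = 1`. -/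
structure IsTwist (a : ℕ → ℤ) (D : ℕ) (χ : DirichletCharacter ℂ D) (a' : ℕ → ℤ) : Prop where
  pos : 1 ≤ D
  real : RealChar D χ
  twist : ∀ n : ℕ, (a' n : ℂ) = χ (n : ZMod D) * (a n : ℂ)

lemma parity [NeZero D] {χ : DirichletCharacter ℂ D} (h : RealChar D χ) :
    (gs χ).re = 0 ∨ (gs χ).im = 0 := by
  have h1 := star_gaussSum_eq χ (ZMod.stdAddChar (N := D))
  have h2 := gs_shift h (-1)
  have h3 : χ (-1) * χ (-1) = 1 := by
    rw [← map_mul]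
    simp
  have h4 : (starRingEnd ℂ) (gs χ) = χ (-1) * gs χ := by
    change (starRingEnd ℂ) (gs χ) = _ at h1
    rw [h1, h.inv, ← h2]
    unfold gaussSum
    refine Finset.sum_congr rfl (fun u _ => ?_)
    rw [AddChar.inv_apply]
    congr 2
    ring
  rcases mul_self_eq_one_iff.1 h3 with h5 | h5
  · right
    rw [h5, one_mul] at h4
    have := congrArg Complex.im h4
    simp at this
    linarith
  · left
    rw [h5] at h4
    have := congrArg Complex.re h4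
    simp at this
    linarith

/-- The coordinates for a twist are bounded by the coordinates for the form. -/
lemma twist_bound [NeZero D] (ha : IsForm N a) (hb : IsBasis N a Ω₁ Ω₂)
    {χ : DirichletCharacter ℂ D} (h : RealChar D χ)
    (htw : ∀ n : ℕ, (a' n : ℂ) = χ (n : ZMod D) * (a n : ℂ))
    (hb' : IsBasis (N * D ^ 2) a' Ω₁' Ω₂') {Y : ℝ} (hY : 0 ≤ Y) {γ : SL(2, ℤ)}
    (hγ : InG (N * D ^ 2) γ)
    (h1 : ∀ δ : SL(2, ℤ), InG N δ → δ 1 0 = γ 1 0 → |L₁ Ω₁ Ω₂ (Hs a δ)| ≤ Y ∧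
      |L₂ Ω₂ (Hs a δ)| ≤ Y) :
    |L₁ Ω₁' Ω₂' (Hs a' γ)| ≤ 5 * D * Y ∧ |L₂ Ω₂' (Hs a' γ)| ≤ 5 * D * Y := by
  have haM : IsForm (N * D ^ 2) a := isForm_raise ha (dvd_mul_right N (D ^ 2))
  have hInG : ∀ δ : SL(2, ℤ), InG (N * D ^ 2) δ → InG N δ := by
    intro δ hδ
    unfold InG at hδ ⊢
    refine dvd_trans ?_ hδ
    exact_mod_cast dvd_mul_right N (D ^ 2)
  -- multiples of the values for the twist lie in the lattice
  have hmem : ∀ δ : SL(2, ℤ), InG (N * D ^ 2) δ → gs χ * Hs a' δ ∈ Lam ha := by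
    intro δ hδ
    obtain ⟨η, hη, hsum⟩ := twist_Hs haM (dvd_mul_left (D ^ 2) N) h htw hδ
    rw [hsum]
    refine (Lam ha).sum_mem (fun u _ => ?_)
    obtain ⟨e, he, -⟩ := chi_val h u
    rw [he, ← zsmul_eq_mul]
    exact (Lam ha).zsmul_mem ⟨η u, hInG _ (hη u).1, rfl⟩ e
  have hΩ₁' : gs χ * Ω₁' ∈ Lam ha := by
    obtain ⟨p, q, r, s, h3, h4, h5⟩ := hb'.mem₁
    rw [h5]
    exact hmem (mk p q r s h3) h4
  have hΩ₂' : gs χ * Ω₂' ∈ Lam ha := by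
    obtain ⟨p, q, r, s, h3, h4, h5⟩ := hb'.mem₂
    rw [h5]
    exact hmem (mk p q r s h3) h4
  have hg : gs χ ≠ 0 := gs_ne_zero h
  obtain ⟨δ, hδ, hsum⟩ := twist_Hs haM (dvd_mul_left (D ^ 2) N) h htw hγ
  have hD0 : (0 : ℝ) ≤ D := Nat.cast_nonneg D
  -- the sums
  have hre : |(gs χ * Hs a' γ).re| ≤ D * (2 * Y * Ω₁.re) := by
    rw [hsum, Complex.re_sum]
    refine (Finset.abs_sum_le_sum_abs _ _).trans ?_
    have h3 : ∀ u ∈ (Finset.univ : Finset (ZMod D)),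
        |(χ u * Hs a (δ u)).re| ≤ 2 * Y * Ω₁.re := by
      intro u _
      obtain ⟨e, he, he'⟩ := chi_val h u
      rw [he]
      refine (abs_term he' _).1.trans ?_
      have h4 := h1 (δ u) (hInG _ (hδ u).1) (hδ u).2
      have h5 := (Lre_iff hb _ _).1 (re_le_coords hb h4.1 h4.2)
      refine h5.trans (le_of_eq ?_)
      ring
    refine (Finset.sum_le_card_nsmul _ _ _ h3).trans (le_of_eq ?_)
    rw [Finset.card_univ, ZMod.card, nsmul_eq_mul]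
  have him : |(gs χ * Hs a' γ).im| ≤ D * (Y * Ω₂.im) := by
    rw [hsum, Complex.im_sum]
    refine (Finset.abs_sum_le_sum_abs _ _).trans ?_
    have h3 : ∀ u ∈ (Finset.univ : Finset (ZMod D)),
        |(χ u * Hs a (δ u)).im| ≤ Y * Ω₂.im := by
      intro u _
      obtain ⟨e, he, he'⟩ := chi_val h u
      rw [he]
      refine (abs_term he' _).2.trans ?_
      have h4 := (h1 (δ u) (hInG _ (hδ u).1) (hδ u).2).2
      rw [L₂_eq, abs_div, abs_of_pos hb.im₂, div_le_iff₀ hb.im₂] at h4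
      exact h4
    refine (Finset.sum_le_card_nsmul _ _ _ h3).trans (le_of_eq ?_)
    rw [Finset.card_univ, ZMod.card, nsmul_eq_mul]
  have hDY : 0 ≤ (D : ℝ) * Y := by positivity
  have hre₁ := hb.re₁
  have him₂ := hb.im₂
  have hre₁' := hb'.re₁
  have him₂' := hb'.im₂
  rcases parity h with hp | hp
  · -- the odd case
    have hgim : (gs χ).im ≠ 0 := fun h0 => hg (Complex.ext hp h0)
    have hg0 : 0 < |(gs χ).im| := abs_pos.2 hgim
    have m1 : ∀ z : ℂ, (gs χ * z).re = -((gs χ).im * z.im) := by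
      intro z; rw [Complex.mul_re, hp]; ring
    have m2 : ∀ z : ℂ, (gs χ * z).im = (gs χ).im * z.re := by
      intro z; rw [Complex.mul_im, hp]; ring
    have l1 : Ω₁.re ≤ 2 * (|(gs χ).im| * Ω₂'.im) := by
      have h5 := re_lower ha hb hΩ₂' (by
        rw [m1]
        exact neg_ne_zero.2 (mul_ne_zero hgim him₂'.ne'))
      rw [m1, abs_neg, abs_mul, abs_of_pos him₂'] at h5
      exact h5
    have l2 : Ω₂.im ≤ |(gs χ).im| * Ω₁'.re := by
      have h5 := im_lower ha hb hΩ₁' (by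
        rw [m2]
        exact mul_ne_zero hgim hre₁'.ne')
      rw [m2, abs_mul, abs_of_pos hre₁'] at h5
      exact h5
    rw [m1, abs_neg, abs_mul] at hre
    rw [m2, abs_mul] at him
    have k1 : |(Hs a' γ).im| ≤ 4 * (D * Y) * Ω₂'.im := by
      refine le_of_mul_le_mul_left ?_ hg0
      calc |(gs χ).im| * |(Hs a' γ).im| ≤ D * (2 * Y * Ω₁.re) := hre
        _ ≤ D * (2 * Y * (2 * (|(gs χ).im| * Ω₂'.im))) := by gcongr
        _ = |(gs χ).im| * (4 * (D * Y) * Ω₂'.im) := by ring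
    have k2 : |(Hs a' γ).re| ≤ (D * Y) * Ω₁'.re := by
      refine le_of_mul_le_mul_left ?_ hg0
      calc |(gs χ).im| * |(Hs a' γ).re| ≤ D * (Y * Ω₂.im) := him
        _ ≤ D * (Y * (|(gs χ).im| * Ω₁'.re)) := by gcongr
        _ = |(gs χ).im| * ((D * Y) * Ω₁'.re) := by ring
    have k3 : |L₂ Ω₂' (Hs a' γ)| ≤ 4 * (D * Y) := by
      rw [L₂_eq, abs_div, abs_of_pos him₂', div_le_iff₀ him₂']
      exact k1
    have k4 := first_bound hb' k2 k3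
    constructor
    · linarith
    · linarith
  · -- the even case
    have hgre : (gs χ).re ≠ 0 := fun h0 => hg (Complex.ext h0 hp)
    have hg0 : 0 < |(gs χ).re| := abs_pos.2 hgre
    have m1 : ∀ z : ℂ, (gs χ * z).re = (gs χ).re * z.re := by
      intro z; rw [Complex.mul_re, hp]; ring
    have m2 : ∀ z : ℂ, (gs χ * z).im = (gs χ).re * z.im := by
      intro z; rw [Complex.mul_im, hp]; ring
    have l1 : Ω₂.im ≤ |(gs χ).re| * Ω₂'.im := by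
      have h5 := im_lower ha hb hΩ₂' (by
        rw [m2]
        exact mul_ne_zero hgre him₂'.ne')
      rw [m2, abs_mul, abs_of_pos him₂'] at h5
      exact h5
    have l2 : Ω₁.re ≤ 2 * (|(gs χ).re| * Ω₁'.re) := by
      have h5 := re_lower ha hb hΩ₁' (by
        rw [m1]
        exact mul_ne_zero hgre hre₁'.ne')
      rw [m1, abs_mul, abs_of_pos hre₁'] at h5
      exact h5
    rw [m1, abs_mul] at hre
    rw [m2, abs_mul] at him
    have k1 : |(Hs a' γ).im| ≤ (D * Y) * Ω₂'.im := by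
      refine le_of_mul_le_mul_left ?_ hg0
      calc |(gs χ).re| * |(Hs a' γ).im| ≤ D * (Y * Ω₂.im) := him
        _ ≤ D * (Y * (|(gs χ).re| * Ω₂'.im)) := by gcongr
        _ = |(gs χ).re| * ((D * Y) * Ω₂'.im) := by ring
    have k2 : |(Hs a' γ).re| ≤ (4 * (D * Y)) * Ω₁'.re := by
      refine le_of_mul_le_mul_left ?_ hg0
      calc |(gs χ).re| * |(Hs a' γ).re| ≤ D * (2 * Y * Ω₁.re) := hre
        _ ≤ D * (2 * Y * (2 * (|(gs χ).re| * Ω₁'.re))) := by gcongr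
        _ = |(gs χ).re| * ((4 * (D * Y)) * Ω₁'.re) := by ring
    have k3 : |L₂ Ω₂' (Hs a' γ)| ≤ D * Y := by
      rw [L₂_eq, abs_div, abs_of_pos him₂', div_le_iff₀ him₂']
      exact k1
    have k4 := first_bound hb' k2 k3
    constructor
    · linarith
    · linarith

/-- **Uniform bound for the twists.** -/
theorem uniform (hN : 1 ≤ N) (ha : IsNewform N a) (hb : IsBasis N a Ω₁ Ω₂) {B : ℝ}
    (hB : ∀ p q r s : ℤ, p * s - q * r = 1 → (N : ℤ) ∣ r → |p| ≤ (N : ℤ) ^ 2 →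
      |q| ≤ (N : ℤ) ^ 2 → |r| ≤ (N : ℤ) ^ 2 → |s| ≤ (N : ℤ) ^ 2 → CoordBound a Ω₁ Ω₂ p q r s B)
    {χ : DirichletCharacter ℂ D} (h : IsTwist a D χ a')
    (hb' : IsBasis (N * D ^ 2) a' Ω₁' Ω₂') (p q r s : ℤ) (hd : p * s - q * r = 1)
    (hr : ((N * D ^ 2 : ℕ) : ℤ) ∣ r) (h0 : r ≠ 0) :
    CoordBound a' Ω₁' Ω₂' p q r s (10 * D * N * B * (1 + Real.log |(r : ℝ)|)) := by
  have : NeZero D := ⟨by have := h.pos; omega⟩
  have hD1 : 1 ≤ D := h.pos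
  have hM : 1 ≤ N * D ^ 2 := Nat.one_le_iff_ne_zero.2 (by positivity)
  have ha' : IsForm (N * D ^ 2) a' := twf (N * D ^ 2) D a a' χ hM
    (isForm_raise ha.toIsForm (dvd_mul_right N (D ^ 2))) (dvd_mul_left (D ^ 2) N) h.real h.twist
  have key : ∀ δ : SL(2, ℤ), InG N δ → Bounded ((N : ℤ) ^ 2) δ →
      |L₁ Ω₁ Ω₂ (Hs a δ)| ≤ B ∧ |L₂ Ω₂ (Hs a δ)| ≤ B := by
    intro δ hδ hδ'
    obtain ⟨m', n', hmn'⟩ := lattice ha.toIsForm hb (z := Hs a δ) ⟨δ, hδ, rfl⟩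
    rw [hmn', L₁_apply hb, L₂_apply hb]
    exact hB _ _ _ _ (det_eq δ) hδ (hδ' 0 0) (hδ' 0 1) (hδ' 1 0) (hδ' 1 1) m' n' hmn'
  have hB0 : 0 ≤ B := by
    refine (abs_nonneg _).trans (key 1 inG_one ?_).1
    have hN1 : (1 : ℤ) ≤ N := by exact_mod_cast hN
    intro i j
    fin_cases i <;> fin_cases j <;> simp <;> nlinarith
  have hr1 : (1 : ℝ) ≤ |(r : ℝ)| := by exact_mod_cast Int.one_le_abs h0
  have hlog : 0 ≤ Real.log |(r : ℝ)| := Real.log_nonneg hr1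
  intro m n hmn
  have h2 := twist_bound ha.toIsForm hb h.real h.twist hb'
    (Y := 2 * B * N * (1 + Real.log |(r : ℝ)|)) (by positivity) (γ := mk p q r s hd) hr (by
    intro δ hδ hδ'
    have hδr : δ 1 0 = r := hδ'
    have h3 : δ 1 0 ≠ 0 := by rw [hδr]; exact h0
    have h4 := coord_bound hN ha.toIsForm (L₁ Ω₁ Ω₂) (fun γ h1 h2 => (key γ h1 h2).1) hδ h3
    have h5 := coord_bound hN ha.toIsForm (L₂ Ω₂) (fun γ h1 h2 => (key γ h1 h2).2) hδ h3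
    rw [hδr] at h4 h5
    exact ⟨h4, h5⟩)
  have hH : Hs a' (mk p q r s hd) = (m : ℂ) * Ω₁' + (n : ℂ) * Ω₂' := hmn
  rw [hH, L₁_apply hb', L₂_apply hb'] at h2
  have e1 : 5 * D * (2 * B * N * (1 + Real.log |(r : ℝ)|)) =
      10 * D * N * B * (1 + Real.log |(r : ℝ)|) := by ring
  rw [e1] at h2
  exact h2

/-- For a fixed newform there is a bound on the small matrices. -/
lemma exists_B (hb : IsBasis N a Ω₁ Ω₂) : ∃ B : ℝ, 0 ≤ B ∧ ∀ p q r s : ℤ,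
    |p| ≤ (N : ℤ) ^ 2 → |q| ≤ (N : ℤ) ^ 2 → |r| ≤ (N : ℤ) ^ 2 → |s| ≤ (N : ℤ) ^ 2 →
      CoordBound a Ω₁ Ω₂ p q r s B := by
  classical
  set I := Finset.Icc (-((N : ℤ) ^ 2)) ((N : ℤ) ^ 2) with hI
  set S := (I ×ˢ I) ×ˢ (I ×ˢ I) with hS
  set F : (ℤ × ℤ) × (ℤ × ℤ) → ℝ := fun x =>
    |L₁ Ω₁ Ω₂ (Hval a x.1.1 x.1.2 x.2.1 x.2.2)| + |L₂ Ω₂ (Hval a x.1.1 x.1.2 x.2.1 x.2.2)| with hF
  have hnn : ∀ x ∈ S, 0 ≤ F x := fun x _ => add_nonneg (abs_nonneg _) (abs_nonneg _)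
  refine ⟨∑ x ∈ S, F x, Finset.sum_nonneg hnn, ?_⟩
  intro p q r s hp hq hr hs m n hmn
  have hx : ((p, q), (r, s)) ∈ S := by
    rw [hS, Finset.mem_product, Finset.mem_product, Finset.mem_product, hI]
    simp only [Finset.mem_Icc]
    exact ⟨⟨abs_le.1 hp, abs_le.1 hq⟩, ⟨abs_le.1 hr, abs_le.1 hs⟩⟩
  have h1 := Finset.single_le_sum hnn hx
  have h2 : F ((p, q), (r, s)) = |(m : ℝ)| + |(n : ℝ)| := by
    rw [hF]
    simp only
    rw [hmn, L₁_apply hb, L₂_apply hb]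
  rw [h2] at h1
  have h3 := abs_nonneg (m : ℝ)
  have h4 := abs_nonneg (n : ℝ)
  constructor <;> linarith

/-- **Logarithmic growth for all twists of a newform.** -/
theorem fixed (hN : 1 ≤ N) (ha : IsNewform N a) (hb : IsBasis N a Ω₁ Ω₂) :
    ∃ K : ℝ, 0 < K ∧ ∀ (D : ℕ) (χ : DirichletCharacter ℂ D) (a' : ℕ → ℤ), IsTwist a D χ a' →
      ∀ Ω₁' Ω₂' : ℂ, IsBasis (N * D ^ 2) a' Ω₁' Ω₂' → ∀ p q r s : ℤ, p * s - q * r = 1 →
        ((N * D ^ 2 : ℕ) : ℤ) ∣ r → r ≠ 0 →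
        CoordBound a' Ω₁' Ω₂' p q r s (K * D * (1 + Real.log |(r : ℝ)|)) := by
  obtain ⟨B, hB0, hB⟩ := exists_B (N := N) hb
  have hN0 : (0 : ℝ) < N := by exact_mod_cast hN
  refine ⟨10 * N * (B + 1), by positivity, ?_⟩
  intro D χ a' h w₁ w₂ hb' p q r s hd hr h0 m n hmn
  have h1 := uniform hN ha hb (fun p q r s _ _ h1 h2 h3 h4 => hB p q r s h1 h2 h3 h4) h hb'
    p q r s hd hr h0 m n hmn
  have hr1 : (1 : ℝ) ≤ |(r : ℝ)| := by exact_mod_cast Int.one_le_abs h0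
  have hlog : 0 ≤ Real.log |(r : ℝ)| := Real.log_nonneg hr1
  have h2 : 10 * D * N * B * (1 + Real.log |(r : ℝ)|) ≤
      10 * N * (B + 1) * D * (1 + Real.log |(r : ℝ)|) := by
    have e1 : (0 : ℝ) ≤ 10 * N * D * (1 + Real.log |(r : ℝ)|) := by positivity
    nlinarith
  exact ⟨h1.1.trans h2, h1.2.trans h2⟩

/-- **Q1 with every exponent above `1/2` for the twists of a newform.** -/
theorem family (hN : 1 ≤ N) (ha : IsNewform N a) (hb : IsBasis N a Ω₁ Ω₂) {κ : ℝ}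
    (hκ : 1 / 2 < κ) : ∃ C : ℝ, 0 < C ∧ ∀ (D : ℕ) (χ : DirichletCharacter ℂ D) (a' : ℕ → ℤ),
      IsTwist a D χ a' → ∀ Ω₁' Ω₂' : ℂ, IsBasis (N * D ^ 2) a' Ω₁' Ω₂' →
      ∀ p q r s : ℤ, p * s - q * r = 1 → ((N * D ^ 2 : ℕ) : ℤ) ∣ r →
        |p| ≤ ((N * D ^ 2 : ℕ) : ℤ) ^ 2 → |q| ≤ ((N * D ^ 2 : ℕ) : ℤ) ^ 2 →
        |r| ≤ ((N * D ^ 2 : ℕ) : ℤ) ^ 2 → |s| ≤ ((N * D ^ 2 : ℕ) : ℤ) ^ 2 →
        CoordBound a' Ω₁' Ω₂' p q r s (C * ((N * D ^ 2 : ℕ) : ℝ) ^ κ) := by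
  obtain ⟨K, hK, h⟩ := fixed hN ha hb
  set ε := κ - 1 / 2 with hε
  have hε0 : 0 < ε := by rw [hε]; linarith
  refine ⟨K * (1 + 2 / ε), by positivity, ?_⟩
  intro D χ a' ht w₁ w₂ hb' p q r s hd hr _ _ hr' _ m n hmn
  have hD1 : 1 ≤ D := ht.pos
  have hM : 1 ≤ N * D ^ 2 := Nat.one_le_iff_ne_zero.2 (by positivity)
  set M := N * D ^ 2 with hMdef
  have hM1 : (1 : ℝ) ≤ (M : ℝ) := by exact_mod_cast hM
  have hM0 : (0 : ℝ) < (M : ℝ) := by linarith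
  by_cases h0 : r = 0
  · have ha' : IsForm M a' := by
      have : NeZero D := ⟨by omega⟩
      exact twf M D a a' χ hM
        (isForm_raise ha.toIsForm (dvd_mul_right N (D ^ 2))) (dvd_mul_left (D ^ 2) N) ht.real
        ht.twist
    have h1 : Hs a' (mk p q r s hd) = 0 := by
      have h2 := (isCuspHom ha' Complex.reLm).zero_of_lower (g := mk p q r s hd) h0
      have h3 := (isCuspHom ha' Complex.imLm).zero_of_lower (g := mk p q r s hd) h0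
      exact Complex.ext h2 h3
    have hH : Hs a' (mk p q r s hd) = (m : ℂ) * w₁ + (n : ℂ) * w₂ := hmn
    rw [h1] at hH
    have h4 := L₁_apply hb' m n
    have h5 := L₂_apply hb' m n
    rw [← hH, map_zero] at h4 h5
    rw [← h4, ← h5, abs_zero]
    constructor <;> positivity
  · have h1 := h D χ a' ht w₁ w₂ hb' p q r s hd hr h0 m n hmn
    have hr1 : (1 : ℝ) ≤ |(r : ℝ)| := by exact_mod_cast Int.one_le_abs h0
    have h2 : |(r : ℝ)| ≤ (M : ℝ) ^ 2 := by exact_mod_cast hr'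
    have h3 := Real.log_le_log (by linarith) h2
    rw [Real.log_pow] at h3
    have h4 := Real.log_le_rpow_div hM0.le hε0
    have h5 : (1 : ℝ) ≤ (M : ℝ) ^ ε := Real.one_le_rpow hM1 hε0.le
    have h6 : 1 + Real.log |(r : ℝ)| ≤ (1 + 2 / ε) * (M : ℝ) ^ ε := by
      have e1 : (1 + 2 / ε) * (M : ℝ) ^ ε = (M : ℝ) ^ ε + 2 * ((M : ℝ) ^ ε / ε) := by ring
      rw [e1]
      push_cast at h3
      linarith
    have h7 : (D : ℝ) ≤ (M : ℝ) ^ (1 / 2 : ℝ) := by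
      rw [← Real.sqrt_eq_rpow]
      apply Real.le_sqrt_of_sq_le
      have : D ^ 2 ≤ M := Nat.le_mul_of_pos_left _ hN
      exact_mod_cast this
    have h8 : (M : ℝ) ^ κ = (M : ℝ) ^ (1 / 2 : ℝ) * (M : ℝ) ^ ε := by
      rw [← Real.rpow_add hM0]
      congr 1
      rw [hε]
      ring
    have hlog : 0 ≤ Real.log |(r : ℝ)| := Real.log_nonneg hr1
    have h9 : K * D * (1 + Real.log |(r : ℝ)|) ≤ K * (1 + 2 / ε) * (M : ℝ) ^ κ := by
      rw [h8]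
      calc K * D * (1 + Real.log |(r : ℝ)|)
          ≤ K * (M : ℝ) ^ (1 / 2 : ℝ) * ((1 + 2 / ε) * (M : ℝ) ^ ε) := by gcongr
        _ = K * (1 + 2 / ε) * ((M : ℝ) ^ (1 / 2 : ℝ) * (M : ℝ) ^ ε) := by ring
    exact ⟨h1.1.trans h9, h1.2.trans h9⟩

end Pool.Agent.Q127.SR
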