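import Pool.Agent.Q127.SM.Basis

/-!
# Newforms with an odd twist of the same level: one coordinate is enough
-/

open Complex Matrix.SpecialLinearGroup MatrixGroups ModularGroup

namespace Pool.Agent.Q127.SM

open Pool.Agent.TH133.SH

variable {a a' : ℕ → ℤ} {M N D : ℕ} {Ω₁ Ω₂ Ω₁' Ω₂' : ℂ}

/-- The first coordinate of `H(γ)` in the basis `Ω₁`, `Ω₂` has absolute value at most `X`. -/
def FirstBound (a : ℕ → ℤ) (Ω₁ Ω₂ : ℂ) (p q r s : ℤ) (X : ℝ) : Prop :=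
  ∀ m n : ℤ, Hval a p q r s = (m : ℂ) * Ω₁ + (n : ℂ) * Ω₂ → |(m : ℝ)| ≤ X

/-- The second coordinate of `H(γ)` in the basis `Ω₁`, `Ω₂` has absolute value at most `X`. -/
def SecondBound (a : ℕ → ℤ) (Ω₁ Ω₂ : ℂ) (p q r s : ℤ) (X : ℝ) : Prop :=
  ∀ m n : ℤ, Hval a p q r s = (m : ℂ) * Ω₁ + (n : ℂ) * Ω₂ → |(n : ℝ)| ≤ X

/-- `a` and `a'` are the coefficients of two newforms of level `N` which are twists of each other
by the character `χ` modulo `D`, where `D ^ 2` divides `N`. -/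
structure TwistPair (N : ℕ) (a a' : ℕ → ℤ) (D : ℕ) (χ : DirichletCharacter ℂ D) : Prop where
  left : IsNewform N a
  right : IsNewform N a'
  dvd : D ^ 2 ∣ N
  char : OddQuadratic D χ
  twist : ∀ n : ℕ, (a' n : ℂ) = χ (n : ZMod D) * (a n : ℂ)
  twist' : ∀ n : ℕ, (a n : ℂ) = χ (n : ZMod D) * (a' n : ℂ)

/-- The newforms which have a twist of the same level by an odd quadratic character. -/
def HasTwist (N : ℕ) (a : ℕ → ℤ) : Prop :=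
  ∃ (a' : ℕ → ℤ) (D : ℕ) (χ : DirichletCharacter ℂ D), TwistPair N a a' D χ

lemma TwistPair.symm {χ : DirichletCharacter ℂ D} (h : TwistPair N a a' D χ) :
    TwistPair N a' a D χ :=
  ⟨h.right, h.left, h.dvd, h.char, h.twist', h.twist⟩

/-- The question Q1 for a family `𝓕` of coefficient sequences, with the bound `P` in place of the
bound for both coordinates. -/
def Question (𝓕 : ℕ → (ℕ → ℤ) → Prop)
    (P : (ℕ → ℤ) → ℂ → ℂ → ℤ → ℤ → ℤ → ℤ → ℝ → Prop) : Prop :=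
  ∃ κ : ℝ, 0 < κ ∧ ∃ C : ℝ, 0 < C ∧ ∀ N : ℕ, 1 ≤ N → ∀ a : ℕ → ℤ, 𝓕 N a →
    ∀ Ω₁ Ω₂ : ℂ, IsBasis N a Ω₁ Ω₂ → ∀ p q r s : ℤ, p * s - q * r = 1 → (N : ℤ) ∣ r →
      |p| ≤ (N : ℤ) ^ 2 → |q| ≤ (N : ℤ) ^ 2 → |r| ≤ (N : ℤ) ^ 2 → |s| ≤ (N : ℤ) ^ 2 →
      P a Ω₁ Ω₂ p q r s (C * (N : ℝ) ^ κ)

lemma pair_ne {χ : DirichletCharacter ℂ D} (hN : 1 ≤ N) (h : TwistPair N a a' D χ) : D ≠ 0 := by
  rintro rfl
  have := h.dvd
  rw [zero_pow (by norm_num), zero_dvd_iff] at this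
  omega

/-- The lattices of the two newforms contain multiples of each other. -/
lemma pair_basis {χ : DirichletCharacter ℂ D} (hN : 1 ≤ N) (h : TwistPair N a a' D χ)
    (hb : IsBasis N a Ω₁ Ω₂) : ∃ Ω₁' Ω₂' : ℂ, IsBasis N a' Ω₁' Ω₂' := by
  haveI : NeZero D := ⟨pair_ne hN h⟩
  have hg := gs_im_pos h.char
  refine transport h.left.toIsForm h.right.toIsForm hb (g := gs χ) (g' := gs χ)
    (gs_re h.char) (abs_pos.1 hg) (gs_re h.char) (abs_pos.1 hg) ?_ ?_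
  · rintro z ⟨γ, hγ, rfl⟩
    obtain ⟨δ, hδ, hsum⟩ := twist_Hs h.left.toIsForm h.dvd h.char h.twist hγ
    rw [hsum]
    exact sum_mem _ h.char (fun u => (hδ u).1)
  · rintro z ⟨γ, hγ, rfl⟩
    obtain ⟨δ, hδ, hsum⟩ := twist_Hs h.right.toIsForm h.dvd h.char h.twist' hγ
    rw [hsum]
    exact sum_mem _ h.char (fun u => (hδ u).1)

lemma first_apply (ha : IsForm N a) (hb : IsBasis N a Ω₁ Ω₂) {γ : SL(2, ℤ)} (hγ : InG N γ)
    {X : ℝ} (h : FirstBound a Ω₁ Ω₂ (γ 0 0) (γ 0 1) (γ 1 0) (γ 1 1) X) :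
    |L₁ Ω₁ Ω₂ (Hs a γ)| ≤ X := by
  obtain ⟨m, n, hmn⟩ := lattice ha hb (z := Hs a γ) ⟨γ, hγ, rfl⟩
  rw [hmn, L₁_apply hb]
  exact h m n hmn

lemma second_apply (ha : IsForm N a) (hb : IsBasis N a Ω₁ Ω₂) {γ : SL(2, ℤ)} (hγ : InG N γ)
    {X : ℝ} (h : SecondBound a Ω₁ Ω₂ (γ 0 0) (γ 0 1) (γ 1 0) (γ 1 1) X) :
    |L₂ Ω₂ (Hs a γ)| ≤ X := by
  obtain ⟨m, n, hmn⟩ := lattice ha hb (z := Hs a γ) ⟨γ, hγ, rfl⟩
  rw [hmn, L₂_apply hb]
  exact h m n hmn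

/-- For a pair, a bound for the second coordinates is a bound for both. -/
lemma pair_second {χ : DirichletCharacter ℂ D} (hN : 1 ≤ N) (h : TwistPair N a a' D χ)
    (hb : IsBasis N a Ω₁ Ω₂) (hb' : IsBasis N a' Ω₁' Ω₂') {B : ℝ} {R : ℤ}
    (h1 : ∀ γ : SL(2, ℤ), InG N γ → |γ 1 0| ≤ R → |L₂ Ω₂ (Hs a γ)| ≤ B)
    (h2 : ∀ γ : SL(2, ℤ), InG N γ → |γ 1 0| ≤ R → |L₂ Ω₂' (Hs a' γ)| ≤ B)
    {γ : SL(2, ℤ)} (hγ : InG N γ) (hR : |γ 1 0| ≤ R) :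
    |L₁ Ω₁ Ω₂ (Hs a γ)| ≤ (D + 1) * B := by
  haveI : NeZero D := ⟨pair_ne hN h⟩
  have h3 := re_bound h.left.toIsForm h.right.toIsForm h.dvd h.char h.twist' hb hb' h2 hγ hR
  have h4 := first_bound hb h3 (h1 γ hγ hR)
  linarith

/-- For a pair, a bound for the first coordinates is a bound for both. -/
lemma pair_first {χ : DirichletCharacter ℂ D} (hN : 1 ≤ N) (h : TwistPair N a a' D χ)
    (hb : IsBasis N a Ω₁ Ω₂) (hb' : IsBasis N a' Ω₁' Ω₂') {B : ℝ} {R : ℤ}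
    (h2 : ∀ γ : SL(2, ℤ), InG N γ → |γ 1 0| ≤ R → |L₁ Ω₁' Ω₂' (Hs a' γ)| ≤ B)
    {γ : SL(2, ℤ)} (hγ : InG N γ) (hR : |γ 1 0| ≤ R) :
    |L₂ Ω₂ (Hs a γ)| ≤ 2 * D * B := by
  haveI : NeZero D := ⟨pair_ne hN h⟩
  exact im_bound h.left.toIsForm h.right.toIsForm h.dvd h.char h.twist' hb hb' h2 hγ hR

lemma D_le {χ : DirichletCharacter ℂ D} (hN : 1 ≤ N) (h : TwistPair N a a' D χ) :
    (D : ℝ) ≤ N := by
  have h1 : D ^ 2 ≤ N := Nat.le_of_dvd hN h.dvd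
  have h2 : D ≤ D ^ 2 := by
    rw [pow_two]
    exact Nat.le_mul_self D
  exact_mod_cast h2.trans h1

/-- **Q1 for the newforms with an odd twist of the same level is a question on one coordinate.** -/
theorem family_tfae : List.TFAE [Question HasTwist CoordBound, Question HasTwist FirstBound,
    Question HasTwist SecondBound] := by
  tfae_have 1 → 2 := by
    rintro ⟨κ, hκ, C, hC, h⟩
    refine ⟨κ, hκ, C, hC, ?_⟩
    intro N hN a ha Ω₁ Ω₂ hb p q r s hd hr hp hq hr' hs m n hmn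
    exact (h N hN a ha Ω₁ Ω₂ hb p q r s hd hr hp hq hr' hs m n hmn).1
  tfae_have 1 → 3 := by
    rintro ⟨κ, hκ, C, hC, h⟩
    refine ⟨κ, hκ, C, hC, ?_⟩
    intro N hN a ha Ω₁ Ω₂ hb p q r s hd hr hp hq hr' hs m n hmn
    exact (h N hN a ha Ω₁ Ω₂ hb p q r s hd hr hp hq hr' hs m n hmn).2
  tfae_have 3 → 1 := by
    rintro ⟨κ, hκ, C, hC, h⟩
    refine ⟨κ + 1, by positivity, 2 * C, by positivity, ?_⟩
    intro N hN a ha Ω₁ Ω₂ hb p q r s hd hr hp hq hr' hs m n hmn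
    obtain ⟨a', D, χ, hpair⟩ := ha
    obtain ⟨Ω₁', Ω₂', hb'⟩ := pair_basis hN hpair hb
    have hN0 : (0 : ℝ) < N := by exact_mod_cast hN
    have hN1 : (1 : ℝ) ≤ N := by exact_mod_cast hN
    set B : ℝ := C * (N : ℝ) ^ κ with hB
    have hB0 : 0 < B := by positivity
    have key : ∀ (b : ℕ → ℤ) (w₁ w₂ : ℂ), HasTwist N b → IsForm N b → IsBasis N b w₁ w₂ →
        ∀ γ : SL(2, ℤ), InG N γ → |γ 1 0| ≤ (N : ℤ) ^ 2 → |L₂ w₂ (Hs b γ)| ≤ B := by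
      intro b w₁ w₂ hb1 hb2 hb3
      refine extend hN (isCuspHom hb2 (L₂ w₂)) ?_
      intro γ hγ hγ'
      exact second_apply hb2 hb3 hγ (h N hN b hb1 w₁ w₂ hb3 _ _ _ _ (det_eq γ) hγ (hγ' 0 0)
        (hγ' 0 1) (hγ' 1 0) (hγ' 1 1))
    have k1 := key a Ω₁ Ω₂ ⟨a', D, χ, hpair⟩ hpair.left.toIsForm hb
    have k2 := key a' Ω₁' Ω₂' ⟨a, D, χ, hpair.symm⟩ hpair.right.toIsForm hb'
    have k3 := pair_second hN hpair hb hb' k1 k2 (γ := mk p q r s hd) hr hr'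
    have k4 := k1 (mk p q r s hd) hr hr'
    have hH : Hs a (mk p q r s hd) = (m : ℂ) * Ω₁ + (n : ℂ) * Ω₂ := hmn
    rw [hH, L₁_apply hb] at k3
    rw [hH, L₂_apply hb] at k4
    have e1 : 2 * C * (N : ℝ) ^ (κ + 1) = 2 * N * B := by
      rw [hB, Real.rpow_add hN0, Real.rpow_one]
      ring
    rw [e1]
    have hD := D_le hN hpair
    constructor
    · refine k3.trans ?_
      gcongr
      linarith
    · refine k4.trans ?_
      nlinarith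
  tfae_have 2 → 1 := by
    rintro ⟨κ, hκ, C, hC, h⟩
    refine ⟨κ + 1, by positivity, 2 * C, by positivity, ?_⟩
    intro N hN a ha Ω₁ Ω₂ hb p q r s hd hr hp hq hr' hs m n hmn
    obtain ⟨a', D, χ, hpair⟩ := ha
    obtain ⟨Ω₁', Ω₂', hb'⟩ := pair_basis hN hpair hb
    have hN0 : (0 : ℝ) < N := by exact_mod_cast hN
    have hN1 : (1 : ℝ) ≤ N := by exact_mod_cast hN
    set B : ℝ := C * (N : ℝ) ^ κ with hB
    have hB0 : 0 < B := by positivity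
    have key : ∀ (b : ℕ → ℤ) (w₁ w₂ : ℂ), HasTwist N b → IsForm N b → IsBasis N b w₁ w₂ →
        ∀ γ : SL(2, ℤ), InG N γ → |γ 1 0| ≤ (N : ℤ) ^ 2 → |L₁ w₁ w₂ (Hs b γ)| ≤ B := by
      intro b w₁ w₂ hb1 hb2 hb3
      refine extend hN (isCuspHom hb2 (L₁ w₁ w₂)) ?_
      intro γ hγ hγ'
      exact first_apply hb2 hb3 hγ (h N hN b hb1 w₁ w₂ hb3 _ _ _ _ (det_eq γ) hγ (hγ' 0 0)
        (hγ' 0 1) (hγ' 1 0) (hγ' 1 1))
    have k1 := key a Ω₁ Ω₂ ⟨a', D, χ, hpair⟩ hpair.left.toIsForm hb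
    have k2 := key a' Ω₁' Ω₂' ⟨a, D, χ, hpair.symm⟩ hpair.right.toIsForm hb'
    have k3 := pair_first hN hpair hb hb' k2 (γ := mk p q r s hd) hr hr'
    have k4 := k1 (mk p q r s hd) hr hr'
    have hH : Hs a (mk p q r s hd) = (m : ℂ) * Ω₁ + (n : ℂ) * Ω₂ := hmn
    rw [hH, L₂_apply hb] at k3
    rw [hH, L₁_apply hb] at k4
    have e1 : 2 * C * (N : ℝ) ^ (κ + 1) = 2 * N * B := by
      rw [hB, Real.rpow_add hN0, Real.rpow_one]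
      ring
    rw [e1]
    have hD := D_le hN hpair
    constructor
    · refine k4.trans ?_
      nlinarith
    · refine k3.trans ?_
      gcongr
  tfae_finish

end Pool.Agent.Q127.SM
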