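import Pool.Agent.Q127.SM.Small
import Pool.Agent.Q127.SM.Chr
import Pool.Agent.Q68.SM.DEC
import Pool.Agent.Q68.SM.RAM
import Pool.Agent.Q150.SM.MAX
import Pool.Agent.Q162.SM_HKF
import Pool.Agent.Q162.SM_PRM
import Pool.Agent.Q79.SM_HKf
import Pool.Agent.Q65.SM_ORT
import Pool.Agent.Q65.SM_COP
import Pool.Agent.Q13.SM_TWF
import Pool.Agent.Q223.SM_TRF
import Pool.Agent.Q224.SM.CO
import Pool.Agent.Q224.SM.ST

/-!
# Q1 is a question on one coordinate: the final statement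
-/

namespace Pool.Agent.Q127.SM

open Pool.Agent.TH133.SH

theorem lemmas : Lemmas := by
  have hF : S_hkF := Pool.Agent.Q162.SM_HKF.hkF
  have hcop : S_cop := Pool.Agent.Q65.SM.cop_eq hF Pool.Agent.Q65.SM.ort
  exact ⟨Pool.Agent.Q224.SM.st1 hcop hF, Pool.Agent.Q224.SM.st2 hF, Pool.Agent.Q223.SM.trf,
    Pool.Agent.Q224.SM.co1, Pool.Agent.Q224.SM.co2, Pool.Agent.Q13.SM.twf,
    Pool.Agent.Q68.SM.ram Pool.Agent.Q68.SM.dec (Pool.Agent.Q150.SM.t_max Pool.Agent.Q68.SM.dec)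
      Pool.Agent.Q79.SM_HKf.hkf, chr, Pool.Agent.Q162.SM_PRM.prm⟩

theorem main : List.TFAE [EntriesAtMost 2, Question NewformOrTwist CoordBound,
      SmallQuestion NewformOrTwist FirstBound, SmallQuestion NewformOrTwist SecondBound,
      SmallQuestion Twisted CoordBound] ∧
    List.TFAE [Question HasTwist CoordBound, SmallQuestion HasTwist FirstBound,
      SmallQuestion HasTwist SecondBound] :=
  ⟨all_small lemmas, family_small⟩

end Pool.Agent.Q127.SM
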