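import Pool.Agent.Q127.SM.Shift

/-!
# One coordinate of the Shimura map bounds the other coordinate of the twist
-/

open Complex Matrix.SpecialLinearGroup MatrixGroups ModularGroup

namespace Pool.Agent.Q127.SM

open Pool.Agent.TH133.SH

variable {a a' : ℕ → ℤ} {N D : ℕ} {Ω₁ Ω₂ Ω₁' Ω₂' : ℂ}

lemma sum_mem [NeZero D] (ha : IsForm N a) {χ : DirichletCharacter ℂ D} (h : OddQuadratic D χ)
    {δ : ZMod D → SL(2, ℤ)} (hδ : ∀ u, InG N (δ u)) :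
    ∑ u : ZMod D, χ u * Hs a (δ u) ∈ Lam ha := by
  refine (Lam ha).sum_mem (fun u _ => ?_)
  obtain ⟨e, he, -⟩ := chi_val h u
  rw [he, ← zsmul_eq_mul]
  exact (Lam ha).zsmul_mem ⟨δ u, hδ u, rfl⟩ e

lemma norm_chi {χ : DirichletCharacter ℂ D} (h : OddQuadratic D χ) (u : ZMod D) (z : ℂ) :
    |(χ u * z).re| ≤ |z.re| ∧ |(χ u * z).im| ≤ |z.im| := by
  obtain ⟨e, he, he'⟩ := chi_val h u
  have h1 : (|(e : ℝ)|) ≤ 1 := by exact_mod_cast he'
  rw [he]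
  have h2 : ((e : ℂ) * z).re = e * z.re := by simp
  have h3 : ((e : ℂ) * z).im = e * z.im := by simp
  rw [h2, h3, abs_mul, abs_mul]
  constructor
  · nlinarith [abs_nonneg z.re]
  · nlinarith [abs_nonneg z.im]

lemma gs_mul [NeZero D] {χ : DirichletCharacter ℂ D} (h : OddQuadratic D χ) (z : ℂ) :
    (gs χ * z).re = -((gs χ).im * z.im) ∧ (gs χ * z).im = (gs χ).im * z.re := by
  rw [Complex.mul_re, Complex.mul_im, gs_re h]
  constructor <;> ring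

lemma gs_im_pos [NeZero D] {χ : DirichletCharacter ℂ D} (h : OddQuadratic D χ) :
    0 < |(gs χ).im| := by
  rw [abs_pos]
  intro h0
  exact gs_ne_zero h (Complex.ext (gs_re h) h0)

/-- Elements of the lattice with non-zero imaginary part. -/
lemma im_lower (ha : IsForm N a) (hb : IsBasis N a Ω₁ Ω₂) {z : ℂ} (hz : z ∈ Lam ha)
    (h0 : z.im ≠ 0) : Ω₂.im ≤ |z.im| := by
  rcases lt_or_gt_of_ne h0 with h | h
  · obtain ⟨g, hg, hg'⟩ := (Lam ha).neg_mem hz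
    have h1 := hb.min₂ (g 0 0) (g 0 1) (g 1 0) (g 1 1) (det_eq g) hg
      (by change 0 < (Hs a g).im; rw [hg', Complex.neg_im]; linarith)
    change Ω₂.im ≤ (Hs a g).im at h1
    rw [hg', Complex.neg_im] at h1
    rw [abs_of_neg h]
    exact h1
  · obtain ⟨g, hg, hg'⟩ := hz
    have h1 := hb.min₂ (g 0 0) (g 0 1) (g 1 0) (g 1 1) (det_eq g) hg
      (by change 0 < (Hs a g).im; rw [hg']; exact h)
    change Ω₂.im ≤ (Hs a g).im at h1
    rw [hg'] at h1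
    rw [abs_of_pos h]
    exact h1

/-- Elements of the lattice with non-zero real part. -/
lemma re_lower (ha : IsForm N a) (hb : IsBasis N a Ω₁ Ω₂) {z : ℂ} (hz : z ∈ Lam ha)
    (h0 : z.re ≠ 0) : Ω₁.re ≤ 2 * |z.re| := by
  have hw : z + (starRingEnd ℂ) z ∈ Lam ha := by
    refine (Lam ha).add_mem hz ?_
    obtain ⟨g, hg, rfl⟩ := hz
    exact ⟨flip g, inG_flip hg, Hs_flip a g⟩
  set w := z + (starRingEnd ℂ) z with hwd
  have hre : w.re = 2 * z.re := by rw [hwd]; simp; ring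
  have him : w.im = 0 := by rw [hwd]; simp
  have key : ∀ v : ℂ, v ∈ Lam ha → v.im = 0 → 0 < v.re → Ω₁.re ≤ v.re := by
    rintro v ⟨g, hg, hg'⟩ h1 h2
    have h3 := hb.min₁ (g 0 0) (g 0 1) (g 1 0) (g 1 1) (det_eq g) hg
      (by change (Hs a g).im = 0; rw [hg']; exact h1)
      (by change 0 < (Hs a g).re; rw [hg']; exact h2)
    change Ω₁.re ≤ (Hs a g).re at h3
    rwa [hg'] at h3
  rcases lt_or_gt_of_ne h0 with h | h
  · have h1 := key (-w) ((Lam ha).neg_mem hw) (by simp [him]) (by rw [Complex.neg_re, hre]; linarith)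
    rw [Complex.neg_re, hre] at h1
    rw [abs_of_neg h]
    linarith
  · have h1 := key w hw him (by rw [hre]; linarith)
    rw [hre] at h1
    rw [abs_of_pos h]
    linarith

lemma L₂_eq (z : ℂ) : L₂ Ω₂ z = z.im / Ω₂.im := by
  simp [L₂]
  ring

lemma L₁_eq (z : ℂ) : L₁ Ω₁ Ω₂ z = (z.re - Ω₂.re * L₂ Ω₂ z) / Ω₁.re := by
  simp [L₁]
  ring

/-- **The second coordinate of the twist bounds the real part.** -/
lemma re_bound [NeZero D] (ha : IsForm N a) (ha' : IsForm N a') (hN : D ^ 2 ∣ N)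
    {χ : DirichletCharacter ℂ D} (h : OddQuadratic D χ)
    (htw : ∀ n : ℕ, (a n : ℂ) = χ (n : ZMod D) * (a' n : ℂ))
    (hb : IsBasis N a Ω₁ Ω₂) (hb' : IsBasis N a' Ω₁' Ω₂') {B : ℝ} {R : ℤ}
    (hB : ∀ γ : SL(2, ℤ), InG N γ → |γ 1 0| ≤ R → |L₂ Ω₂' (Hs a' γ)| ≤ B)
    {γ : SL(2, ℤ)} (hγ : InG N γ) (hR : |γ 1 0| ≤ R) :
    |(Hs a γ).re| ≤ D * B * Ω₁.re := by
  have hR0 : (0 : ℤ) ≤ R := (abs_nonneg _).trans hR
  have hB0 : 0 ≤ B := (abs_nonneg _).trans (hB 1 inG_one (by simpa using hR0))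
  obtain ⟨δ, hδ, hsum⟩ := twist_Hs (a := a') (a' := a) ha' hN h htw hγ
  have hg := gs_im_pos h
  -- the smallest imaginary part
  have h1 : Ω₂'.im ≤ |(gs χ).im| * Ω₁.re := by
    obtain ⟨p, q, r, s, h3, h4, h5⟩ := hb.mem₁
    obtain ⟨δ', hδ', hsum'⟩ := twist_Hs (a := a') (a' := a) ha' hN h htw
      (γ := mk p q r s h3) h4
    have h6 : gs χ * Ω₁ ∈ Lam ha' := by
      rw [h5]
      change gs χ * Hs a (mk p q r s h3) ∈ _
      rw [hsum']
      exact sum_mem ha' h (fun u => (hδ' u).1)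
    have h7 : (gs χ * Ω₁).im ≠ 0 := by
      rw [(gs_mul h _).2]
      exact mul_ne_zero (abs_pos.1 hg) hb.re₁.ne'
    have h8 := im_lower ha' hb' h6 h7
    rw [(gs_mul h _).2, abs_mul, abs_of_pos hb.re₁] at h8
    exact h8
  have h2 : |(gs χ).im| * |(Hs a γ).re| ≤ D * (B * Ω₂'.im) := by
    rw [← abs_mul, ← (gs_mul h _).2, hsum, Complex.im_sum]
    refine (Finset.abs_sum_le_sum_abs _ _).trans ?_
    have h3 : ∀ u ∈ (Finset.univ : Finset (ZMod D)), |(χ u * Hs a' (δ u)).im| ≤ B * Ω₂'.im := by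
      intro u _
      refine (norm_chi h u _).2.trans ?_
      have h4 := hB (δ u) (hδ u).1 (by rw [(hδ u).2]; exact hR)
      rw [L₂_eq, abs_div, abs_of_pos hb'.im₂, div_le_iff₀ hb'.im₂] at h4
      exact h4
    refine (Finset.sum_le_card_nsmul _ _ _ h3).trans (le_of_eq ?_)
    rw [Finset.card_univ, ZMod.card, nsmul_eq_mul]
  have h3 : |(gs χ).im| * |(Hs a γ).re| ≤ |(gs χ).im| * (D * B * Ω₁.re) := by
    refine h2.trans ?_
    calc (D : ℝ) * (B * Ω₂'.im) ≤ D * (B * (|(gs χ).im| * Ω₁.re)) := by gcongr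
      _ = |(gs χ).im| * (D * B * Ω₁.re) := by ring
  exact le_of_mul_le_mul_left h3 hg

/-- The first coordinate bounds the real part. -/
lemma re_of_first (hb : IsBasis N a Ω₁ Ω₂) {B : ℝ} {R : ℤ}
    (hB : ∀ γ : SL(2, ℤ), InG N γ → |γ 1 0| ≤ R → |L₁ Ω₁ Ω₂ (Hs a γ)| ≤ B)
    {γ : SL(2, ℤ)} (hγ : InG N γ) (hR : |γ 1 0| ≤ R) :
    |(Hs a γ).re| ≤ B * Ω₁.re := by
  have h1 := hB γ hγ hR
  have h2 := hB (flip γ) (inG_flip hγ) (by rw [flip_lower, abs_neg]; exact hR)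
  rw [Hs_flip] at h2
  set z := Hs a γ
  have h3 : L₁ Ω₁ Ω₂ z + L₁ Ω₁ Ω₂ ((starRingEnd ℂ) z) = 2 * z.re / Ω₁.re := by
    rw [← map_add, L₁_eq, L₂_eq]
    simp
    ring
  have h4 : |2 * z.re / Ω₁.re| ≤ 2 * B := by
    rw [← h3]
    refine (abs_add_le _ _).trans ?_
    linarith
  rw [abs_div, abs_of_pos hb.re₁, div_le_iff₀ hb.re₁, abs_mul, abs_of_pos (by norm_num : (0:ℝ) < 2)] at h4
  linarith

/-- **The first coordinate of the twist bounds the imaginary part.** -/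
lemma im_bound [NeZero D] (ha : IsForm N a) (ha' : IsForm N a') (hN : D ^ 2 ∣ N)
    {χ : DirichletCharacter ℂ D} (h : OddQuadratic D χ)
    (htw : ∀ n : ℕ, (a n : ℂ) = χ (n : ZMod D) * (a' n : ℂ))
    (hb : IsBasis N a Ω₁ Ω₂) (hb' : IsBasis N a' Ω₁' Ω₂') {B : ℝ} {R : ℤ}
    (hB : ∀ γ : SL(2, ℤ), InG N γ → |γ 1 0| ≤ R → |L₁ Ω₁' Ω₂' (Hs a' γ)| ≤ B)
    {γ : SL(2, ℤ)} (hγ : InG N γ) (hR : |γ 1 0| ≤ R) :
    |L₂ Ω₂ (Hs a γ)| ≤ 2 * D * B := by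
  have hR0 : (0 : ℤ) ≤ R := (abs_nonneg _).trans hR
  have hB0 : 0 ≤ B := (abs_nonneg _).trans (hB 1 inG_one (by simpa using hR0))
  obtain ⟨δ, hδ, hsum⟩ := twist_Hs (a := a') (a' := a) ha' hN h htw hγ
  have hg := gs_im_pos h
  have h1 : Ω₁'.re ≤ 2 * (|(gs χ).im| * Ω₂.im) := by
    obtain ⟨p, q, r, s, h3, h4, h5⟩ := hb.mem₂
    obtain ⟨δ', hδ', hsum'⟩ := twist_Hs (a := a') (a' := a) ha' hN h htw
      (γ := mk p q r s h3) h4
    have h6 : gs χ * Ω₂ ∈ Lam ha' := by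
      rw [h5]
      change gs χ * Hs a (mk p q r s h3) ∈ _
      rw [hsum']
      exact sum_mem ha' h (fun u => (hδ' u).1)
    have h7 : (gs χ * Ω₂).re ≠ 0 := by
      rw [(gs_mul h _).1]
      exact neg_ne_zero.2 (mul_ne_zero (abs_pos.1 hg) hb.im₂.ne')
    have h8 := re_lower ha' hb' h6 h7
    rw [(gs_mul h _).1, abs_neg, abs_mul, abs_of_pos hb.im₂] at h8
    exact h8
  have h2 : |(gs χ).im| * |(Hs a γ).im| ≤ D * (B * Ω₁'.re) := by
    rw [← abs_mul, ← abs_neg, ← (gs_mul h _).1, hsum, Complex.re_sum]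
    refine (Finset.abs_sum_le_sum_abs _ _).trans ?_
    have h3 : ∀ u ∈ (Finset.univ : Finset (ZMod D)), |(χ u * Hs a' (δ u)).re| ≤ B * Ω₁'.re := by
      intro u _
      refine (norm_chi h u _).1.trans ?_
      exact re_of_first hb' hB (hδ u).1 (by rw [(hδ u).2]; exact hR)
    refine (Finset.sum_le_card_nsmul _ _ _ h3).trans (le_of_eq ?_)
    rw [Finset.card_univ, ZMod.card, nsmul_eq_mul]
  have h3 : |(gs χ).im| * |(Hs a γ).im| ≤ |(gs χ).im| * (2 * D * B * Ω₂.im) := by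
    refine h2.trans ?_
    calc (D : ℝ) * (B * Ω₁'.re) ≤ D * (B * (2 * (|(gs χ).im| * Ω₂.im))) := by gcongr
      _ = |(gs χ).im| * (2 * D * B * Ω₂.im) := by ring
  have h4 := le_of_mul_le_mul_left h3 hg
  rw [L₂_eq, abs_div, abs_of_pos hb.im₂, div_le_iff₀ hb.im₂]
  exact h4

/-- The bound for the first coordinate. -/
lemma first_bound (hb : IsBasis N a Ω₁ Ω₂) {z : ℂ} {X Y : ℝ} (h1 : |z.re| ≤ X * Ω₁.re)
    (h2 : |L₂ Ω₂ z| ≤ Y) : |L₁ Ω₁ Ω₂ z| ≤ X + Y := by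
  rw [L₁_eq, abs_div, abs_of_pos hb.re₁, div_le_iff₀ hb.re₁]
  refine (abs_sub _ _).trans ?_
  rw [abs_mul, abs_of_nonneg hb.re₂]
  have h3 := hb.re₂'.le
  have h4 := hb.re₂
  have h5 := abs_nonneg (L₂ Ω₂ z)
  nlinarith

end Pool.Agent.Q127.SM
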