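import Pool.Agent.Q127.SM.Comb

/-!
# Inversion: the Shimura map of a newform from the Shimura map of its twist
-/

open Complex Matrix.SpecialLinearGroup MatrixGroups ModularGroup

namespace Pool.Agent.Q127.SM

open Pool.Agent.TH133.SH

variable {a a' : ℕ → ℤ} {M N D q : ℕ}

lemma isForm_raise (ha : IsForm N a) (hNM : N ∣ M) : IsForm M a :=
  ⟨ha.zero, ha.summable, fun τ hτ p q r s hd hr => ha.modular τ hτ p q r s hd
    ((Int.natCast_dvd_natCast.2 hNM).trans hr), ha.bounded⟩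

lemma chi_sq {χ : DirichletCharacter ℂ D} (h : OddQuadratic D χ) {u : ZMod D} (hu : IsUnit u) :
    χ u * χ u = 1 := by
  have h2 := congrArg (fun ψ : DirichletCharacter ℂ D => ψ u) h.sq
  simp only [pow_two, MulChar.mul_apply] at h2
  rw [h2, MulChar.one_apply hu]

/-- The double twist removes the Euler factor at `q`. -/
lemma cop_twist (hq : q.Prime) {χ : DirichletCharacter ℂ q} (h : OddQuadratic q χ)
    (htw : ∀ n : ℕ, (a' n : ℂ) = χ (n : ZMod q) * (a n : ℂ)) (n : ℕ) :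
    ((cop a q n : ℤ) : ℂ) = χ (n : ZMod q) * (a' n : ℂ) := by
  unfold cop
  split_ifs with hn
  · have h1 : ((n : ℕ) : ZMod q) = 0 := (ZMod.natCast_eq_zero_iff n q).2 hn
    have h2 : ¬ IsUnit (0 : ZMod q) := by
      have : Fact q.Prime := ⟨hq⟩
      exact not_isUnit_zero
    rw [h1, MulChar.map_nonunit _ h2]
    simp
  · rw [htw, ← mul_assoc, chi_sq h ((ZMod.isUnit_iff_coprime n q).2
      ((Nat.coprime_comm.1 ((Nat.Prime.coprime_iff_not_dvd hq).2 hn)))), one_mul]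

/-- The combination for the twist. -/
lemma comb_twist (hq : q.Prime) [NeZero q] (ha : IsForm N a) {χ : DirichletCharacter ℂ q}
    (h : OddQuadratic q χ) (htw : ∀ n : ℕ, (a' n : ℂ) = χ (n : ZMod q) * (a n : ℂ)) :
    Comb (ZMod q) (N * q ^ 2) N a' a (gs χ).im 1 := by
  intro γ hγ X hX
  obtain ⟨δ, hδ, hsum⟩ := twist_Hs (isForm_raise ha (dvd_mul_right N (q ^ 2)))
    (dvd_mul_left (q ^ 2) N) h htw hγ
  choose e he he' using fun u : ZMod q => chi_val h u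
  refine ⟨e, δ, fun k => ⟨he' k, ?_, ?_⟩, ?_⟩
  · have h1 := (hδ k).1
    unfold InG at h1 ⊢
    refine dvd_trans ?_ h1
    exact_mod_cast dvd_mul_right N (q ^ 2)
  · rw [(hδ k).2, one_mul]
    exact hX 1 0
  · have h1 : ((gs χ).im : ℂ) * Complex.I = gs χ := by
      apply Complex.ext
      · rw [tI_re, gs_re h]
      · rw [tI_im]
    rw [h1, hsum]
    exact Finset.sum_congr rfl (fun u _ => by rw [he u])

lemma bounded_low {X : ℤ} {c : ℤ} (hX : 1 ≤ X) (hc : |c| ≤ X) : Bounded X (low c) := by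
  intro i j
  fin_cases i <;> fin_cases j
  · change |(1 : ℤ)| ≤ X
    simpa using hX
  · change |(0 : ℤ)| ≤ X
    simp
    linarith
  · change |c| ≤ X
    exact hc
  · change |(1 : ℤ)| ≤ X
    simpa using hX

lemma bounded_rep₂ (hN : 1 ≤ N) (hq : q.Prime) {j v : ℕ} (hj : j < q) (hv : v < q + 1) :
    Bounded ((N : ℤ) * q) (rep₂ N q j v) := by
  have hN' : (1 : ℤ) ≤ N := by exact_mod_cast hN
  have hq' : (2 : ℤ) ≤ q := by exact_mod_cast hq.two_le
  have hj' : (j : ℤ) + 1 ≤ q := by exact_mod_cast hj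
  have hj0 : (0 : ℤ) ≤ j := Int.natCast_nonneg j
  unfold rep₂
  split_ifs with h
  · have hv' : (v : ℤ) ≤ q := by exact_mod_cast h.le
    apply bounded_low
    · nlinarith
    · rw [abs_of_nonneg (by positivity)]
      gcongr
  · intro x y
    fin_cases x <;> fin_cases y
    · change |(low (N : ℤ) * trans (j : ℤ)) 0 0| ≤ _
      rw [mul00]
      change |(1 : ℤ) * 1 + 0 * 0| ≤ _
      norm_num
      nlinarith
    · change |(low (N : ℤ) * trans (j : ℤ)) 0 1| ≤ _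
      rw [mul01]
      change |(1 : ℤ) * j + 0 * 1| ≤ _
      rw [abs_of_nonneg (by positivity)]
      nlinarith
    · change |(low (N : ℤ) * trans (j : ℤ)) 1 0| ≤ _
      rw [mul10]
      change |(N : ℤ) * 1 + 1 * 0| ≤ _
      rw [abs_of_nonneg (by positivity)]
      nlinarith
    · change |(low (N : ℤ) * trans (j : ℤ)) 1 1| ≤ _
      rw [mul11]
      change |(N : ℤ) * j + 1 * 1| ≤ _
      rw [abs_of_nonneg (by positivity)]
      nlinarith

/-- **Inversion.** -/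
lemma inversion (hst1 : S_st1) (hst2 : S_st2) (htrf : S_trf) (hco1 : S_co1) (hco2 : S_co2)
    (hN : 1 ≤ N) (ha : IsForm N a) (hq : q.Prime) (hqN : ¬ q ∣ N) (hh : HeckeAt a q)
    (hcop : IsForm (N * q ^ 2) (cop a q)) {γ : SL(2, ℤ)} (hγ : InG N γ) {X : ℤ}
    (hX : Bounded X γ) :
    ∃ δ : ℕ → ℕ → SL(2, ℤ), (∀ i, i < q + 1 → ∀ v, v < q → InG (N * q ^ 2) (δ i v) ∧
      |(δ i v) 1 0| ≤ 16 * (N : ℤ) ^ 4 * (q : ℤ) ^ 6 * X) ∧
      (1 - 1 / (q : ℂ)) * (((q : ℂ) + 1) ^ 2 - (a q : ℂ) ^ 2) * Hs a γ =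
        ∑ i ∈ Finset.range (q + 1), ∑ v ∈ Finset.range q, Hs (cop a q) (δ i v) := by
  have hI : (0 : ℝ) < Complex.I.im := by simp
  have hq0 : (q : ℂ) ≠ 0 := by exact_mod_cast hq.ne_zero
  have hq1 : (1 - 1 / (q : ℂ)) ≠ 0 := by
    rw [sub_ne_zero]
    intro h
    rw [eq_div_iff hq0, one_mul] at h
    exact hq.one_lt.ne' (by exact_mod_cast h)
  -- the solution of `1 + N j = 0`
  obtain ⟨j, hj, hjN⟩ : ∃ j : ℕ, j < q ∧ q ∣ 1 + N * j := by
    have : Fact q.Prime := ⟨hq⟩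
    have hNu : ((N : ℕ) : ZMod q) ≠ 0 := by
      rw [Ne, ZMod.natCast_eq_zero_iff]
      exact hqN
    refine ⟨(-((N : ZMod q))⁻¹).val, ZMod.val_lt _, ?_⟩
    rw [← ZMod.natCast_eq_zero_iff]
    push_cast
    rw [ZMod.natCast_zmod_val, mul_neg, mul_inv_cancel₀ hNu]
    ring
  set c := cop a q with hc
  set E : ℂ → ℂ := fun τ => ((q : ℂ) + 1) * Fser a τ - (a q : ℂ) * Fser a ((q : ℂ) * τ) with hE
  obtain ⟨C₁, hC₁⟩ := hst1 N a q hN ha hq hqN hh
  obtain ⟨C₂, hC₂⟩ := hst2 N a q j hN ha hq hqN hjN hh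
  obtain ⟨k1, k2, k3⟩ := hco1 N q hN hq
  obtain ⟨l1, l2, l3⟩ := hco2 N q j hN hq hqN hjN
  -- first transfer
  have t1 := fun ε (hε : InG (N * q) ε) => htrf (N * q) (N * q ^ 2) q
    (fun v => low ((N : ℤ) * q * v)) ⟨q, by ring⟩ k1 k2 k3 (Fser c) (Hs c)
    (fun δ hδ τ hτ => diff_eq hcop hδ hτ) ε hε
  have t2 : ∀ ε : SL(2, ℤ), InG (N * q) ε → ∀ τ : ℂ, 0 < τ.im →
      E (act ε τ) - E τ = E (act ε Complex.I) - E Complex.I := by
    intro ε hε τ hτ
    obtain ⟨σ, hσ, hσ'⟩ := t1 ε hε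
    have e1 := hσ' τ hτ
    have e2 := hσ' Complex.I hI
    rw [hC₁ _ (act_im_pos ε hτ), hC₁ _ hτ] at e1
    rw [hC₁ _ (act_im_pos ε hI), hC₁ _ hI] at e2
    apply mul_left_cancel₀ hq1
    rw [hE]
    linear_combination e1 - e2
  obtain ⟨σ, hσ, hσ'⟩ := htrf N (N * q) (q + 1) (rep₂ N q j) ⟨q, rfl⟩ l1 l2 l3 E
    (fun ε => E (act ε Complex.I) - E Complex.I) t2 γ hγ
  have e3 := hσ' Complex.I hI
  rw [hE] at e3
  simp only at e3
  rw [hC₂ _ (act_im_pos γ hI), hC₂ _ hI] at e3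
  have e4 : (((q : ℂ) + 1) ^ 2 - (a q : ℂ) ^ 2) * Hs a γ =
      ∑ i ∈ Finset.range (q + 1), (E (act (rep₂ N q j i * γ * (rep₂ N q j (σ i))⁻¹) Complex.I) -
        E Complex.I) := by
    rw [Hs_eq]
    linear_combination e3
  -- the matrices
  have key : ∀ i, ∃ δ : ℕ → SL(2, ℤ), i < q + 1 → (∀ v, v < q → InG (N * q ^ 2) (δ v) ∧
      |(δ v) 1 0| ≤ 16 * (N : ℤ) ^ 4 * (q : ℤ) ^ 6 * X) ∧
      (1 - 1 / (q : ℂ)) * (E (act (rep₂ N q j i * γ * (rep₂ N q j (σ i))⁻¹) Complex.I) -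
        E Complex.I) = ∑ v ∈ Finset.range q, Hs c (δ v) := by
    intro i
    by_cases hi : i < q + 1
    · set ε := rep₂ N q j i * γ * (rep₂ N q j (σ i))⁻¹ with hε
      obtain ⟨π, hπ, hπ'⟩ := t1 ε (hσ i hi).2
      refine ⟨fun v => low ((N : ℤ) * q * v) * ε * (low ((N : ℤ) * q * (π v)))⁻¹,
        fun _ => ⟨?_, ?_⟩⟩
      · intro v hv
        refine ⟨(hπ v hv).2, ?_⟩
        have hN' : (1 : ℤ) ≤ N := by exact_mod_cast hN
        have hq' : (2 : ℤ) ≤ q := by exact_mod_cast hq.two_le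
        have hNq : (0 : ℤ) ≤ (N : ℤ) * q := by positivity
        have hX0 : 0 ≤ X := (abs_nonneg _).trans (hX 0 0)
        have b1 := bounded_mul hNq (bounded_rep₂ hN hq hj hi) hX
        have b2 := bounded_mul (by positivity) b1 (bounded_inv (bounded_rep₂ hN hq hj (hσ i hi).1))
        rw [← hε] at b2
        have hlow : ∀ w, w < q → Bounded ((N : ℤ) * q ^ 2) (low ((N : ℤ) * q * w)) := by
          intro w hw
          have hw' : (w : ℤ) ≤ q := by exact_mod_cast hw.le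
          apply bounded_low
          · nlinarith [sq_nonneg ((q : ℤ) - 1)]
          · rw [abs_of_nonneg (by positivity), pow_two, ← mul_assoc]
            gcongr
        have b3 := bounded_mul (by positivity) (hlow v hv) b2
        have b4 := bounded_mul (by positivity) b3 (bounded_inv (hlow (π v) (hπ v hv).1))
        refine (b4 1 0).trans (le_of_eq ?_)
        ring
      · have e1 := hπ' Complex.I hI
        rw [hC₁ _ (act_im_pos ε hI), hC₁ _ hI] at e1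
        rw [hE]
        linear_combination e1
    · exact ⟨fun _ => 1, fun h => absurd h hi⟩
  choose δ hδ using key
  refine ⟨δ, fun i hi => (hδ i hi).1, ?_⟩
  rw [mul_assoc, e4, Finset.mul_sum]
  refine Finset.sum_congr rfl (fun i hi => ?_)
  exact (hδ i (Finset.mem_range.1 hi)).2

/-- The combination for the newform in terms of its twist. -/
lemma comb_inv (hst1 : S_st1) (hst2 : S_st2) (htrf : S_trf) (hco1 : S_co1) (hco2 : S_co2)
    (htwf : S_twf) (hN : 1 ≤ N) (ha : IsForm N a) (hq : q.Prime) [NeZero q] (hqN : ¬ q ∣ N)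
    (hh : HeckeAt a q) {χ : DirichletCharacter ℂ q}
    (h : OddQuadratic q χ) (htw : ∀ n : ℕ, (a' n : ℂ) = χ (n : ZMod q) * (a n : ℂ)) :
    Comb ((Fin (q + 1) × Fin q) × ZMod q) N (N * q ^ 2) a a'
      ((gs χ).im * ((1 - 1 / (q : ℝ)) * (((q : ℝ) + 1) ^ 2 - (a q : ℝ) ^ 2)))
      (16 * (N : ℤ) ^ 4 * (q : ℤ) ^ 6) := by
  have hM : 1 ≤ N * q ^ 2 := Nat.one_le_iff_ne_zero.2 (by
    have := hq.ne_zero
    positivity)
  have ha' : IsForm (N * q ^ 2) a' := htwf (N * q ^ 2) q a a' χ hM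
    (isForm_raise ha (dvd_mul_right N (q ^ 2))) (dvd_mul_left (q ^ 2) N) h htw
  have hcop : IsForm (N * q ^ 2) (cop a q) := htwf (N * q ^ 2) q a' (cop a q) χ hM ha'
    (dvd_mul_left (q ^ 2) N) h (cop_twist hq h htw)
  intro γ hγ X hX
  obtain ⟨δ, hδ, hsum⟩ := inversion hst1 hst2 htrf hco1 hco2 hN ha hq hqN hh hcop hγ hX
  have key : ∀ iv : Fin (q + 1) × Fin q, ∃ η : ZMod q → SL(2, ℤ),
      (∀ u, InG (N * q ^ 2) (η u) ∧ (η u) 1 0 = (δ iv.1 iv.2) 1 0) ∧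
      gs χ * Hs (cop a q) (δ iv.1 iv.2) = ∑ u : ZMod q, χ u * Hs a' (η u) := fun iv =>
    twist_Hs ha' (dvd_mul_left (q ^ 2) N) h (cop_twist hq h htw)
      (hδ iv.1 iv.1.2 iv.2 iv.2.2).1
  choose η hη hη' using key
  choose e he he' using fun u : ZMod q => chi_val h u
  refine ⟨fun k => e k.2, fun k => η k.1 k.2, fun k => ⟨he' k.2, (hη k.1 k.2).1, ?_⟩, ?_⟩
  · rw [(hη k.1 k.2).2]
    exact (hδ k.1.1 k.1.1.2 k.1.2 k.1.2.2).2
  · have h1 : ((gs χ).im : ℂ) * Complex.I = gs χ := by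
      apply Complex.ext
      · rw [tI_re, gs_re h]
      · rw [tI_im]
    have h2 : (((gs χ).im * ((1 - 1 / (q : ℝ)) * (((q : ℝ) + 1) ^ 2 - (a q : ℝ) ^ 2)) : ℝ) : ℂ) *
        Complex.I * Hs a γ = gs χ * ((1 - 1 / (q : ℂ)) * (((q : ℂ) + 1) ^ 2 - (a q : ℂ) ^ 2) *
        Hs a γ) := by
      push_cast
      linear_combination ((1 - 1 / (q : ℂ)) * (((q : ℂ) + 1) ^ 2 - (a q : ℂ) ^ 2) * Hs a γ) * h1
    rw [h2, hsum, Finset.mul_sum, ← Fin.sum_univ_eq_sum_range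
      (fun i => gs χ * ∑ v ∈ Finset.range q, Hs (cop a q) (δ i v)), Fintype.sum_prod_type,
      Fintype.sum_prod_type]
    refine Finset.sum_congr rfl (fun i _ => ?_)
    rw [Finset.mul_sum, ← Fin.sum_univ_eq_sum_range
      (fun v => gs χ * Hs (cop a q) (δ i v))]
    refine Finset.sum_congr rfl (fun v _ => ?_)
    rw [hη' (i, v)]
    refine Finset.sum_congr rfl (fun u _ => ?_)
    rw [he u]

end Pool.Agent.Q127.SM
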