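import Pool.Agent.Q127.SM.Inv

/-!
# Q1 is a question on one coordinate
-/

open Complex Matrix.SpecialLinearGroup MatrixGroups ModularGroup

namespace Pool.Agent.Q127.SM

open Pool.Agent.TH133.SH

variable {a a' : ℕ → ℤ} {M N D q : ℕ} {Ω₁ Ω₂ Ω₁' Ω₂' : ℂ}

/-- `a` is a newform of level `N`, or the twist of a newform of level `N₀` by the odd quadratic
character modulo a prime `q` which does not divide `N₀`, and then `N = N₀ q ^ 2`. (By the theory of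
Atkin and Lehner such a twist is a newform of level `N`.) -/
def NewformOrTwist (N : ℕ) (a : ℕ → ℤ) : Prop :=
  IsNewform N a ∨ ∃ (N₀ : ℕ) (a₀ : ℕ → ℤ) (q : ℕ) (χ : DirichletCharacter ℂ q),
    IsNewform N₀ a₀ ∧ q.Prime ∧ ¬ q ∣ N₀ ∧ N = N₀ * q ^ 2 ∧ OddQuadratic q χ ∧
      ∀ n : ℕ, (a n : ℂ) = χ (n : ZMod q) * (a₀ n : ℂ)

/-- The lemmas used below. -/
structure Lemmas : Prop where
  st1 : S_st1
  st2 : S_st2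
  trf : S_trf
  co1 : S_co1
  co2 : S_co2
  twf : S_twf
  ram : S_ram
  chr : S_chr
  prm : S_prm

lemma t_ne (H : Lemmas) (hN : 1 ≤ N) (ha : IsNewform N a) (hq : q.Prime) [NeZero q]
    (hqN : ¬ q ∣ N) {χ : DirichletCharacter ℂ q} (h : OddQuadratic q χ) :
    (gs χ).im * ((1 - 1 / (q : ℝ)) * (((q : ℝ) + 1) ^ 2 - (a q : ℝ) ^ 2)) ≠ 0 := by
  have h1 := H.ram N a q hN ha.toIsForm ha.one hq (ha.hecke q hq hqN)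
  have h2 : |(a q : ℝ)| ≤ q := by exact_mod_cast h1
  have h3 : (1 : ℝ) < q := by exact_mod_cast hq.one_lt
  have h4 : (a q : ℝ) ^ 2 ≤ (q : ℝ) ^ 2 := sq_le_sq' (abs_le.1 h2).1 (abs_le.1 h2).2
  have h5 : 0 < 1 - 1 / (q : ℝ) := by
    rw [sub_pos, div_lt_one (by linarith)]
    exact h3
  have h6 : 0 < ((q : ℝ) + 1) ^ 2 - (a q : ℝ) ^ 2 := by nlinarith
  exact mul_ne_zero (abs_pos.1 (gs_im_pos h)) (mul_pos h5 h6).ne'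

/-- The real part divided by the real period. -/
noncomputable def Lre (Ω₁ : ℂ) : ℂ →ₗ[ℝ] ℝ := (Ω₁.re)⁻¹ • Complex.reLm

lemma Lre_eq (z : ℂ) : Lre Ω₁ z = z.re / Ω₁.re := by
  simp [Lre]
  ring

lemma Lre_iff (hb : IsBasis N a Ω₁ Ω₂) (z : ℂ) (Y : ℝ) : |Lre Ω₁ z| ≤ Y ↔ |z.re| ≤ Y * Ω₁.re := by
  rw [Lre_eq, abs_div, abs_of_pos hb.re₁, div_le_iff₀ hb.re₁]

lemma re_le_coords (hb : IsBasis N a Ω₁ Ω₂) {z : ℂ} {X Y : ℝ} (h1 : |L₁ Ω₁ Ω₂ z| ≤ X)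
    (h2 : |L₂ Ω₂ z| ≤ Y) : |Lre Ω₁ z| ≤ X + Y := by
  rw [Lre_iff hb]
  have h3 : z.re = L₁ Ω₁ Ω₂ z * Ω₁.re + Ω₂.re * L₂ Ω₂ z := by
    have h4 := hb.re₁.ne'
    rw [L₁_eq]
    field_simp
    ring
  rw [h3]
  refine (abs_add_le _ _).trans ?_
  rw [abs_mul, abs_mul, abs_of_pos hb.re₁, abs_of_nonneg hb.re₂]
  have h4 := hb.re₂'.le
  have h5 := hb.re₂
  have h6 := abs_nonneg (L₂ Ω₂ z)
  have h7 := hb.re₁
  nlinarith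

/-- Q1 gives both bounds for the twists. -/
lemma twist_of_Q1 (H : Lemmas) (hN : 1 ≤ N) (ha : IsNewform N a) (hq : q.Prime) [NeZero q]
    (hqN : ¬ q ∣ N) {χ : DirichletCharacter ℂ q} (h : OddQuadratic q χ)
    (htw : ∀ n : ℕ, (a' n : ℂ) = χ (n : ZMod q) * (a n : ℂ))
    (hb' : IsBasis (N * q ^ 2) a' Ω₁' Ω₂') {B : ℝ} (hB0 : 0 ≤ B)
    (hB : ∀ Ω₁ Ω₂ : ℂ, IsBasis N a Ω₁ Ω₂ → ∀ γ : SL(2, ℤ), InG N γ →
      Bounded ((N : ℤ) ^ 2) γ → |L₁ Ω₁ Ω₂ (Hs a γ)| ≤ B ∧ |L₂ Ω₂ (Hs a γ)| ≤ B)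
    {γ : SL(2, ℤ)} (hγ : InG (N * q ^ 2) γ)
    (hX : Bounded (((N * q ^ 2 : ℕ) : ℤ) ^ 2) γ) :
    |L₁ Ω₁' Ω₂' (Hs a' γ)| ≤ 10 * q * B * N * ((N * q ^ 2 : ℕ) : ℝ) ^ 2 ∧
      |L₂ Ω₂' (Hs a' γ)| ≤ 10 * q * B * N * ((N * q ^ 2 : ℕ) : ℝ) ^ 2 := by
  have hM : 1 ≤ N * q ^ 2 := Nat.one_le_iff_ne_zero.2 (by
    have := hq.ne_zero
    positivity)
  set M := N * q ^ 2 with hMdef
  have hM1 : (1 : ℝ) ≤ (M : ℝ) := by exact_mod_cast hM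
  have hK : (1 : ℝ) ≤ (M : ℝ) ^ 2 := one_le_pow₀ hM1
  have ha' : IsForm M a' := H.twf M q a a' χ hM
    (isForm_raise ha.toIsForm (dvd_mul_right N (q ^ 2))) (dvd_mul_left (q ^ 2) N) h htw
  have hc1 := comb_twist hq ha.toIsForm h htw
  have hc2 := comb_inv H.st1 H.st2 H.trf H.co1 H.co2 H.twf hN ha.toIsForm hq hqN
    (ha.hecke q hq hqN) h htw
  have ht1 : (gs χ).im ≠ 0 := abs_pos.1 (gs_im_pos h)
  have ht2 := t_ne H hN ha hq hqN h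
  rw [← hMdef] at hc1 hc2
  obtain ⟨Ω₁, Ω₂, hb⟩ := comb_basis ha' ha.toIsForm hc1 hc2 ht1 ht2 hb'
  have hcast : ∀ δ : SL(2, ℤ), |δ 1 0| ≤ 1 * ((M : ℕ) : ℤ) ^ 2 →
      |((δ 1 0 : ℤ) : ℝ)| ≤ (M : ℝ) ^ 2 := by
    intro δ hδ
    rw [one_mul] at hδ
    exact_mod_cast hδ
  have g2 : ∀ δ : SL(2, ℤ), InG N δ → |δ 1 0| ≤ 1 * ((M : ℕ) : ℤ) ^ 2 →
      |L₂ Ω₂ (Hs a δ)| ≤ 2 * B * N * (M : ℝ) ^ 2 := fun δ hδ hδ' =>
    grow hN ha.toIsForm (L₂ Ω₂) (fun γ h1 h2 => (hB Ω₁ Ω₂ hb γ h1 h2).2) hK hδ (hcast δ hδ')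
  have g1 : ∀ δ : SL(2, ℤ), InG N δ → |δ 1 0| ≤ 1 * ((M : ℕ) : ℤ) ^ 2 →
      |(Hs a δ).re| ≤ (2 * (B + B) * N * (M : ℝ) ^ 2) * Ω₁.re := fun δ hδ hδ' =>
    (Lre_iff hb _ _).1 (grow hN ha.toIsForm (Lre Ω₁) (fun γ h1 h2 =>
      re_le_coords hb (hB Ω₁ Ω₂ hb γ h1 h2).1 (hB Ω₁ Ω₂ hb γ h1 h2).2) hK hδ (hcast δ hδ'))
  have r1 := comb_re ha' ha.toIsForm hc1 ht1 hb' hb (by positivity) g2 hγ hX
  have r2 := comb_im ha' ha.toIsForm hc1 ht1 hb' hb (by positivity) g1 hγ hX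
  have r3 := first_bound hb' r1 r2
  rw [ZMod.card] at r2 r3
  constructor
  · refine r3.trans (le_of_eq ?_)
    ring
  · refine r2.trans ?_
    have : (0 : ℝ) ≤ q * B * N * (M : ℝ) ^ 2 := by positivity
    nlinarith

/-- The second coordinate for the twists gives the real part. -/
lemma Q1_of_second (H : Lemmas) (hN : 1 ≤ N) (ha : IsNewform N a) (hq : q.Prime) [NeZero q]
    (hqN : ¬ q ∣ N) {χ : DirichletCharacter ℂ q} (h : OddQuadratic q χ)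
    (htw : ∀ n : ℕ, (a' n : ℂ) = χ (n : ZMod q) * (a n : ℂ))
    (hb : IsBasis N a Ω₁ Ω₂) {B : ℝ} (hB0 : 0 ≤ B)
    (hB : ∀ Ω₁' Ω₂' : ℂ, IsBasis (N * q ^ 2) a' Ω₁' Ω₂' → ∀ γ : SL(2, ℤ),
      InG (N * q ^ 2) γ → Bounded (((N * q ^ 2 : ℕ) : ℤ) ^ 2) γ → |L₂ Ω₂' (Hs a' γ)| ≤ B)
    {γ : SL(2, ℤ)} (hγ : InG N γ) (hX : Bounded ((N : ℤ) ^ 2) γ) :
    |(Hs a γ).re| ≤ ((q + 1) * q * q) * (2 * B * ((N * q ^ 2 : ℕ) : ℝ) *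
      (16 * (N : ℝ) ^ 6 * (q : ℝ) ^ 6)) * Ω₁.re := by
  have hM : 1 ≤ N * q ^ 2 := Nat.one_le_iff_ne_zero.2 (by
    have := hq.ne_zero
    positivity)
  set M := N * q ^ 2 with hMdef
  have hM1 : (1 : ℝ) ≤ (M : ℝ) := by exact_mod_cast hM
  have hN1 : (1 : ℝ) ≤ (N : ℝ) := by exact_mod_cast hN
  have hq1 : (1 : ℝ) ≤ (q : ℝ) := by exact_mod_cast hq.one_lt.le
  have hK : (1 : ℝ) ≤ 16 * (N : ℝ) ^ 6 * (q : ℝ) ^ 6 := by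
    have h1 : (1 : ℝ) ≤ (N : ℝ) ^ 6 := one_le_pow₀ hN1
    have h2 : (1 : ℝ) ≤ (q : ℝ) ^ 6 := one_le_pow₀ hq1
    nlinarith
  have ha' : IsForm M a' := H.twf M q a a' χ hM
    (isForm_raise ha.toIsForm (dvd_mul_right N (q ^ 2))) (dvd_mul_left (q ^ 2) N) h htw
  have hc1 := comb_twist hq ha.toIsForm h htw
  have hc2 := comb_inv H.st1 H.st2 H.trf H.co1 H.co2 H.twf hN ha.toIsForm hq hqN
    (ha.hecke q hq hqN) h htw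
  have ht1 : (gs χ).im ≠ 0 := abs_pos.1 (gs_im_pos h)
  have ht2 := t_ne H hN ha hq hqN h
  rw [← hMdef] at hc1 hc2
  obtain ⟨Ω₁', Ω₂', hb'⟩ := comb_basis ha.toIsForm ha' hc2 hc1 ht2 ht1 hb
  have hcast : ∀ δ : SL(2, ℤ), |δ 1 0| ≤ 16 * (N : ℤ) ^ 4 * (q : ℤ) ^ 6 * (N : ℤ) ^ 2 →
      |((δ 1 0 : ℤ) : ℝ)| ≤ 16 * (N : ℝ) ^ 6 * (q : ℝ) ^ 6 := by
    intro δ hδ
    have h1 : |((δ 1 0 : ℤ) : ℝ)| ≤ 16 * (N : ℝ) ^ 4 * (q : ℝ) ^ 6 * (N : ℝ) ^ 2 := by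
      exact_mod_cast hδ
    refine h1.trans (le_of_eq ?_)
    ring
  have g2 : ∀ δ : SL(2, ℤ), InG M δ → |δ 1 0| ≤ 16 * (N : ℤ) ^ 4 * (q : ℤ) ^ 6 * (N : ℤ) ^ 2 →
      |L₂ Ω₂' (Hs a' δ)| ≤ 2 * B * M * (16 * (N : ℝ) ^ 6 * (q : ℝ) ^ 6) := fun δ hδ hδ' =>
    grow hM ha' (L₂ Ω₂') (fun γ h1 h2 => hB Ω₁' Ω₂' hb' γ h1 h2) hK hδ (hcast δ hδ')
  have r1 := comb_re ha.toIsForm ha' hc2 ht2 hb hb' (by positivity) g2 hγ hX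
  refine r1.trans (le_of_eq ?_)
  rw [Fintype.card_prod, Fintype.card_prod, ZMod.card, Fintype.card_fin, Fintype.card_fin]
  push_cast
  ring

/-- The first coordinate for the twists gives the second coordinate. -/
lemma Q1_of_first (H : Lemmas) (hN : 1 ≤ N) (ha : IsNewform N a) (hq : q.Prime) [NeZero q]
    (hqN : ¬ q ∣ N) {χ : DirichletCharacter ℂ q} (h : OddQuadratic q χ)
    (htw : ∀ n : ℕ, (a' n : ℂ) = χ (n : ZMod q) * (a n : ℂ))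
    (hb : IsBasis N a Ω₁ Ω₂) {B : ℝ} (hB0 : 0 ≤ B)
    (hB : ∀ Ω₁' Ω₂' : ℂ, IsBasis (N * q ^ 2) a' Ω₁' Ω₂' → ∀ γ : SL(2, ℤ),
      InG (N * q ^ 2) γ → Bounded (((N * q ^ 2 : ℕ) : ℤ) ^ 2) γ → |L₁ Ω₁' Ω₂' (Hs a' γ)| ≤ B)
    {γ : SL(2, ℤ)} (hγ : InG N γ) (hX : Bounded ((N : ℤ) ^ 2) γ) :
    |L₂ Ω₂ (Hs a γ)| ≤ 2 * ((q + 1) * q * q) * (2 * B * ((N * q ^ 2 : ℕ) : ℝ) *
      (16 * (N : ℝ) ^ 6 * (q : ℝ) ^ 6)) := by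
  have hM : 1 ≤ N * q ^ 2 := Nat.one_le_iff_ne_zero.2 (by
    have := hq.ne_zero
    positivity)
  set M := N * q ^ 2 with hMdef
  have hM1 : (1 : ℝ) ≤ (M : ℝ) := by exact_mod_cast hM
  have hN1 : (1 : ℝ) ≤ (N : ℝ) := by exact_mod_cast hN
  have hq1 : (1 : ℝ) ≤ (q : ℝ) := by exact_mod_cast hq.one_lt.le
  have hK : (1 : ℝ) ≤ 16 * (N : ℝ) ^ 6 * (q : ℝ) ^ 6 := by
    have h1 : (1 : ℝ) ≤ (N : ℝ) ^ 6 := one_le_pow₀ hN1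
    have h2 : (1 : ℝ) ≤ (q : ℝ) ^ 6 := one_le_pow₀ hq1
    nlinarith
  have ha' : IsForm M a' := H.twf M q a a' χ hM
    (isForm_raise ha.toIsForm (dvd_mul_right N (q ^ 2))) (dvd_mul_left (q ^ 2) N) h htw
  have hc1 := comb_twist hq ha.toIsForm h htw
  have hc2 := comb_inv H.st1 H.st2 H.trf H.co1 H.co2 H.twf hN ha.toIsForm hq hqN
    (ha.hecke q hq hqN) h htw
  have ht1 : (gs χ).im ≠ 0 := abs_pos.1 (gs_im_pos h)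
  have ht2 := t_ne H hN ha hq hqN h
  rw [← hMdef] at hc1 hc2
  obtain ⟨Ω₁', Ω₂', hb'⟩ := comb_basis ha.toIsForm ha' hc2 hc1 ht2 ht1 hb
  have hcast : ∀ δ : SL(2, ℤ), |δ 1 0| ≤ 16 * (N : ℤ) ^ 4 * (q : ℤ) ^ 6 * (N : ℤ) ^ 2 →
      |((δ 1 0 : ℤ) : ℝ)| ≤ 16 * (N : ℝ) ^ 6 * (q : ℝ) ^ 6 := by
    intro δ hδ
    have h1 : |((δ 1 0 : ℤ) : ℝ)| ≤ 16 * (N : ℝ) ^ 4 * (q : ℝ) ^ 6 * (N : ℝ) ^ 2 := by
      exact_mod_cast hδ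
    refine h1.trans (le_of_eq ?_)
    ring
  have g0 : ∀ δ : SL(2, ℤ), InG M δ → Bounded ((M : ℤ) ^ 2) δ → |Lre Ω₁' (Hs a' δ)| ≤ B := by
    intro δ h1 h2
    have e1 := hB Ω₁' Ω₂' hb' δ h1 h2
    have e2 := hB Ω₁' Ω₂' hb' (flip δ) (inG_flip h1) (bounded_flip h2)
    rw [Hs_flip] at e2
    set z := Hs a' δ
    have e3 : L₁ Ω₁' Ω₂' z + L₁ Ω₁' Ω₂' ((starRingEnd ℂ) z) = 2 * Lre Ω₁' z := by
      rw [← map_add, L₁_eq, L₂_eq, Lre_eq]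
      simp
      ring
    have e4 : |2 * Lre Ω₁' z| ≤ 2 * B := by
      rw [← e3]
      refine (abs_add_le _ _).trans ?_
      linarith
    rw [abs_mul, abs_of_pos (by norm_num : (0:ℝ) < 2)] at e4
    linarith
  have g1 : ∀ δ : SL(2, ℤ), InG M δ → |δ 1 0| ≤ 16 * (N : ℤ) ^ 4 * (q : ℤ) ^ 6 * (N : ℤ) ^ 2 →
      |(Hs a' δ).re| ≤ (2 * B * M * (16 * (N : ℝ) ^ 6 * (q : ℝ) ^ 6)) * Ω₁'.re := fun δ hδ hδ' =>
    (Lre_iff hb' _ _).1 (grow hM ha' (Lre Ω₁') g0 hK hδ (hcast δ hδ'))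
  have r1 := comb_im ha.toIsForm ha' hc2 ht2 hb hb' (by positivity) g1 hγ hX
  refine r1.trans (le_of_eq ?_)
  rw [Fintype.card_prod, Fintype.card_prod, ZMod.card, Fintype.card_fin, Fintype.card_fin]
  push_cast
  ring

/-- The final constants. -/
lemma constants {N q : ℕ} {C κ B₀ B : ℝ} (hN : 1 ≤ N) (hq : q ≤ 4 * N) (hC : 0 < C) (hκ : 0 < κ)
    (hB₀ : B₀ = C * (N : ℝ) ^ κ) (hB : B = C * ((N * q ^ 2 : ℕ) : ℝ) ^ κ) :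
    2 * ((q + 1) * q * q) * (2 * B * ((N * q ^ 2 : ℕ) : ℝ) * (16 * (N : ℝ) ^ 6 * (q : ℝ) ^ 6)) + B₀ ≤
      (335544321 * C * (16 : ℝ) ^ κ) * (N : ℝ) ^ (3 * κ + 18) := by
  have hN0 : (0 : ℝ) < N := by exact_mod_cast hN
  have hN1 : (1 : ℝ) ≤ N := by exact_mod_cast hN
  have hq' : (q : ℝ) ≤ 4 * N := by exact_mod_cast hq
  have hq0 : (0 : ℝ) ≤ q := Nat.cast_nonneg q
  have h1 : ((N * q ^ 2 : ℕ) : ℝ) ≤ 16 * (N : ℝ) ^ 3 := by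
    push_cast
    calc (N : ℝ) * (q : ℝ) ^ 2 ≤ N * (4 * N) ^ 2 := by gcongr
      _ = 16 * (N : ℝ) ^ 3 := by ring
  have h2 : ((N * q ^ 2 : ℕ) : ℝ) ^ κ ≤ (16 : ℝ) ^ κ * (N : ℝ) ^ (3 * κ) := by
    calc ((N * q ^ 2 : ℕ) : ℝ) ^ κ ≤ (16 * (N : ℝ) ^ 3) ^ κ :=
          Real.rpow_le_rpow (Nat.cast_nonneg _) h1 hκ.le
      _ = (16 : ℝ) ^ κ * (N : ℝ) ^ (3 * κ) := by
          rw [Real.mul_rpow (by norm_num) (by positivity), ← Real.rpow_natCast (N : ℝ) 3,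
            ← Real.rpow_mul hN0.le]
          norm_num
  have h3 : (q : ℝ) + 1 ≤ 5 * N := by linarith
  have h4 : ((q : ℝ) + 1) * q * q ≤ 80 * (N : ℝ) ^ 3 := by
    calc ((q : ℝ) + 1) * q * q ≤ (5 * N) * (4 * N) * (4 * N) := by gcongr
      _ = 80 * (N : ℝ) ^ 3 := by ring
  have h5 : 16 * (N : ℝ) ^ 6 * (q : ℝ) ^ 6 ≤ 65536 * (N : ℝ) ^ 12 := by
    calc 16 * (N : ℝ) ^ 6 * (q : ℝ) ^ 6 ≤ 16 * (N : ℝ) ^ 6 * (4 * N) ^ 6 := by gcongr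
      _ = 65536 * (N : ℝ) ^ 12 := by ring
  have hP : (0 : ℝ) < (16 : ℝ) ^ κ := by positivity
  have hP1 : (1 : ℝ) ≤ (16 : ℝ) ^ κ := Real.one_le_rpow (by norm_num) hκ.le
  have hQ : (0 : ℝ) < (N : ℝ) ^ (3 * κ) := by positivity
  have h6 : B ≤ C * ((16 : ℝ) ^ κ * (N : ℝ) ^ (3 * κ)) := by
    rw [hB]
    gcongr
  have hBnn : 0 ≤ B := by rw [hB]; positivity
  have h7 : (N : ℝ) ^ (3 * κ + 18) = (N : ℝ) ^ (3 * κ) * (N : ℝ) ^ 18 := by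
    rw [Real.rpow_add hN0]
    congr 1
    exact_mod_cast Real.rpow_natCast (N : ℝ) 18
  have h8 : B₀ ≤ C * (16 : ℝ) ^ κ * (N : ℝ) ^ (3 * κ + 18) := by
    rw [hB₀]
    have e1 : (N : ℝ) ^ κ ≤ (N : ℝ) ^ (3 * κ + 18) :=
      Real.rpow_le_rpow_of_exponent_le hN1 (by linarith)
    calc C * (N : ℝ) ^ κ ≤ C * (N : ℝ) ^ (3 * κ + 18) := by gcongr
      _ = C * 1 * (N : ℝ) ^ (3 * κ + 18) := by ring
      _ ≤ C * (16 : ℝ) ^ κ * (N : ℝ) ^ (3 * κ + 18) := by gcongr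
  have h9 : 2 * (((q : ℝ) + 1) * q * q) * (2 * B * ((N * q ^ 2 : ℕ) : ℝ) *
      (16 * (N : ℝ) ^ 6 * (q : ℝ) ^ 6)) ≤
      335544320 * C * (16 : ℝ) ^ κ * (N : ℝ) ^ (3 * κ + 18) := by
    calc 2 * (((q : ℝ) + 1) * q * q) * (2 * B * ((N * q ^ 2 : ℕ) : ℝ) *
      (16 * (N : ℝ) ^ 6 * (q : ℝ) ^ 6))
        ≤ 2 * (80 * (N : ℝ) ^ 3) * (2 * (C * ((16 : ℝ) ^ κ * (N : ℝ) ^ (3 * κ))) *
          (16 * (N : ℝ) ^ 3) * (65536 * (N : ℝ) ^ 12)) := by gcongr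
      _ = 335544320 * C * (16 : ℝ) ^ κ * (N : ℝ) ^ (3 * κ + 18) := by
          rw [h7]
          ring
  calc 2 * (((q : ℝ) + 1) * q * q) * (2 * B * ((N * q ^ 2 : ℕ) : ℝ) *
      (16 * (N : ℝ) ^ 6 * (q : ℝ) ^ 6)) + B₀
      ≤ 335544320 * C * (16 : ℝ) ^ κ * (N : ℝ) ^ (3 * κ + 18) +
        C * (16 : ℝ) ^ κ * (N : ℝ) ^ (3 * κ + 18) := add_le_add h9 h8
    _ = (335544321 * C * (16 : ℝ) ^ κ) * (N : ℝ) ^ (3 * κ + 18) := by ring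

/-- A twist with integer coefficients exists. -/
lemma exists_twist {χ : DirichletCharacter ℂ q} (h : OddQuadratic q χ) (a : ℕ → ℤ) :
    ∃ a' : ℕ → ℤ, ∀ n : ℕ, (a' n : ℂ) = χ (n : ZMod q) * (a n : ℂ) := by
  choose e he _ using fun u : ZMod q => chi_val h u
  exact ⟨fun n => e n * a n, fun n => by rw [he]; push_cast; rfl⟩

/-- **Q1 is a question on one coordinate.** -/
theorem all_tfae (H : Lemmas) : List.TFAE [EntriesAtMost 2, Question NewformOrTwist CoordBound,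
    Question NewformOrTwist FirstBound, Question NewformOrTwist SecondBound] := by
  tfae_have 2 → 3 := by
    rintro ⟨κ, hκ, C, hC, h⟩
    refine ⟨κ, hκ, C, hC, ?_⟩
    intro N hN a ha Ω₁ Ω₂ hb p q r s hd hr hp hq hr' hs m n hmn
    exact (h N hN a ha Ω₁ Ω₂ hb p q r s hd hr hp hq hr' hs m n hmn).1
  tfae_have 2 → 4 := by
    rintro ⟨κ, hκ, C, hC, h⟩
    refine ⟨κ, hκ, C, hC, ?_⟩
    intro N hN a ha Ω₁ Ω₂ hb p q r s hd hr hp hq hr' hs m n hmn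
    exact (h N hN a ha Ω₁ Ω₂ hb p q r s hd hr hp hq hr' hs m n hmn).2
  tfae_have 1 → 2 := by
    rintro ⟨κ, hκ, C, hC, h⟩
    refine ⟨κ + 4, by positivity, 10 * C, by positivity, ?_⟩
    intro N hN a ha Ω₁ Ω₂ hb p q r s hd hr hp hq hr' hs m n hmn
    have hN0 : (0 : ℝ) < N := by exact_mod_cast hN
    have hN1 : (1 : ℝ) ≤ N := by exact_mod_cast hN
    rcases ha with ha | ⟨N₀, a₀, ℓ, χ, ha₀, hℓ, hℓN, rfl, hχ, htw⟩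
    · have h1 := h N hN a ha Ω₁ Ω₂ hb p q r s hd hr hp hq hr' hs m n hmn
      have h2 : C * (N : ℝ) ^ κ ≤ 10 * C * (N : ℝ) ^ (κ + 4) := by
        have e1 : (N : ℝ) ^ κ ≤ (N : ℝ) ^ (κ + 4) :=
          Real.rpow_le_rpow_of_exponent_le hN1 (by linarith)
        have e2 : (0 : ℝ) < (N : ℝ) ^ (κ + 4) := by positivity
        calc C * (N : ℝ) ^ κ ≤ C * (N : ℝ) ^ (κ + 4) := by gcongr
          _ ≤ 10 * C * (N : ℝ) ^ (κ + 4) := by nlinarith [mul_pos hC e2]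
      exact ⟨h1.1.trans h2, h1.2.trans h2⟩
    · have : NeZero ℓ := ⟨hℓ.ne_zero⟩
      have hN₀ : 1 ≤ N₀ := by
        rcases Nat.eq_zero_or_pos N₀ with h0 | h0
        · rw [h0] at hN
          simp at hN
        · exact h0
      set B : ℝ := C * (N₀ : ℝ) ^ κ with hB
      have key := twist_of_Q1 H hN₀ ha₀ hℓ hℓN hχ htw hb (B := B) (by positivity) (by
        intro w₁ w₂ hw γ hγ hγ'
        obtain ⟨m', n', hmn'⟩ := lattice ha₀.toIsForm hw (z := Hs a₀ γ) ⟨γ, hγ, rfl⟩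
        have h1 := h N₀ hN₀ a₀ ha₀ w₁ w₂ hw (γ 0 0) (γ 0 1) (γ 1 0) (γ 1 1) (det_eq γ) hγ
          (hγ' 0 0) (hγ' 0 1) (hγ' 1 0) (hγ' 1 1) m' n' hmn'
        rw [hmn', L₁_apply hw, L₂_apply hw]
        exact h1) (γ := mk p q r s hd) hr (by
        intro i j
        fin_cases i <;> fin_cases j
        · exact hp
        · exact hq
        · exact hr'
        · exact hs)
      have hH : Hs a (mk p q r s hd) = (m : ℂ) * Ω₁ + (n : ℂ) * Ω₂ := hmn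
      rw [hH, L₁_apply hb, L₂_apply hb] at key
      have hM : (N₀ : ℝ) ≤ ((N₀ * ℓ ^ 2 : ℕ) : ℝ) := by
        exact_mod_cast Nat.le_mul_of_pos_right N₀ (pow_pos hℓ.pos 2)
      have hM2 : (ℓ : ℝ) ≤ ((N₀ * ℓ ^ 2 : ℕ) : ℝ) := by
        have e1 : ℓ ≤ N₀ * ℓ ^ 2 := by
          calc ℓ ≤ ℓ ^ 2 := by rw [pow_two]; exact Nat.le_mul_self ℓ
            _ ≤ N₀ * ℓ ^ 2 := Nat.le_mul_of_pos_left _ hN₀
        exact_mod_cast e1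
      set X : ℝ := ((N₀ * ℓ ^ 2 : ℕ) : ℝ) with hX
      have e2 : B ≤ C * X ^ κ := by
        rw [hB]
        have := Real.rpow_le_rpow (Nat.cast_nonneg N₀) hM hκ.le
        gcongr
      have e3 : 10 * (ℓ : ℝ) * B * N₀ * X ^ 2 ≤ 10 * C * X ^ (κ + 4) := by
        have e4 : X ^ (κ + 4) = X ^ κ * X ^ 4 := by
          rw [Real.rpow_add hN0]
          congr 1
          exact_mod_cast Real.rpow_natCast X 4
        rw [e4]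
        have hB0 : 0 ≤ B := by positivity
        have hX0 : 0 < X := hN0
        calc 10 * (ℓ : ℝ) * B * N₀ * X ^ 2 ≤ 10 * X * (C * X ^ κ) * X * X ^ 2 := by gcongr
          _ = 10 * C * (X ^ κ * X ^ 4) := by ring
      exact ⟨key.1.trans e3, key.2.trans e3⟩
  tfae_have 4 → 1 := by
    rintro ⟨κ, hκ, C, hC, h⟩
    refine ⟨3 * κ + 18, by positivity, 335544321 * C * (16 : ℝ) ^ κ, by positivity, ?_⟩
    intro N hN a ha Ω₁ Ω₂ hb p q r s hd hr hp hq hr' hs m n hmn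
    obtain ⟨ℓ, hℓ, hℓ4, hℓN, hℓle⟩ := H.prm N hN
    obtain ⟨χ, hχ⟩ := H.chr ℓ hℓ hℓ4
    have : NeZero ℓ := ⟨hℓ.ne_zero⟩
    obtain ⟨a', htw⟩ := exists_twist hχ a
    have hM : 1 ≤ N * ℓ ^ 2 := Nat.one_le_iff_ne_zero.2 (by
      have := hℓ.ne_zero
      positivity)
    have ha' : IsForm (N * ℓ ^ 2) a' := H.twf (N * ℓ ^ 2) ℓ a a' χ hM
      (isForm_raise ha.toIsForm (dvd_mul_right N (ℓ ^ 2))) (dvd_mul_left (ℓ ^ 2) N) hχ htw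
    have hcl : NewformOrTwist (N * ℓ ^ 2) a' :=
      Or.inr ⟨N, a, ℓ, χ, ha, hℓ, hℓN, rfl, hχ, htw⟩
    have h0 := h N hN a (Or.inl ha) Ω₁ Ω₂ hb p q r s hd hr hp hq hr' hs m n hmn
    set γ := mk p q r s hd with hγdef
    have hγB : Bounded ((N : ℤ) ^ 2) γ := by
      intro i j
      fin_cases i <;> fin_cases j
      · exact hp
      · exact hq
      · exact hr'
      · exact hs
    have key := Q1_of_second H hN ha hℓ hℓN hχ htw hb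
      (B := C * ((N * ℓ ^ 2 : ℕ) : ℝ) ^ κ) (by positivity) (by
      intro w₁ w₂ hw δ hδ hδ'
      exact second_apply ha' hw hδ (h (N * ℓ ^ 2) hM a' hcl w₁ w₂ hw _ _ _ _ (det_eq δ) hδ
        (hδ' 0 0) (hδ' 0 1) (hδ' 1 0) (hδ' 1 1))) (γ := γ) hr hγB
    have hH : Hs a γ = (m : ℂ) * Ω₁ + (n : ℂ) * Ω₂ := hmn
    have k2 : |L₂ Ω₂ (Hs a γ)| ≤ C * (N : ℝ) ^ κ := by
      rw [hH, L₂_apply hb]
      exact h0
    have k3 := first_bound hb key k2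
    rw [hH, L₁_apply hb] at k3
    have hcon := constants hN hℓle hC hκ rfl rfl
    have hpos : 0 ≤ ((ℓ : ℝ) + 1) * ℓ * ℓ * (2 * (C * ((N * ℓ ^ 2 : ℕ) : ℝ) ^ κ) *
      ((N * ℓ ^ 2 : ℕ) : ℝ) * (16 * (N : ℝ) ^ 6 * (ℓ : ℝ) ^ 6)) := by positivity
    constructor
    · refine (k3.trans ?_).trans hcon
      linarith
    · refine (h0.trans ?_).trans hcon
      linarith
  tfae_have 3 → 1 := by
    rintro ⟨κ, hκ, C, hC, h⟩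
    refine ⟨3 * κ + 18, by positivity, 335544321 * C * (16 : ℝ) ^ κ, by positivity, ?_⟩
    intro N hN a ha Ω₁ Ω₂ hb p q r s hd hr hp hq hr' hs m n hmn
    obtain ⟨ℓ, hℓ, hℓ4, hℓN, hℓle⟩ := H.prm N hN
    obtain ⟨χ, hχ⟩ := H.chr ℓ hℓ hℓ4
    have : NeZero ℓ := ⟨hℓ.ne_zero⟩
    obtain ⟨a', htw⟩ := exists_twist hχ a
    have hM : 1 ≤ N * ℓ ^ 2 := Nat.one_le_iff_ne_zero.2 (by
      have := hℓ.ne_zero
      positivity)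
    have ha' : IsForm (N * ℓ ^ 2) a' := H.twf (N * ℓ ^ 2) ℓ a a' χ hM
      (isForm_raise ha.toIsForm (dvd_mul_right N (ℓ ^ 2))) (dvd_mul_left (ℓ ^ 2) N) hχ htw
    have hcl : NewformOrTwist (N * ℓ ^ 2) a' :=
      Or.inr ⟨N, a, ℓ, χ, ha, hℓ, hℓN, rfl, hχ, htw⟩
    have h0 := h N hN a (Or.inl ha) Ω₁ Ω₂ hb p q r s hd hr hp hq hr' hs m n hmn
    set γ := mk p q r s hd with hγdef
    have hγB : Bounded ((N : ℤ) ^ 2) γ := by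
      intro i j
      fin_cases i <;> fin_cases j
      · exact hp
      · exact hq
      · exact hr'
      · exact hs
    have key := Q1_of_first H hN ha hℓ hℓN hχ htw hb
      (B := C * ((N * ℓ ^ 2 : ℕ) : ℝ) ^ κ) (by positivity) (by
      intro w₁ w₂ hw δ hδ hδ'
      exact first_apply ha' hw hδ (h (N * ℓ ^ 2) hM a' hcl w₁ w₂ hw _ _ _ _ (det_eq δ) hδ
        (hδ' 0 0) (hδ' 0 1) (hδ' 1 0) (hδ' 1 1))) (γ := γ) hr hγB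
    have hH : Hs a γ = (m : ℂ) * Ω₁ + (n : ℂ) * Ω₂ := hmn
    rw [hH, L₂_apply hb] at key
    have hcon := constants hN hℓle hC hκ rfl rfl
    have hpos : 0 ≤ ((ℓ : ℝ) + 1) * ℓ * ℓ * (2 * (C * ((N * ℓ ^ 2 : ℕ) : ℝ) ^ κ) *
      ((N * ℓ ^ 2 : ℕ) : ℝ) * (16 * (N : ℝ) ^ 6 * (ℓ : ℝ) ^ 6)) := by positivity
    have hpos2 : 0 ≤ C * (N : ℝ) ^ κ := by positivity
    constructor
    · refine (h0.trans ?_).trans hcon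
      linarith
    · refine (key.trans ?_).trans hcon
      linarith
  tfae_finish

end Pool.Agent.Q127.SM
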