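import Pool.Agent.Q127.SM.Twist

/-!
# The twisting formula for the Shimura map
-/

open Complex Matrix.SpecialLinearGroup MatrixGroups ModularGroup

namespace Pool.Agent.Q127.SM

open Pool.Agent.TH133.SH

variable {a a' : ℕ → ℤ} {N D : ℕ}

/-- The matrix `(1, u / D; 0, 1) γ (1, -u' / D; 0, 1)` with `u' = s² u`, for `γ` with lower left entry
`D² r₂`. -/
lemma shift_det (p q r₂ s u D : ℤ) (h : p * s - q * (D ^ 2 * r₂) = 1) :
    (p + u * D * r₂) * (s - D * r₂ * s ^ 2 * u) -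
      (q - u * s * q * D * r₂ - u ^ 2 * s ^ 2 * r₂) * (D ^ 2 * r₂) = 1 := by
  linear_combination (1 - D * r₂ * s * u) * h

/-- There is a matrix in `Γ₀(N)` with the same lower left entry as `γ` which carries
`τ + s² u / D` to `γ τ + u / D`. -/
lemma exists_shift (hN : D ^ 2 ∣ N) (hD : D ≠ 0) {γ : SL(2, ℤ)} (hγ : InG N γ) (u : ℤ) :
    ∃ δ : SL(2, ℤ), InG N δ ∧ δ 1 0 = γ 1 0 ∧ ∀ τ : ℂ, 0 < τ.im →
      act δ (τ + (((γ 1 1) ^ 2 * u : ℤ) : ℂ) / (D : ℂ)) = act γ τ + (u : ℂ) / (D : ℂ) := by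
  obtain ⟨r₂, hr₂⟩ : ((D : ℤ) ^ 2) ∣ γ 1 0 := by
    refine dvd_trans ?_ hγ
    exact_mod_cast hN
  have hdet := det_eq γ
  set p := γ 0 0 with hp
  set q := γ 0 1 with hq
  set s := γ 1 1 with hs
  set r := γ 1 0 with hr
  have h1 : (p + u * D * r₂) * (s - D * r₂ * s ^ 2 * u) -
      (q - u * s * q * D * r₂ - u ^ 2 * s ^ 2 * r₂) * r = 1 := by
    rw [hr₂]
    exact shift_det p q r₂ s u D (by rw [← hr₂]; exact hdet)
  refine ⟨mk (p + u * D * r₂) (q - u * s * q * D * r₂ - u ^ 2 * s ^ 2 * r₂) r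
    (s - D * r₂ * s ^ 2 * u) h1, hγ, rfl, ?_⟩
  intro τ hτ
  have hDr : (D : ℝ) ≠ 0 := by exact_mod_cast hD
  have hDc : (D : ℂ) ≠ 0 := by exact_mod_cast hD
  have e1 : act (mk (p + u * D * r₂) (q - u * s * q * D * r₂ - u ^ 2 * s ^ 2 * r₂) r
      (s - D * r₂ * s ^ 2 * u) h1) = mob ((p + u * D * r₂ : ℤ) : ℝ)
      ((q - u * s * q * D * r₂ - u ^ 2 * s ^ 2 * r₂ : ℤ) : ℝ) ((r : ℤ) : ℝ)
      ((s - D * r₂ * s ^ 2 * u : ℤ) : ℝ) := rfl
  have e2 : act γ τ = mob (p : ℝ) (q : ℝ) (r : ℝ) (s : ℝ) τ := rfl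
  have e3 : τ + ((s ^ 2 * u : ℤ) : ℂ) / (D : ℂ) = mob 1 (((s ^ 2 * u : ℤ) : ℝ) / (D : ℝ)) 0 1 τ := by
    rw [mob_T]
    push_cast
    rfl
  have e4 : mob (p : ℝ) (q : ℝ) (r : ℝ) (s : ℝ) τ + (u : ℂ) / (D : ℂ) =
      mob 1 ((u : ℝ) / (D : ℝ)) 0 1 (mob (p : ℝ) (q : ℝ) (r : ℝ) (s : ℝ) τ) := by
    rw [mob_T]
    push_cast
    rfl
  have hdr : (p : ℝ) * s - q * r = 1 := by exact_mod_cast hdet
  have h1r := h1
  have h1r' : (((p + u * D * r₂ : ℤ) : ℝ)) * ((s - D * r₂ * s ^ 2 * u : ℤ) : ℝ) -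
      ((q - u * s * q * D * r₂ - u ^ 2 * s ^ 2 * r₂ : ℤ) : ℝ) * ((r : ℤ) : ℝ) = 1 := by
    exact_mod_cast h1
  rw [e1, e2, e3, e4, mob_mul h1r' (by norm_num) hτ, mob_mul (by norm_num) hdr hτ]
  have hr₂' : (r : ℝ) = (D : ℝ) ^ 2 * (r₂ : ℝ) := by exact_mod_cast hr₂
  congr 1
  · push_cast
    rw [hr₂']
    field_simp
    ring
  · rw [hr₂'] at hdr
    push_cast
    field_simp
    linear_combination (u : ℝ) * (s : ℝ) * hdr
  · ring
  · push_cast
    rw [hr₂']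
    field_simp
    ring

/-- **The twisting formula for the Shimura map**: the values of the Shimura map of the twist are
combinations of values of the Shimura map at matrices with the same lower left entry. -/
theorem twist_Hs [NeZero D] (ha : IsForm N a) (hN : D ^ 2 ∣ N)
    {χ : DirichletCharacter ℂ D} (h : OddQuadratic D χ)
    (htw : ∀ n : ℕ, (a' n : ℂ) = χ (n : ZMod D) * (a n : ℂ)) {γ : SL(2, ℤ)} (hγ : InG N γ) :
    ∃ δ : ZMod D → SL(2, ℤ), (∀ u, InG N (δ u) ∧ (δ u) 1 0 = γ 1 0) ∧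
      gs χ * Hs a' γ = ∑ u : ZMod D, χ u * Hs a (δ u) := by
  have hD : D ≠ 0 := NeZero.ne D
  choose δ h1 h2 h3 using fun u : ZMod D => exists_shift hN hD hγ (u.val : ℤ)
  refine ⟨δ, fun u => ⟨h1 u, h2 u⟩, ?_⟩
  have hI : (0 : ℝ) < Complex.I.im := by simp
  have hsum := ha.summable
  -- the class of the lower right entry
  have hs : IsUnit (((γ 1 1 : ℤ) : ZMod D)) := by
    apply IsUnit.of_mul_eq_one (b := ((γ 0 0 : ℤ) : ZMod D))
    have hr : ((γ 1 0 : ℤ) : ZMod D) = 0 := by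
      rw [ZMod.intCast_zmod_eq_zero_iff_dvd]
      refine dvd_trans ?_ hγ
      exact_mod_cast (dvd_pow_self D (by norm_num)).trans hN
    have hdet := congrArg (fun x : ℤ => (x : ZMod D)) (det_eq γ)
    simp only [Int.cast_sub, Int.cast_mul, Int.cast_one, hr, mul_zero, sub_zero] at hdet
    rw [mul_comm]
    exact hdet
  set c : ZMod D := ((γ 1 1 : ℤ) : ZMod D) with hc
  have hc2 : χ (c ^ 2) = 1 := by
    rw [map_pow]
    have h5 := congrArg (fun ψ : DirichletCharacter ℂ D => ψ c) h.sq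
    simp only [pow_two, MulChar.mul_apply] at h5
    rw [pow_two, h5, MulChar.one_apply hs]
  -- the values of the primitive
  have h4 : ∀ u : ZMod D, Phi a D (act γ Complex.I) u =
      Phi a D Complex.I (c ^ 2 * u) + Hs a (δ u) := by
    intro u
    have him : 0 < (Complex.I + (((γ 1 1) ^ 2 * (u.val : ℤ) : ℤ) : ℂ) / (D : ℂ)).im := by
      have : ((((γ 1 1) ^ 2 * (u.val : ℤ) : ℤ) : ℂ) / (D : ℂ)) =
          (((((γ 1 1) ^ 2 * (u.val : ℤ) : ℤ) : ℝ) / (D : ℝ) : ℝ) : ℂ) := by push_cast; rfl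
      rw [Complex.add_im, this, Complex.ofReal_im, add_zero]
      exact hI
    have h5 := diff_eq ha (h1 u) him
    rw [h3 u Complex.I hI] at h5
    have h6 : Phi a D (act γ Complex.I) u = Fser a (act γ Complex.I + ((u.val : ℤ) : ℂ) / (D : ℂ)) := by
      unfold Phi
      rw [Int.cast_natCast]
    have h7 : Phi a D Complex.I (c ^ 2 * u) =
        Fser a (Complex.I + (((γ 1 1) ^ 2 * (u.val : ℤ) : ℤ) : ℂ) / (D : ℂ)) := by
      rw [← Phi_int]
      congr 1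
      push_cast
      rw [ZMod.natCast_zmod_val]
    rw [h6, h7]
    linear_combination h5
  have h5 : ∑ u : ZMod D, χ u * Phi a D Complex.I (c ^ 2 * u) =
      ∑ u : ZMod D, χ u * Phi a D Complex.I u := by
    have hb : Function.Bijective (fun u : ZMod D => c ^ 2 * u) := by
      have hu : IsUnit (c ^ 2) := hs.pow 2
      refine ⟨fun x y hxy => hu.mul_left_cancel hxy, fun y => ?_⟩
      obtain ⟨v, hv⟩ := hu
      refine ⟨(v⁻¹ : (ZMod D)ˣ) * y, ?_⟩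
      change c ^ 2 * ((v⁻¹ : (ZMod D)ˣ) * y) = y
      rw [← hv, ← mul_assoc, Units.mul_inv, one_mul]
    rw [← hb.sum_comp (fun u : ZMod D => χ u * Phi a D Complex.I u)]
    refine Finset.sum_congr rfl (fun u _ => ?_)
    rw [map_mul, hc2, one_mul]
  rw [Hs_eq, mul_sub, ← twist_Fser hsum h htw (act_im_pos γ hI), ← twist_Fser hsum h htw hI,
    Finset.sum_congr rfl (fun u _ => by rw [h4 u, mul_add] : ∀ u ∈ Finset.univ,
      χ u * Phi a D (act γ Complex.I) u = χ u * Phi a D Complex.I (c ^ 2 * u) + χ u * Hs a (δ u)),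
    Finset.sum_add_distrib, h5]
  ring

/-- The conjugate of a matrix by `diag(-1, 1)`. -/
def flip (γ : SL(2, ℤ)) : SL(2, ℤ) :=
  mk (γ 0 0) (-γ 0 1) (-γ 1 0) (γ 1 1) (by have := det_eq γ; linarith)

lemma inG_flip {γ : SL(2, ℤ)} (hγ : InG N γ) : InG N (flip γ) := (dvd_neg).2 hγ

lemma flip_lower (γ : SL(2, ℤ)) : (flip γ) 1 0 = - γ 1 0 := rfl

/-- The Shimura map commutes with complex conjugation. -/
lemma Hs_flip (a : ℕ → ℤ) (γ : SL(2, ℤ)) : Hs a (flip γ) = (starRingEnd ℂ) (Hs a γ) := by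
  have hI : (0 : ℝ) < Complex.I.im := by simp
  rw [Hs_eq, Hs_eq, map_sub, ← Fser_conj, ← Fser_conj]
  have h1 : -(starRingEnd ℂ) Complex.I = Complex.I := by simp
  rw [h1]
  congr 2
  have e1 : act (flip γ) Complex.I =
      (((γ 0 0 : ℤ) : ℂ) * Complex.I + ((-γ 0 1 : ℤ) : ℂ)) /
        (((-γ 1 0 : ℤ) : ℂ) * Complex.I + ((γ 1 1 : ℤ) : ℂ)) := by
    unfold act mob flip
    rfl
  have e2 : act γ Complex.I = (((γ 0 0 : ℤ) : ℂ) * Complex.I + ((γ 0 1 : ℤ) : ℂ)) /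
        (((γ 1 0 : ℤ) : ℂ) * Complex.I + ((γ 1 1 : ℤ) : ℂ)) := by
    unfold act mob
    push_cast
    rfl
  rw [e1, e2, map_div₀]
  simp only [map_add, map_mul, Complex.conj_I, map_intCast]
  push_cast
  rw [← neg_div]
  congr 1
  · ring
  · ring

end Pool.Agent.Q127.SM
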