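import Pool.Agent.Q127.SM.Main

/-!
# Small lower left entries, and the twists alone
-/

open Complex Matrix.SpecialLinearGroup MatrixGroups ModularGroup

namespace Pool.Agent.Q127.SM

open Pool.Agent.TH133.SH

variable {a a' : ℕ → ℤ} {M N D q : ℕ} {Ω₁ Ω₂ Ω₁' Ω₂' : ℂ}

/-- The question for a family `𝓕` with the bound `P`, only for the matrices whose lower left entry
has absolute value at most `17 * 64 ^ ω(N) * N`. -/
def SmallQuestion (𝓕 : ℕ → (ℕ → ℤ) → Prop)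
    (P : (ℕ → ℤ) → ℂ → ℂ → ℤ → ℤ → ℤ → ℤ → ℝ → Prop) : Prop :=
  ∃ κ : ℝ, 0 < κ ∧ ∃ C : ℝ, 0 < C ∧ ∀ N : ℕ, 1 ≤ N → ∀ a : ℕ → ℤ, 𝓕 N a →
    ∀ Ω₁ Ω₂ : ℂ, IsBasis N a Ω₁ Ω₂ → ∀ p q r s : ℤ, p * s - q * r = 1 → (N : ℤ) ∣ r →
      |r| ≤ smallEntry N → P a Ω₁ Ω₂ p q r s (C * (N : ℝ) ^ κ)

/-- The twists of newforms by the odd quadratic characters modulo primes prime to the level. -/
def Twisted (N : ℕ) (a : ℕ → ℤ) : Prop :=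
  ∃ (N₀ : ℕ) (a₀ : ℕ → ℤ) (q : ℕ) (χ : DirichletCharacter ℂ q),
    IsNewform N₀ a₀ ∧ q.Prime ∧ ¬ q ∣ N₀ ∧ N = N₀ * q ^ 2 ∧ OddQuadratic q χ ∧
      ∀ n : ℕ, (a n : ℂ) = χ (n : ZMod q) * (a₀ n : ℂ)

lemma Twisted.isForm (htwf : S_twf) (hN : 1 ≤ N) (h : Twisted N a) : IsForm N a := by
  obtain ⟨N₀, a₀, q, χ, ha₀, hq, hqN, rfl, hχ, htw⟩ := h
  exact htwf (N₀ * q ^ 2) q a₀ a χ hN
    (isForm_raise ha₀.toIsForm (dvd_mul_right N₀ (q ^ 2))) (dvd_mul_left (q ^ 2) N₀) hχ htw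

lemma small_up (hN : 1 ≤ N) (ha : IsForm N a) (L : ℂ →ₗ[ℝ] ℝ) {X : ℝ}
    (hX : ∀ γ : SL(2, ℤ), InG N γ → |γ 1 0| ≤ smallEntry N → |L (Hs a γ)| ≤ X)
    {γ : SL(2, ℤ)} (hγ : InG N γ) (hB : Bounded ((N : ℤ) ^ 2) γ) :
    |L (Hs a γ)| ≤ 12 * X * (N : ℝ) ^ 2 := by
  have hN1 : (1 : ℝ) ≤ N := by exact_mod_cast hN
  have hX0 : 0 ≤ X := by
    refine (abs_nonneg _).trans (hX 1 inG_one ?_)
    simp
  by_cases h0 : γ 1 0 = 0
  · have h1 := (isCuspHom ha L).zero_of_lower h0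
    rw [h1, abs_zero]
    positivity
  · have h1 := growth_small (isCuspHom ha L) hN hX hγ h0
    refine h1.trans ?_
    have h2 : |((γ 1 0 : ℤ) : ℝ)| ≤ (N : ℝ) ^ 2 := by exact_mod_cast hB 1 0
    have h3 : 0 < |((γ 1 0 : ℤ) : ℝ)| := by
      rw [abs_pos]
      exact_mod_cast h0
    have h4 := Real.log_le_log h3 h2
    rw [Real.log_pow] at h4
    have h5 := Real.log_le_self (x := (N : ℝ)) (by linarith)
    push_cast at h4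
    have h6 : 1 + Real.log |((γ 1 0 : ℤ) : ℝ)| ≤ 3 * N := by linarith
    calc 4 * X * N * (1 + Real.log |((γ 1 0 : ℤ) : ℝ)|) ≤ 4 * X * N * (3 * N) := by gcongr
      _ = 12 * X * (N : ℝ) ^ 2 := by ring

lemma small_down (hN : 1 ≤ N) (ha : IsForm N a) (L : ℂ →ₗ[ℝ] ℝ) {B : ℝ}
    (hB : ∀ γ : SL(2, ℤ), InG N γ → Bounded ((N : ℤ) ^ 2) γ → |L (Hs a γ)| ≤ B)
    {γ : SL(2, ℤ)} (hγ : InG N γ) (h : |γ 1 0| ≤ smallEntry N) :
    |L (Hs a γ)| ≤ 294 * B * (N : ℝ) ^ 2 := by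
  have hN1 : (1 : ℝ) ≤ N := by exact_mod_cast hN
  have hB0 : 0 ≤ B := by
    refine (abs_nonneg _).trans (hB 1 inG_one ?_)
    have hN1 : (1 : ℤ) ≤ N := by exact_mod_cast hN
    intro i j
    fin_cases i <;> fin_cases j <;> simp <;> nlinarith
  by_cases h0 : γ 1 0 = 0
  · have h1 := (isCuspHom ha L).zero_of_lower h0
    rw [h1, abs_zero]
    positivity
  · refine (coord_bound hN ha L hB hγ h0).trans ?_
    have h2 : |((γ 1 0 : ℤ) : ℝ)| ≤ (smallEntry N : ℝ) := by exact_mod_cast h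
    have h3 : 0 < |((γ 1 0 : ℤ) : ℝ)| := by
      rw [abs_pos]
      exact_mod_cast h0
    have h4 := (Real.log_le_log h3 h2).trans (log_smallEntry hN)
    have h6 : 1 + Real.log |((γ 1 0 : ℤ) : ℝ)| ≤ 147 * N := by linarith
    calc 2 * B * N * (1 + Real.log |((γ 1 0 : ℤ) : ℝ)|) ≤ 2 * B * N * (147 * N) := by gcongr
      _ = 294 * B * (N : ℝ) ^ 2 := by ring

lemma rpow_two_add {N : ℕ} (hN : 1 ≤ N) (κ C c : ℝ) :
    c * (C * (N : ℝ) ^ κ) * (N : ℝ) ^ 2 = c * C * (N : ℝ) ^ (κ + 2) := by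
  have hN0 : (0 : ℝ) < N := by exact_mod_cast hN
  have h1 : (N : ℝ) ^ (κ + 2) = (N : ℝ) ^ κ * (N : ℝ) ^ 2 := by
    rw [Real.rpow_add hN0]
    congr 1
    exact_mod_cast Real.rpow_natCast (N : ℝ) 2
  rw [h1]
  ring

lemma bounded_mk {p q r s : ℤ} {X : ℤ} (hd : p * s - q * r = 1) (hp : |p| ≤ X) (hq : |q| ≤ X)
    (hr : |r| ≤ X) (hs : |s| ≤ X) : Bounded X (mk p q r s hd) := by
  intro i j
  fin_cases i <;> fin_cases j
  · exact hp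
  · exact hq
  · exact hr
  · exact hs

lemma first_up {𝓕 : ℕ → (ℕ → ℤ) → Prop} (hF : ∀ N a, 1 ≤ N → 𝓕 N a → IsForm N a)
    (h : SmallQuestion 𝓕 FirstBound) : Question 𝓕 FirstBound := by
  obtain ⟨κ, hκ, C, hC, h⟩ := h
  refine ⟨κ + 2, by positivity, 12 * C, by positivity, ?_⟩
  intro N hN a ha Ω₁ Ω₂ hb p q r s hd hr hp hq hr' hs m n hmn
  have hf := hF N a hN ha
  have h1 := small_up hN hf (L₁ Ω₁ Ω₂) (fun γ h1 h2 => first_apply hf hb h1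
    (h N hN a ha Ω₁ Ω₂ hb _ _ _ _ (det_eq γ) h1 h2)) (γ := mk p q r s hd) hr
    (bounded_mk hd hp hq hr' hs)
  have hH : Hs a (mk p q r s hd) = (m : ℂ) * Ω₁ + (n : ℂ) * Ω₂ := hmn
  rw [hH, L₁_apply hb, rpow_two_add hN] at h1
  exact h1

lemma second_up {𝓕 : ℕ → (ℕ → ℤ) → Prop} (hF : ∀ N a, 1 ≤ N → 𝓕 N a → IsForm N a)
    (h : SmallQuestion 𝓕 SecondBound) : Question 𝓕 SecondBound := by
  obtain ⟨κ, hκ, C, hC, h⟩ := h
  refine ⟨κ + 2, by positivity, 12 * C, by positivity, ?_⟩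
  intro N hN a ha Ω₁ Ω₂ hb p q r s hd hr hp hq hr' hs m n hmn
  have hf := hF N a hN ha
  have h1 := small_up hN hf (L₂ Ω₂) (fun γ h1 h2 => second_apply hf hb h1
    (h N hN a ha Ω₁ Ω₂ hb _ _ _ _ (det_eq γ) h1 h2)) (γ := mk p q r s hd) hr
    (bounded_mk hd hp hq hr' hs)
  have hH : Hs a (mk p q r s hd) = (m : ℂ) * Ω₁ + (n : ℂ) * Ω₂ := hmn
  rw [hH, L₂_apply hb, rpow_two_add hN] at h1
  exact h1

lemma coord_iff {𝓕 : ℕ → (ℕ → ℤ) → Prop} : SmallQuestion 𝓕 CoordBound ↔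
    SmallQuestion 𝓕 FirstBound ∧ SmallQuestion 𝓕 SecondBound := by
  constructor
  · rintro ⟨κ, hκ, C, hC, h⟩
    exact ⟨⟨κ, hκ, C, hC, fun N hN a ha Ω₁ Ω₂ hb p q r s hd hr h1 m n hmn =>
      (h N hN a ha Ω₁ Ω₂ hb p q r s hd hr h1 m n hmn).1⟩,
      ⟨κ, hκ, C, hC, fun N hN a ha Ω₁ Ω₂ hb p q r s hd hr h1 m n hmn =>
      (h N hN a ha Ω₁ Ω₂ hb p q r s hd hr h1 m n hmn).2⟩⟩
  · rintro ⟨⟨κ, hκ, C, hC, h⟩, ⟨κ', hκ', C', hC', h'⟩⟩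
    refine ⟨κ + κ', by positivity, C + C', by positivity, ?_⟩
    intro N hN a ha Ω₁ Ω₂ hb p q r s hd hr h1 m n hmn
    have hN1 : (1 : ℝ) ≤ N := by exact_mod_cast hN
    have e1 : (N : ℝ) ^ κ ≤ (N : ℝ) ^ (κ + κ') :=
      Real.rpow_le_rpow_of_exponent_le hN1 (by linarith)
    have e2 : (N : ℝ) ^ κ' ≤ (N : ℝ) ^ (κ + κ') :=
      Real.rpow_le_rpow_of_exponent_le hN1 (by linarith)
    have e3 : (0 : ℝ) ≤ (N : ℝ) ^ (κ + κ') := by positivity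
    constructor
    · refine (h N hN a ha Ω₁ Ω₂ hb p q r s hd hr h1 m n hmn).trans ?_
      calc C * (N : ℝ) ^ κ ≤ C * (N : ℝ) ^ (κ + κ') := by gcongr
        _ ≤ (C + C') * (N : ℝ) ^ (κ + κ') := by nlinarith
    · refine (h' N hN a ha Ω₁ Ω₂ hb p q r s hd hr h1 m n hmn).trans ?_
      calc C' * (N : ℝ) ^ κ' ≤ C' * (N : ℝ) ^ (κ + κ') := by gcongr
        _ ≤ (C + C') * (N : ℝ) ^ (κ + κ') := by nlinarith

lemma coord_down {𝓕 : ℕ → (ℕ → ℤ) → Prop} (hF : ∀ N a, 1 ≤ N → 𝓕 N a → IsForm N a)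
    (h : Question 𝓕 CoordBound) : SmallQuestion 𝓕 CoordBound := by
  obtain ⟨κ, hκ, C, hC, h⟩ := h
  refine ⟨κ + 2, by positivity, 294 * C, by positivity, ?_⟩
  intro N hN a ha Ω₁ Ω₂ hb p q r s hd hr hs m n hmn
  have hf := hF N a hN ha
  have key : ∀ γ : SL(2, ℤ), InG N γ → Bounded ((N : ℤ) ^ 2) γ →
      |L₁ Ω₁ Ω₂ (Hs a γ)| ≤ C * (N : ℝ) ^ κ ∧ |L₂ Ω₂ (Hs a γ)| ≤ C * (N : ℝ) ^ κ := by
    intro γ h1 h2
    obtain ⟨m', n', hmn'⟩ := lattice hf hb (z := Hs a γ) ⟨γ, h1, rfl⟩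
    rw [hmn', L₁_apply hb, L₂_apply hb]
    exact h N hN a ha Ω₁ Ω₂ hb _ _ _ _ (det_eq γ) h1 (h2 0 0) (h2 0 1) (h2 1 0) (h2 1 1) m' n' hmn'
  have k1 := small_down hN hf (L₁ Ω₁ Ω₂) (fun γ h1 h2 => (key γ h1 h2).1)
    (γ := mk p q r s hd) hr hs
  have k2 := small_down hN hf (L₂ Ω₂) (fun γ h1 h2 => (key γ h1 h2).2)
    (γ := mk p q r s hd) hr hs
  have hH : Hs a (mk p q r s hd) = (m : ℂ) * Ω₁ + (n : ℂ) * Ω₂ := hmn
  rw [hH, L₁_apply hb, rpow_two_add hN] at k1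
  rw [hH, L₂_apply hb, rpow_two_add hN] at k2
  exact ⟨k1, k2⟩

/-- Both coordinates for the twists alone give Q1. -/
lemma twisted_imp (H : Lemmas) (h : SmallQuestion Twisted CoordBound) : EntriesAtMost 2 := by
  have hF : ∀ N a, 1 ≤ N → Twisted N a → IsForm N a := fun N a hN ha => ha.isForm H.twf hN
  obtain ⟨h1, h2⟩ := coord_iff.1 h
  obtain ⟨κ, hκ, C, hC, hfi⟩ := first_up hF h1
  obtain ⟨κ', hκ', C', hC', hse⟩ := second_up hF h2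
  refine ⟨(3 * κ + 18) + (3 * κ' + 18), by positivity,
    335544321 * C * (16 : ℝ) ^ κ + 335544321 * C' * (16 : ℝ) ^ κ', by positivity, ?_⟩
  intro N hN a ha Ω₁ Ω₂ hb p q r s hd hr hp hq hr' hs m n hmn
  obtain ⟨ℓ, hℓ, hℓ4, hℓN, hℓle⟩ := H.prm N hN
  obtain ⟨χ, hχ⟩ := H.chr ℓ hℓ hℓ4
  have : NeZero ℓ := ⟨hℓ.ne_zero⟩
  obtain ⟨a', htw⟩ := exists_twist hχ a
  have hM : 1 ≤ N * ℓ ^ 2 := Nat.one_le_iff_ne_zero.2 (by
    have := hℓ.ne_zero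
    positivity)
  have hcl : Twisted (N * ℓ ^ 2) a' := ⟨N, a, ℓ, χ, ha, hℓ, hℓN, rfl, hχ, htw⟩
  have ha' : IsForm (N * ℓ ^ 2) a' := hF _ _ hM hcl
  have hγB : Bounded ((N : ℤ) ^ 2) (mk p q r s hd) := bounded_mk hd hp hq hr' hs
  have key := Q1_of_second H hN ha hℓ hℓN hχ htw hb
    (B := C' * ((N * ℓ ^ 2 : ℕ) : ℝ) ^ κ') (by positivity) (by
    intro w₁ w₂ hw δ hδ hδ'
    exact second_apply ha' hw hδ (hse (N * ℓ ^ 2) hM a' hcl w₁ w₂ hw _ _ _ _ (det_eq δ) hδ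
      (hδ' 0 0) (hδ' 0 1) (hδ' 1 0) (hδ' 1 1))) (γ := mk p q r s hd) hr hγB
  have key' := Q1_of_first H hN ha hℓ hℓN hχ htw hb
    (B := C * ((N * ℓ ^ 2 : ℕ) : ℝ) ^ κ) (by positivity) (by
    intro w₁ w₂ hw δ hδ hδ'
    exact first_apply ha' hw hδ (hfi (N * ℓ ^ 2) hM a' hcl w₁ w₂ hw _ _ _ _ (det_eq δ) hδ
      (hδ' 0 0) (hδ' 0 1) (hδ' 1 0) (hδ' 1 1))) (γ := mk p q r s hd) hr hγB
  have k3 := first_bound hb key key'
  have hH : Hs a (mk p q r s hd) = (m : ℂ) * Ω₁ + (n : ℂ) * Ω₂ := hmn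
  rw [hH, L₂_apply hb] at key'
  rw [hH, L₁_apply hb] at k3
  have hcon := constants hN hℓle hC hκ rfl rfl
  have hcon' := constants hN hℓle hC' hκ' rfl rfl
  have hpos : 0 ≤ ((ℓ : ℝ) + 1) * ℓ * ℓ * (2 * (C * ((N * ℓ ^ 2 : ℕ) : ℝ) ^ κ) *
    ((N * ℓ ^ 2 : ℕ) : ℝ) * (16 * (N : ℝ) ^ 6 * (ℓ : ℝ) ^ 6)) := by positivity
  have hpos' : 0 ≤ ((ℓ : ℝ) + 1) * ℓ * ℓ * (2 * (C' * ((N * ℓ ^ 2 : ℕ) : ℝ) ^ κ') *
    ((N * ℓ ^ 2 : ℕ) : ℝ) * (16 * (N : ℝ) ^ 6 * (ℓ : ℝ) ^ 6)) := by positivity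
  have hp1 : 0 ≤ C * (N : ℝ) ^ κ := by positivity
  have hp2 : 0 ≤ C' * (N : ℝ) ^ κ' := by positivity
  have hN1 : (1 : ℝ) ≤ N := by exact_mod_cast hN
  have e1 : (N : ℝ) ^ (3 * κ + 18) ≤ (N : ℝ) ^ ((3 * κ + 18) + (3 * κ' + 18)) :=
    Real.rpow_le_rpow_of_exponent_le hN1 (by linarith)
  have e2 : (N : ℝ) ^ (3 * κ' + 18) ≤ (N : ℝ) ^ ((3 * κ + 18) + (3 * κ' + 18)) :=
    Real.rpow_le_rpow_of_exponent_le hN1 (by linarith)
  have f1 : (335544321 * C * (16 : ℝ) ^ κ) * (N : ℝ) ^ (3 * κ + 18) ≤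
      (335544321 * C * (16 : ℝ) ^ κ) * (N : ℝ) ^ ((3 * κ + 18) + (3 * κ' + 18)) := by gcongr
  have f2 : (335544321 * C' * (16 : ℝ) ^ κ') * (N : ℝ) ^ (3 * κ' + 18) ≤
      (335544321 * C' * (16 : ℝ) ^ κ') * (N : ℝ) ^ ((3 * κ + 18) + (3 * κ' + 18)) := by gcongr
  have f3 : 0 ≤ (335544321 * C' * (16 : ℝ) ^ κ') *
      (N : ℝ) ^ ((3 * κ + 18) + (3 * κ' + 18)) := by positivity
  constructor
  · rw [add_mul]
    linarith
  · rw [add_mul]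
    linarith

/-- **Q1 is a question on one coordinate.** -/
theorem all_small (H : Lemmas) : List.TFAE [EntriesAtMost 2, Question NewformOrTwist CoordBound,
    SmallQuestion NewformOrTwist FirstBound, SmallQuestion NewformOrTwist SecondBound,
    SmallQuestion Twisted CoordBound] := by
  have hT : ∀ N a, 1 ≤ N → Twisted N a → IsForm N a := fun N a hN ha => ha.isForm H.twf hN
  have hF : ∀ N a, 1 ≤ N → NewformOrTwist N a → IsForm N a := fun N a hN ha =>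
    ha.elim (fun h => h.toIsForm) (fun h => hT N a hN h)
  have h0 := all_tfae H
  tfae_have 1 → 2 := (h0.out 0 1).1
  tfae_have 2 → 3 := fun h => (coord_iff.1 (coord_down hF h)).1
  tfae_have 2 → 4 := fun h => (coord_iff.1 (coord_down hF h)).2
  tfae_have 2 → 5 := fun h => by
    obtain ⟨κ, hκ, C, hC, h⟩ := coord_down hF h
    exact ⟨κ, hκ, C, hC, fun N hN a ha => h N hN a (Or.inr ha)⟩
  tfae_have 3 → 1 := fun h => (h0.out 2 0).1 (first_up hF h)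
  tfae_have 4 → 1 := fun h => (h0.out 3 0).1 (second_up hF h)
  tfae_have 5 → 1 := twisted_imp H
  tfae_finish

/-- The newforms with an odd twist of the same level. -/
theorem family_small : List.TFAE [Question HasTwist CoordBound,
    SmallQuestion HasTwist FirstBound, SmallQuestion HasTwist SecondBound] := by
  have hF : ∀ N a, 1 ≤ N → HasTwist N a → IsForm N a := by
    rintro N a hN ⟨a', D, χ, h⟩
    exact h.left.toIsForm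
  have h0 := family_tfae
  tfae_have 1 → 2 := fun h => (coord_iff.1 (coord_down hF h)).1
  tfae_have 1 → 3 := fun h => (coord_iff.1 (coord_down hF h)).2
  tfae_have 2 → 1 := fun h => (h0.out 1 0).1 (first_up hF h)
  tfae_have 3 → 1 := fun h => (h0.out 2 0).1 (second_up hF h)
  tfae_finish

end Pool.Agent.Q127.SM
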