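import Pool.Agent.TH133.SH.GenMain
import Mathlib.NumberTheory.DirichletCharacter.GaussSum
import Mathlib.Analysis.Fourier.ZMod

/-!
# The Shimura map of a newform and of a twist of the same level
-/

open Complex Matrix.SpecialLinearGroup MatrixGroups ModularGroup

namespace Pool.Agent.Q127.SM

open Pool.Agent.TH133.SH

variable {a a' : ℕ → ℤ} {N D : ℕ}

/-- `χ` is a primitive quadratic character modulo `D` with `χ(-1) = -1`. -/
structure OddQuadratic (D : ℕ) (χ : DirichletCharacter ℂ D) : Prop where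
  sq : χ ^ 2 = 1
  primitive : χ.IsPrimitive
  odd : χ (-1) = -1

lemma OddQuadratic.inv {χ : DirichletCharacter ℂ D} (h : OddQuadratic D χ) : χ⁻¹ = χ := by
  have h1 := h.sq
  rw [pow_two] at h1
  exact inv_eq_of_mul_eq_one_left h1

lemma summable_Fser (hs : ∀ τ : ℂ, 0 < τ.im → Summable (fun k : ℕ => (a k : ℂ) *
      Complex.exp (2 * (Real.pi : ℂ) * Complex.I * (k : ℂ) * τ))) {z : ℂ} (hz : 0 < z.im) :
    Summable (fun k : ℕ => (a k : ℂ) / (k : ℂ) *
      Complex.exp (2 * (Real.pi : ℂ) * Complex.I * (k : ℂ) * z)) := by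
  refine Summable.of_norm_bounded (hs z hz).norm (fun k => ?_)
  rw [norm_mul, norm_mul, norm_div]
  gcongr
  rcases Nat.eq_zero_or_pos k with rfl | hk
  · simp
  · apply div_le_self (norm_nonneg _)
    rw [Complex.norm_natCast]
    exact_mod_cast hk

/-- `F(τ + 1) = F(τ)`, and more generally `F(τ + n) = F(τ)`. -/
lemma Fser_add_int (a : ℕ → ℤ) (τ : ℂ) (n : ℤ) : Fser a (τ + n) = Fser a τ := by
  unfold Fser
  congr 1
  ext k
  congr 1
  have h1 : 2 * (Real.pi : ℂ) * Complex.I * (k : ℂ) * (τ + n) =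
      2 * (Real.pi : ℂ) * Complex.I * (k : ℂ) * τ + ((k * n : ℤ) : ℂ) * (2 * Real.pi * Complex.I) := by
    push_cast
    ring
  rw [h1, Complex.exp_add, Complex.exp_int_mul_two_pi_mul_I, mul_one]

/-- Complex conjugation: `F` has real coefficients. -/
lemma Fser_conj (a : ℕ → ℤ) (τ : ℂ) :
    Fser a (-(starRingEnd ℂ) τ) = (starRingEnd ℂ) (Fser a τ) := by
  unfold Fser
  rw [Complex.conj_tsum]
  congr 1
  ext k
  rw [map_mul, map_div₀, ← Complex.exp_conj]
  simp only [map_mul, Complex.conj_I, Complex.conj_ofReal, map_natCast, map_intCast, map_ofNat]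
  congr 2
  ring

/-- The values of `F` at `τ + v / D`, for a residue class `v` modulo `D`. -/
noncomputable def Phi (a : ℕ → ℤ) (D : ℕ) (τ : ℂ) (v : ZMod D) : ℂ :=
  Fser a (τ + (v.val : ℂ) / (D : ℂ))

lemma Phi_int (a : ℕ → ℤ) [NeZero D] (τ : ℂ) (x : ℤ) :
    Phi a D τ (x : ZMod D) = Fser a (τ + (x : ℂ) / (D : ℂ)) := by
  unfold Phi
  have hD : (D : ℂ) ≠ 0 := by exact_mod_cast NeZero.ne D
  have h1 : (((x : ZMod D).val : ℤ) : ZMod D) = (x : ZMod D) := by
    rw [Int.cast_natCast, ZMod.natCast_zmod_val]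
  obtain ⟨m, hm⟩ := (ZMod.intCast_eq_intCast_iff_dvd_sub _ _ _).1 h1
  have h2 : (x : ℂ) = (((x : ZMod D).val : ℕ) : ℂ) + (D : ℂ) * (m : ℂ) := by
    have h3 : x = ((x : ZMod D).val : ℤ) + (D : ℤ) * m := by linarith
    have h4 := congrArg (fun y : ℤ => (y : ℂ)) h3
    push_cast at h4
    exact h4
  rw [h2]
  have h3 : τ + ((((x : ZMod D).val : ℕ) : ℂ) + (D : ℂ) * (m : ℂ)) / (D : ℂ) =
      (τ + (((x : ZMod D).val : ℕ) : ℂ) / (D : ℂ)) + (m : ℂ) := by
    field_simp
    ring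
  rw [h3, Fser_add_int]

/-- The Gauss sum. -/
noncomputable def gs {D : ℕ} [NeZero D] (χ : DirichletCharacter ℂ D) : ℂ :=
  gaussSum χ (ZMod.stdAddChar (N := D))

lemma gs_shift [NeZero D] {χ : DirichletCharacter ℂ D} (h : OddQuadratic D χ) (n : ZMod D) :
    ∑ u : ZMod D, χ u * ZMod.stdAddChar (n * u) = χ n * gs χ := by
  have h1 := gaussSum_mulShift_of_isPrimitive (ZMod.stdAddChar (N := D)) h.primitive n
  rw [h.inv] at h1
  exact h1

lemma gs_ne_zero [NeZero D] {χ : DirichletCharacter ℂ D} (h : OddQuadratic D χ) : gs χ ≠ 0 := by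
  intro h0
  have h1 : ZMod.dft (fun x => χ x) = 0 := by
    ext k
    have := h.primitive.fourierTransform_eq_inv_mul_gaussSum k
    rw [this]
    change _ * gs χ = _
    rw [h0, mul_zero]
    rfl
  have h2 : (fun x => χ x) = (0 : ZMod D → ℂ) := by
    have := (ZMod.dft (N := D) (E := ℂ)).injective (a₁ := fun x => χ x) (a₂ := 0) (by
      rw [h1, map_zero])
    exact this
  have h3 := congrFun h2 1
  simp at h3

lemma gs_conj [NeZero D] {χ : DirichletCharacter ℂ D} (h : OddQuadratic D χ) :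
    (starRingEnd ℂ) (gs χ) = - gs χ := by
  have h1 := star_gaussSum_eq χ (ZMod.stdAddChar (N := D))
  have h2 := gs_shift h (-1)
  rw [h.odd] at h2
  change (starRingEnd ℂ) (gs χ) = _ at h1
  rw [h1, h.inv, neg_eq_neg_one_mul, ← h2]
  unfold gaussSum
  refine Finset.sum_congr rfl (fun u _ => ?_)
  rw [AddChar.inv_apply]
  congr 2
  ring

lemma gs_re [NeZero D] {χ : DirichletCharacter ℂ D} (h : OddQuadratic D χ) : (gs χ).re = 0 := by
  have h1 := congrArg Complex.re (gs_conj h)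
  simp at h1
  linarith

/-- The values of the character. -/
lemma chi_val {χ : DirichletCharacter ℂ D} (h : OddQuadratic D χ) (u : ZMod D) :
    ∃ e : ℤ, χ u = (e : ℂ) ∧ |e| ≤ 1 := by
  by_cases hu : IsUnit u
  · have h1 : χ u * χ u = 1 := by
      have h2 := congrArg (fun ψ : DirichletCharacter ℂ D => ψ u) h.sq
      simp only [pow_two, MulChar.mul_apply] at h2
      rw [h2, MulChar.one_apply hu]
    rcases mul_self_eq_one_iff.1 h1 with h2 | h2
    · exact ⟨1, by rw [h2]; simp, by simp⟩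
    · exact ⟨-1, by rw [h2]; simp, by simp⟩
  · exact ⟨0, by rw [MulChar.map_nonunit _ hu]; simp, by simp⟩

/-- **The twisting formula for `F`.** -/
lemma twist_Fser [NeZero D] (hs : ∀ τ : ℂ, 0 < τ.im → Summable (fun k : ℕ => (a k : ℂ) *
      Complex.exp (2 * (Real.pi : ℂ) * Complex.I * (k : ℂ) * τ)))
    {χ : DirichletCharacter ℂ D} (h : OddQuadratic D χ)
    (htw : ∀ n : ℕ, (a' n : ℂ) = χ (n : ZMod D) * (a n : ℂ)) {τ : ℂ} (hτ : 0 < τ.im) :
    ∑ u : ZMod D, χ u * Phi a D τ u = gs χ * Fser a' τ := by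
  have hD : (D : ℂ) ≠ 0 := by exact_mod_cast NeZero.ne D
  have him : ∀ u : ZMod D, 0 < (τ + (u.val : ℂ) / (D : ℂ)).im := by
    intro u
    have h1 : ((u.val : ℂ) / (D : ℂ)).im = 0 := by
      have : ((u.val : ℂ) / (D : ℂ)) = (((u.val : ℝ) / (D : ℝ) : ℝ) : ℂ) := by push_cast; rfl
      rw [this, Complex.ofReal_im]
    rw [Complex.add_im, h1, add_zero]
    exact hτ
  have h1 : ∀ u : ZMod D, χ u * Phi a D τ u = ∑' k : ℕ, χ u * ((a k : ℂ) / (k : ℂ) *
      Complex.exp (2 * (Real.pi : ℂ) * Complex.I * (k : ℂ) * (τ + (u.val : ℂ) / (D : ℂ)))) := by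
    intro u
    rw [tsum_mul_left]
    rfl
  rw [Finset.sum_congr rfl (fun u _ => h1 u),
    ← Summable.tsum_finsetSum (fun u _ => (summable_Fser hs (him u)).mul_left (χ u))]
  unfold Fser
  rw [← tsum_mul_left]
  congr 1
  ext k
  have h2 : ∀ u : ZMod D, χ u * ((a k : ℂ) / (k : ℂ) *
      Complex.exp (2 * (Real.pi : ℂ) * Complex.I * (k : ℂ) * (τ + (u.val : ℂ) / (D : ℂ)))) =
      (a k : ℂ) / (k : ℂ) * Complex.exp (2 * (Real.pi : ℂ) * Complex.I * (k : ℂ) * τ) *
        (χ u * ZMod.stdAddChar ((k : ZMod D) * u)) := by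
    intro u
    have h3 : ZMod.stdAddChar ((k : ZMod D) * u) =
        Complex.exp (2 * (Real.pi : ℂ) * Complex.I * ((k * u.val : ℤ) : ℂ) / (D : ℂ)) := by
      rw [← ZMod.stdAddChar_coe]
      congr 1
      push_cast
      rw [ZMod.natCast_zmod_val]
    have h4 : 2 * (Real.pi : ℂ) * Complex.I * (k : ℂ) * (τ + (u.val : ℂ) / (D : ℂ)) =
        2 * (Real.pi : ℂ) * Complex.I * (k : ℂ) * τ +
        2 * (Real.pi : ℂ) * Complex.I * ((k * u.val : ℤ) : ℂ) / (D : ℂ) := by
      push_cast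
      ring
    rw [h3, h4, Complex.exp_add]
    ring
  rw [Finset.sum_congr rfl (fun u _ => h2 u), ← Finset.mul_sum, gs_shift h, htw k]
  ring

end Pool.Agent.Q127.SM
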